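import Pool.Agent.Uni.PartOne

/-!
Sufficiency part of the structure theorem (MP_2df038_al).
-/

namespace Pool.Agent.Uni

open Submodule

universe u v w

section serial

variable {B : Type u} [Ring B]

/-- Elementwise form of left seriality. -/
theorem IsLeftSerialRing.exists_idem (h : IsLeftSerialRing B) :
    ∃ (n : ℕ) (L : Fin n → Submodule B B) (ε : Fin n → B),
      (∑ i, ε i = 1) ∧ (∀ i, ε i ∈ L i) ∧ (∀ i, ∀ b ∈ L i, b * ε i = b) ∧
      (∀ i, ∀ P Q : Submodule B B, P ≤ L i → Q ≤ L i → P ≤ Q ∨ Q ≤ P) := by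
  classical
  obtain ⟨n, L, hL, hLu⟩ := h
  obtain ⟨μ, hμ1, hμ2⟩ := (Submodule.mem_iSup_iff_exists_finsupp L (1 : B)).1
    (by rw [hL.submodule_iSup_eq_top]; exact Submodule.mem_top)
  have hx : ∑ i, μ i = 1 := by
    rw [← hμ2, Finsupp.sum_fintype]
    intro i; rfl
  refine ⟨n, L, fun i => μ i, hx, hμ1, ?_, fun i => uniserial_sub_of _ (hLu i)⟩
  intro i b hb
  have hind := (iSupIndep_iff_finsetSum_eq_imp_eq L).1 hL.submodule_iSupIndep
  have h1 := hind Finset.univ (fun j => b * μ j) (fun j => if j = i then b else 0)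
    (fun j _ => ⟨Submodule.smul_mem _ b (hμ1 j), by
      split_ifs with hj
      · rw [hj]; exact hb
      · exact zero_mem _⟩) (by rw [← Finset.mul_sum, hx, mul_one]; simp) i (Finset.mem_univ i)
  simpa using h1

/-- Elementwise form of right seriality. -/
theorem IsLeftSerialRing.exists_idem_op (h : IsLeftSerialRing Bᵐᵒᵖ) :
    ∃ (n : ℕ) (δ : Fin n → B), (∑ i, δ i = 1) ∧
      (∀ i, ∀ a b : B, (∃ r, δ i * a = δ i * b * r) ∨ (∃ r, δ i * b = δ i * a * r)) := by
  obtain ⟨n, L, ε, hsum, hmem, -, huni⟩ := h.exists_idem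
  refine ⟨n, fun i => (ε i).unop, ?_, ?_⟩
  · have := congrArg MulOpposite.unop hsum
    rwa [Finset.unop_sum, MulOpposite.unop_one] at this
  · intro i a b
    have h1 : ∀ c : B, Submodule.span Bᵐᵒᵖ {MulOpposite.op ((ε i).unop * c)} ≤ L i := by
      intro c
      rw [Submodule.span_singleton_le_iff_mem, MulOpposite.op_mul, MulOpposite.op_unop]
      exact Submodule.smul_mem _ _ (hmem i)
    have key : ∀ c d : B, Submodule.span Bᵐᵒᵖ {MulOpposite.op c} ≤
        Submodule.span Bᵐᵒᵖ {MulOpposite.op d} → ∃ r, c = d * r := by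
      intro c d hcd
      have h2 := hcd (Submodule.mem_span_singleton_self _)
      obtain ⟨r, hr⟩ := Submodule.mem_span_singleton.1 h2
      refine ⟨r.unop, ?_⟩
      have := congrArg MulOpposite.unop hr
      rw [smul_eq_mul, MulOpposite.unop_mul, MulOpposite.unop_op, MulOpposite.unop_op] at this
      exact this.symm
    rcases huni i _ _ (h1 a) (h1 b) with h2 | h2
    · exact Or.inl (key _ _ h2)
    · exact Or.inr (key _ _ h2)

/-- Uniform modules over a left noetherian serial ring are uniserial. -/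
theorem IsSerialRing.propU (hB : IsNoetherianRing B) (hs : IsSerialRing B)
    {W : Type v} [AddCommGroup W] [Module B W] (hW : IsUniform B W) : IsUniserial B W := by
  classical
  obtain ⟨n, L, ε, hsum, hmem, hidem, huni⟩ := hs.1.exists_idem
  obtain ⟨m, δ, hδsum, hδ⟩ := hs.2.exists_idem_op
  have hmem' : ∀ i (b : B), b * ε i ∈ L i := fun i b => Submodule.smul_mem _ b (hmem i)
  -- the main comparison
  have hwf : WellFoundedGT (Submodule B B) := inferInstance
  let ann : Fin n → W → Submodule B B := fun k y =>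
    L k ⊓ LinearMap.ker (LinearMap.toSpanSingleton B W y)
  have hann : ∀ k y b, b ∈ ann k y ↔ b ∈ L k ∧ b • y = 0 := by
    intro k y b
    simp only [ann, Submodule.mem_inf, LinearMap.mem_ker, LinearMap.toSpanSingleton_apply]
  have main : ∀ P Q : Submodule B B, ∀ (j k : Fin n) (x y : W), ε j • x = x → ε k • y = y →
      ann j x = P → ann k y = Q → (∃ c : B, x = c • y) ∨ (∃ c : B, y = c • x) := by
    intro P
    induction P using hwf.wf.induction with
    | _ P ihP =>
    intro Q
    induction Q using hwf.wf.induction with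
    | _ Q ihQ =>
    intro j k x y hx hy hP hQ
    by_cases hx0 : x = 0
    · exact Or.inl ⟨0, by rw [hx0, zero_smul]⟩
    by_cases hy0 : y = 0
    · exact Or.inr ⟨0, by rw [hy0, zero_smul]⟩
    -- common multiple
    have hne : (B ∙ x) ⊓ (B ∙ y) ≠ ⊥ := by
      intro h
      rcases hW.2 _ _ h with h1 | h1
      · exact hx0 (Submodule.span_singleton_eq_bot.1 h1)
      · exact hy0 (Submodule.span_singleton_eq_bot.1 h1)
    obtain ⟨z, ⟨hz1, hz2⟩, hz0⟩ := Submodule.exists_mem_ne_zero_of_ne_bot hne
    obtain ⟨a, ha⟩ := Submodule.mem_span_singleton.1 hz1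
    obtain ⟨b, hb⟩ := Submodule.mem_span_singleton.1 hz2
    obtain ⟨i, hi⟩ : ∃ i, δ i • z ≠ 0 := by
      by_contra hcon
      push Not at hcon
      apply hz0
      rw [← one_smul B z, ← hδsum, Finset.sum_smul]
      exact Finset.sum_eq_zero (fun i _ => hcon i)
    -- symmetric step
    have step : ∀ (j k : Fin n) (x y : W) (a b : B), ε j • x = x → ε k • y = y →
        a • x = z → b • y = z → (∃ r, δ i * (a * ε j) = δ i * (b * ε k) * r) →
        ∃ r : B, ε k * r * ε j = r ∧ ann k y < ann k (y - r • x) := by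
      intro j k x y a b hx hy ha hb ⟨r, hr⟩
      have hεk : ε k * ε k = ε k := hidem k _ (hmem k)
      have hεj : ε j * ε j = ε j := hidem j _ (hmem j)
      refine ⟨ε k * r * ε j, ?_, ?_⟩
      · have h0 : ε k * (ε k * r * ε j) * ε j = (ε k * ε k) * r * (ε j * ε j) := by noncomm_ring
        rw [h0, hεj, hεk]
      · have hb' : (δ i * b * ε k) • (y - (ε k * r * ε j) • x) = 0 := by
          have h1 : δ i * b * ε k * (ε k * r * ε j) = δ i * (a * ε j) := by
            calc δ i * b * ε k * (ε k * r * ε j) = δ i * b * (ε k * ε k) * r * ε j := by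
                  noncomm_ring
              _ = (δ i * (b * ε k) * r) * ε j := by rw [hεk]; noncomm_ring
              _ = δ i * (a * ε j) := by rw [← hr]; simp only [mul_assoc, hεj]
          rw [smul_sub, smul_smul, h1, mul_smul, mul_smul, mul_smul, mul_smul, hy, hx, ha, hb,
            sub_self]
        have hby : (δ i * b * ε k) • y = δ i • z := by
          rw [mul_smul, mul_smul, hy, hb]
        rcases huni k (ann k y) (ann k (y - (ε k * r * ε j) • x)) inf_le_left inf_le_left
          with h1 | h1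
        · refine lt_of_le_of_ne h1 (fun h2 => hi ?_)
          have h3 : δ i * b * ε k ∈ ann k (y - (ε k * r * ε j) • x) :=
            (hann _ _ _).2 ⟨hmem' _ _, hb'⟩
          rw [← h2, hann] at h3
          rw [← hby]
          exact h3.2
        · exfalso
          apply hi
          have h3 : δ i * b * ε k ∈ ann k (y - (ε k * r * ε j) • x) :=
            (hann _ _ _).2 ⟨hmem' _ _, hb'⟩
          have h4 := (hann _ _ _).1 (h1 h3)
          rw [← hby]
          exact h4.2
    -- concluding step
    have concl : ∀ (j k : Fin n) (x y : W) (r : B), ε j • x = x → ε k • y = y → x ≠ 0 →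
        ε k * r * ε j = r → (∃ c : B, x = c • (y - r • x)) →
        (∃ c : B, x = c • y) ∨ (∃ c : B, y = c • x) := by
      intro j k x y r hx hy hx0 hr ⟨c, hc⟩
      have hεk : ε k * ε k = ε k := hidem k _ (hmem k)
      have hεj : ε j * ε j = ε j := hidem j _ (hmem j)
      have hεr : ε k * r = r := by rw [← hr, ← mul_assoc, ← mul_assoc, hεk]
      have hrε : r * ε j = r := by rw [← hr, mul_assoc, hεj]
      -- s = ε j * c * ε k
      obtain ⟨s, hs⟩ : ∃ s, s = ε j * c * ε k := ⟨_, rfl⟩
      have hsx : x = s • (y - r • x) := by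
        rw [hs, mul_smul, mul_smul, smul_sub (ε k), hy, smul_smul (ε k), hεr, ← hc, hx]
      have hsε : s * ε k = s := by rw [hs, mul_assoc, hεk]
      have hεs : ε j * s = s := by rw [hs, ← mul_assoc, ← mul_assoc, hεj]
      have h1 : (ε j + s * r) • x = s • y := by
        rw [add_smul, hx, mul_smul]
        nth_rewrite 1 [hsx]
        rw [smul_sub]
        abel
      -- compare B (s r) and B (ε j + s r) in L j
      have hm1 : B ∙ (s * r) ≤ L j := by
        rw [Submodule.span_singleton_le_iff_mem, ← hrε, ← mul_assoc]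
        exact hmem' _ _
      have hm2 : B ∙ (ε j + s * r) ≤ L j := by
        rw [Submodule.span_singleton_le_iff_mem]
        refine add_mem (hmem j) ?_
        rw [← hrε, ← mul_assoc]
        exact hmem' _ _
      have hsr : s * r ∈ B ∙ (s * r) := Submodule.mem_span_singleton_self _
      have hsr' : ε j + s * r ∈ B ∙ (ε j + s * r) := Submodule.mem_span_singleton_self _
      rcases huni j _ _ hm1 hm2 with h2 | h2
      · have h3 : ε j ∈ B ∙ (ε j + s * r) := by
          have := sub_mem hsr' (h2 hsr)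
          rwa [add_sub_cancel_right] at this
        obtain ⟨d, hd⟩ := Submodule.mem_span_singleton.1 h3
        left
        refine ⟨d * s, ?_⟩
        rw [mul_smul, ← h1, smul_smul]
        rw [smul_eq_mul] at hd
        rw [hd, hx]
      · have h3 : ε j ∈ B ∙ (s * r) := by
          have := sub_mem (h2 hsr') hsr
          rwa [add_sub_cancel_right] at this
        obtain ⟨d, hd⟩ := Submodule.mem_span_singleton.1 h3
        rw [smul_eq_mul] at hd
        -- compare B (r d s) and B (ε k - r d s) in L k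
        have hn1 : B ∙ (r * d * s) ≤ L k := by
          rw [Submodule.span_singleton_le_iff_mem, ← hsε, ← mul_assoc]
          exact hmem' _ _
        have hn2 : B ∙ (ε k - r * d * s) ≤ L k := by
          rw [Submodule.span_singleton_le_iff_mem]
          refine sub_mem (hmem k) ?_
          rw [← hsε, ← mul_assoc]
          exact hmem' _ _
        have hq1 : r * d * s ∈ B ∙ (r * d * s) := Submodule.mem_span_singleton_self _
        have hq2 : ε k - r * d * s ∈ B ∙ (ε k - r * d * s) := Submodule.mem_span_singleton_self _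
        rcases huni k _ _ hn1 hn2 with h4 | h4
        · have h5 : ε k ∈ B ∙ (ε k - r * d * s) := by
            have := add_mem hq2 (h4 hq1)
            rwa [sub_add_cancel] at this
          obtain ⟨d', hd'⟩ := Submodule.mem_span_singleton.1 h5
          rw [smul_eq_mul] at hd'
          -- then r = 0
          exfalso
          have h6 : r = 0 := by
            have h7 : ε k * r = d' * (ε k - r * d * s) * r := by rw [hd']
            rw [hεr] at h7
            rw [h7, mul_assoc, sub_mul, hεr]
            have h8 : r * d * s * r = r := by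
              rw [mul_assoc, mul_assoc, hd, hrε]
            rw [h8, sub_self, mul_zero]
          rw [h6, mul_zero, mul_zero] at hd
          apply hx0
          rw [← hx, ← hd, zero_smul]
        · have h5 : ε k ∈ B ∙ (r * d * s) := by
            have := add_mem (h4 hq2) hq1
            rwa [sub_add_cancel] at this
          obtain ⟨d', hd'⟩ := Submodule.mem_span_singleton.1 h5
          rw [smul_eq_mul] at hd'
          right
          refine ⟨d' * (r * d) * (ε j + s * r), ?_⟩
          rw [mul_smul, h1, smul_smul, mul_assoc, hd', hy]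
    rcases hδ i (a * ε j) (b * ε k) with hcase | hcase
    · obtain ⟨r, hr, hlt⟩ := step j k x y a b hx hy ha hb hcase
      have hz : ε k • (y - r • x) = y - r • x := by
        have hεk : ε k * ε k = ε k := hidem k _ (hmem k)
        rw [smul_sub, hy, smul_smul]
        congr 2
        rw [← hr, ← mul_assoc, ← mul_assoc, hεk]
      rcases ihQ _ (by rw [← hQ]; exact hlt) j k x (y - r • x) hx hz hP rfl with h1 | h1
      · exact concl j k x y r hx hy hx0 hr h1
      · obtain ⟨c, hc⟩ := h1
        right
        refine ⟨c + r, ?_⟩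
        rw [add_smul, ← hc, sub_add_cancel]
    · obtain ⟨r, hr, hlt⟩ := step k j y x b a hy hx hb ha hcase
      have hz : ε j • (x - r • y) = x - r • y := by
        have hεj : ε j * ε j = ε j := hidem j _ (hmem j)
        rw [smul_sub, hx, smul_smul]
        congr 2
        rw [← hr, ← mul_assoc, ← mul_assoc, hεj]
      rcases ihP _ (by rw [← hP]; exact hlt) Q j k (x - r • y) y hz hy rfl hQ with h1 | h1
      · obtain ⟨c, hc⟩ := h1
        left
        refine ⟨c + r, ?_⟩
        rw [add_smul, ← hc, sub_add_cancel]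
      · exact (concl k j y x r hy hx hy0 hr h1).symm
  -- from elements of components to all submodules
  intro P Q
  by_contra hcon
  push Not at hcon
  obtain ⟨hPQ, hQP⟩ := hcon
  obtain ⟨x, hxP, hxQ⟩ := Set.not_subset.1 hPQ
  have hdec : ∀ w : W, w = ∑ j, ε j • w := by
    intro w
    rw [← Finset.sum_smul, hsum, one_smul]
  have hidem' : ∀ j (w : W), ε j • ε j • w = ε j • w := by
    intro j w
    rw [smul_smul, hidem j _ (hmem j)]
  obtain ⟨j, hj⟩ : ∃ j, ε j • x ∉ Q := by
    by_contra hc
    push Not at hc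
    apply hxQ
    rw [SetLike.mem_coe, hdec x]
    exact Submodule.sum_mem _ (fun j _ => hc j)
  apply hQP
  intro y hy
  rw [hdec y]
  refine Submodule.sum_mem _ (fun k _ => ?_)
  rcases main _ _ j k (ε j • x) (ε k • y) (hidem' _ _) (hidem' _ _) rfl rfl with h1 | h1
  · obtain ⟨c, hc⟩ := h1
    exfalso
    apply hj
    rw [hc]
    exact Q.smul_mem _ (Q.smul_mem _ hy)
  · obtain ⟨c, hc⟩ := h1
    rw [hc]
    exact P.smul_mem _ (P.smul_mem _ hxP)

end serial

section general

variable {R : Type u} [Ring R] {e : R} {F : Ideal R} [F.IsTwoSided]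

theorem StructAt.e_mem (h : StructAt R e F) : e ∈ F := (h.mem_iff e).2 h.idem

theorem StructAt.ere (h : StructAt R e F) (r : R) : e * (r * e) = r * e :=
  (h.mem_iff _).1 (F.mul_mem_left r h.e_mem)

theorem StructAt.e_smul_smul (h : StructAt R e F) {W : Type v} [AddCommGroup W] [Module R W]
    {w : W} (hw : e • w = w) (r : R) : e • (r • w) = r • w := by
  have h1 : r • w = (r * e) • w := by rw [mul_smul, hw]
  rw [h1, smul_smul, h.ere]

theorem StructAt.e_smul_of_mem (h : StructAt R e F) {W : Type v} [AddCommGroup W] [Module R W]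
    {a : R} (ha : a ∈ F) (w : W) : e • (a • w) = a • w := by
  rw [smul_smul, (h.mem_iff a).1 ha]

/-- The case in which `F` annihilates the module. -/
theorem StructAt.caseA (hR : IsNoetherianRing R) (h : StructAt R e F) {W : Type v}
    [AddCommGroup W] [Module R W] (hW : IsUniform R W) (h0 : ∀ w : W, e • w = 0) :
    IsUniserial R W := by
  have htors : Module.IsTorsionBySet R W (F : Set R) := by
    intro w a
    have ha := a.2
    rw [SetLike.mem_coe, h.mem_iff] at ha
    rw [← ha, mul_smul, h0]
  let : Module (R ⧸ F) W := htors.module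
  have hsm : ∀ (r : R) (w : W), (Ideal.Quotient.mk F r) • w = r • w := fun r w => rfl
  have hB : IsNoetherianRing (R ⧸ F) :=
    isNoetherianRing_of_surjective R (R ⧸ F) (Ideal.Quotient.mk F) Ideal.Quotient.mk_surjective
  let up : Submodule R W → Submodule (R ⧸ F) W := fun P =>
    { P with
      smul_mem' := by
        intro c x hx
        obtain ⟨r, rfl⟩ := Ideal.Quotient.mk_surjective c
        rw [hsm]
        exact P.smul_mem r hx }
  let down : Submodule (R ⧸ F) W → Submodule R W := fun P =>
    { P with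
      smul_mem' := by
        intro r x hx
        rw [← hsm]
        exact P.smul_mem _ hx }
  have hup : ∀ P w, w ∈ up P ↔ w ∈ P := fun P w => Iff.rfl
  have hdown : ∀ P w, w ∈ down P ↔ w ∈ P := fun P w => Iff.rfl
  have hW' : IsUniform (R ⧸ F) W := by
    refine ⟨hW.1, fun A C hAC => ?_⟩
    have h1 : down A ⊓ down C = ⊥ := by
      rw [eq_bot_iff]
      rintro x ⟨hx1, hx2⟩
      have : x ∈ A ⊓ C := ⟨hx1, hx2⟩
      rw [hAC] at this
      exact this
    rcases hW.2 _ _ h1 with h2 | h2
    · left
      rw [eq_bot_iff]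
      intro x hx
      have : x ∈ down A := hx
      rw [h2] at this
      exact this
    · right
      rw [eq_bot_iff]
      intro x hx
      have : x ∈ down C := hx
      rw [h2] at this
      exact this
  intro P Q
  exact IsSerialRing.propU hB h.serial hW' (up P) (up Q)

/-- Iterated radicals of a module of finite length vanish. -/
theorem exists_iterate_eq_bot (N : Type v) [AddCommGroup N] [Module R N] [IsNoetherian R N]
    [IsArtinian R N] :
    ∃ k, ((fun Y : Submodule R N => Ring.jacobson R • Y)^[k]) ⊤ = ⊥ := by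
  obtain ⟨Y, ⟨k, hk⟩, hmin⟩ := IsArtinian.set_has_minimal
    {Y : Submodule R N | ∃ k, ((fun Y : Submodule R N => Ring.jacobson R • Y)^[k]) ⊤ = Y}
    ⟨⊤, 0, rfl⟩
  refine ⟨k, ?_⟩
  rw [hk]
  apply Submodule.FG.eq_bot_of_le_jacobson_smul (IsNoetherian.noetherian Y)
  have h1 : Ring.jacobson R • Y ≤ Y := Submodule.smul_le_right
  have h2 := hmin (Ring.jacobson R • Y) ⟨k + 1, by
    rw [Function.iterate_succ_apply', hk]⟩
  rcases h1.lt_or_eq with h3 | h3
  · exact absurd h3 h2
  · exact h3.ge

/-- One step of the radical filtration of `eW` from below. -/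
def layStep (h : StructAt R e F) {W : Type v} [AddCommGroup W] [Module R W]
    (Y : Submodule R W) : Submodule R W where
  carrier := {x | e • x = x ∧ ∀ j ∈ Ring.jacobson R, j • x ∈ Y}
  add_mem' := by
    rintro a b ⟨ha1, ha2⟩ ⟨hb1, hb2⟩
    refine ⟨by rw [smul_add, ha1, hb1], fun j hj => ?_⟩
    rw [smul_add]
    exact Y.add_mem (ha2 j hj) (hb2 j hj)
  zero_mem' := ⟨smul_zero _, fun j _ => by rw [smul_zero]; exact Y.zero_mem⟩
  smul_mem' := by
    rintro c x ⟨hx1, hx2⟩
    refine ⟨h.e_smul_smul hx1 c, fun j hj => ?_⟩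
    rw [smul_smul]
    exact hx2 _ ((Ring.jacobson R).mul_mem_right c hj)

/-- The layers of `eW`. -/
def lay (h : StructAt R e F) (W : Type v) [AddCommGroup W] [Module R W] : ℕ → Submodule R W
  | 0 => ⊥
  | n + 1 => layStep h (lay h W n)

section layers

variable (h : StructAt R e F) {W : Type v} [AddCommGroup W] [Module R W]

theorem mem_lay_succ (n : ℕ) (x : W) :
    x ∈ lay h W (n + 1) ↔ e • x = x ∧ ∀ j ∈ Ring.jacobson R, j • x ∈ lay h W n := Iff.rfl

theorem e_smul_of_mem_lay {n : ℕ} {x : W} (hx : x ∈ lay h W n) : e • x = x := by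
  cases n with
  | zero =>
    have : x = 0 := hx
    rw [this, smul_zero]
  | succ n => exact hx.1

theorem lay_le_succ (n : ℕ) : lay h W n ≤ lay h W (n + 1) := by
  induction n with
  | zero => exact bot_le
  | succ n ih =>
    intro x hx
    exact ⟨hx.1, fun j hj => ih (hx.2 j hj)⟩

theorem lay_mono : Monotone (lay h W) := monotone_nat_of_le_succ (lay_le_succ h)

theorem lay_stable {m : ℕ} (hm : lay h W (m + 1) ≤ lay h W m) :
    lay h W (m + 2) ≤ lay h W (m + 1) := by
  intro x hx
  exact ⟨hx.1, fun j hj => hm (hx.2 j hj)⟩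

/-- The layers exhaust `eW`. -/
theorem exists_lay_all (hR : IsNoetherianRing R) :
    ∃ N, ∀ x : W, e • x = x → x ∈ lay h W N := by
  have := h.artinian
  have : IsNoetherian R F := isNoetherian_submodule' F
  obtain ⟨k, hk⟩ := exists_iterate_eq_bot (R := R) F
  have main : ∀ i ≤ k, ∀ (a : F) (w : W),
      a ∈ ((fun Y : Submodule R F => Ring.jacobson R • Y)^[k - i]) ⊤ →
        (a : R) • w ∈ lay h W i := by
    intro i
    induction i with
    | zero =>
      intro _ a w ha
      rw [Nat.sub_zero, hk] at ha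
      have h0 : a = 0 := ha
      rw [h0]
      simp
    | succ i ih =>
      intro hik a w ha
      refine ⟨h.e_smul_of_mem a.2 w, fun j hj => ?_⟩
      have h1 := ih (by omega) (j • a) w (by
        have h2 : k - i = (k - (i + 1)) + 1 := by omega
        rw [h2, Function.iterate_succ_apply']
        exact Submodule.smul_mem_smul hj ha)
      rw [smul_smul]
      exact h1
  refine ⟨k, fun x hx => ?_⟩
  rw [← hx]
  exact main k le_rfl ⟨e, h.e_mem⟩ x (by rw [Nat.sub_self]; exact Submodule.mem_top)

include h in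
/-- Elements of `eN` killed by the radical generate semisimple submodules. -/
theorem semisimple_span {N : Type w} [AddCommGroup N] [Module R N] {x : N} (hx : e • x = x)
    (hJ : ∀ j ∈ Ring.jacobson R, j • x = 0) : IsSemisimpleModule R (R ∙ x) := by
  have := h.artinian
  let P := R ⧸ Ring.jacobson R
  let eb : P := Submodule.Quotient.mk e
  have hPe : IsArtinian R (R ∙ eb) := by
    let f : F →ₗ[R] (R ∙ eb) := LinearMap.codRestrict (R ∙ eb)
      ((LinearMap.toSpanSingleton R P eb) ∘ₗ F.subtype)
      (fun a => Submodule.mem_span_singleton.2 ⟨a, rfl⟩)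
    apply isArtinian_of_surjective F f
    rintro ⟨y, hy⟩
    obtain ⟨r, rfl⟩ := Submodule.mem_span_singleton.1 hy
    refine ⟨⟨r * e, F.mul_mem_left r h.e_mem⟩, ?_⟩
    apply Subtype.ext
    show (r * e) • eb = r • eb
    rw [mul_smul]
    congr 1
    show Submodule.Quotient.mk (e • e) = eb
    rw [smul_eq_mul, h.idem]
  have hPs : IsSemisimpleModule R (R ∙ eb) := by
    rw [IsArtinian.isSemisimpleModule_iff_jacobson]
    exact Module.jacobson_eq_bot_of_injective (R ∙ eb).subtype (R ∙ eb).injective_subtype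
      (Module.jacobson_quotient_jacobson R R)
  let g : P →ₗ[R] N := (Ring.jacobson R).liftQ (LinearMap.toSpanSingleton R N x)
    (fun j hj => hJ j hj)
  have hr : LinearMap.range (g ∘ₗ (R ∙ eb).subtype) = R ∙ x := by
    rw [LinearMap.range_comp, Submodule.range_subtype, Submodule.map_span, Set.image_singleton]
    congr 2
  rw [← hr]
  exact IsSemisimpleModule.range _

/-- The statement `Q n`. -/
def LayQ (h : StructAt R e F) (W : Type v) [AddCommGroup W] [Module R W] (n : ℕ) : Prop :=
  ∀ x : W, e • x = x → x ∉ lay h W n → lay h W (n + 1) ≤ R ∙ x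

/-- The dichotomy coming from uniseriality of `Hom(J ∩ F, S)`. -/
theorem dich {W : Type u} [AddCommGroup W] [Module R W] (n : ℕ) (hQ : LayQ h W n) (a b : W)
    (ha : ∀ k ∈ Ring.jacobson R ⊓ F, k • a ∈ lay h W (n + 1))
    (hb : ∀ k ∈ Ring.jacobson R ⊓ F, k • b ∈ lay h W (n + 1)) :
    (∃ r : R, ∀ k ∈ Ring.jacobson R ⊓ F, k • (a - r • b) ∈ lay h W n) ∨
      (∃ r : R, ∀ k ∈ Ring.jacobson R ⊓ F, k • (b - r • a) ∈ lay h W n) := by
  by_cases hle : lay h W (n + 1) ≤ lay h W n
  · left
    refine ⟨0, fun k hk => ?_⟩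
    rw [zero_smul, sub_zero]
    exact hle (ha k hk)
  let S : Submodule R (W ⧸ lay h W n) := (lay h W (n + 1)).map (lay h W n).mkQ
  have hS : IsSimpleModule R S := by
    rw [isSimpleModule_iff_isAtom]
    refine ⟨fun h0 => hle ?_, fun A hA => ?_⟩
    · intro x hx
      have h1 : (lay h W n).mkQ x ∈ S := Submodule.mem_map_of_mem hx
      rw [h0, Submodule.mem_bot] at h1
      simpa using h1
    · by_contra hA0
      obtain ⟨y, hy, hy0⟩ := Submodule.exists_mem_ne_zero_of_ne_bot hA0
      obtain ⟨x, hx, rfl⟩ := hA.le hy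
      have hxn : x ∉ lay h W n := fun h1 => hy0 (by simpa using h1)
      have h2 := hQ x (e_smul_of_mem_lay h hx) hxn
      apply hA.not_ge
      calc S ≤ (R ∙ x).map (lay h W n).mkQ := Submodule.map_mono h2
        _ = R ∙ ((lay h W n).mkQ x) := by rw [Submodule.map_span, Set.image_singleton]
        _ ≤ A := by rwa [Submodule.span_singleton_le_iff_mem]
  let gen : ∀ c : W, (∀ k ∈ Ring.jacobson R ⊓ F, k • c ∈ lay h W (n + 1)) →
      ((Ring.jacobson R ⊓ F : Ideal R) →ₗ[R] S) := fun c hc =>
    LinearMap.codRestrict S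
      (((lay h W n).mkQ ∘ₗ LinearMap.toSpanSingleton R W c) ∘ₗ
        (Ring.jacobson R ⊓ F : Ideal R).subtype)
      (fun k => Submodule.mem_map_of_mem (hc k k.2))
  have hgen : ∀ c hc (k : (Ring.jacobson R ⊓ F : Ideal R)), ((gen c hc k : S) : W ⧸ lay h W n) =
      (lay h W n).mkQ ((k : R) • c) := fun c hc k => rfl
  rcases h.hom S hS (gen a ha) (gen b hb) with ⟨r, hr⟩ | ⟨r, hr⟩
  · left
    refine ⟨r, fun k hk => ?_⟩
    have h1 := congrArg Subtype.val (hr ⟨k, hk⟩)
    rw [hgen a ha, hgen b hb] at h1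
    have h2 : (lay h W n).mkQ (k • (a - r • b)) = 0 := by
      rw [smul_sub, map_sub, smul_smul, h1, sub_self]
    exact (Submodule.Quotient.mk_eq_zero _).1 h2
  · right
    refine ⟨r, fun k hk => ?_⟩
    have h1 := congrArg Subtype.val (hr ⟨k, hk⟩)
    rw [hgen b hb, hgen a ha] at h1
    have h2 : (lay h W n).mkQ (k • (b - r • a)) = 0 := by
      rw [smul_sub, map_sub, smul_smul, h1, sub_self]
    exact (Submodule.Quotient.mk_eq_zero _).1 h2

/-- Going down in the filtration. -/
theorem descend (n : ℕ) : ∀ (m : ℕ) (x : W), x ∈ lay h W m → x ∉ lay h W n →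
    ∃ x' ∈ R ∙ x, x' ∈ lay h W (n + 1) ∧ x' ∉ lay h W n := by
  intro m
  induction m with
  | zero =>
    intro x hx hxn
    exfalso
    apply hxn
    have : x = 0 := hx
    rw [this]
    exact zero_mem _
  | succ m ih =>
    intro x hx hxn
    by_cases hx1 : x ∈ lay h W (n + 1)
    · exact ⟨x, Submodule.mem_span_singleton_self x, hx1, hxn⟩
    · have hex := e_smul_of_mem_lay h hx
      obtain ⟨j, hj, hjx⟩ : ∃ j ∈ Ring.jacobson R, j • x ∉ lay h W n := by
        by_contra hcon
        push Not at hcon
        exact hx1 ⟨hex, hcon⟩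
      obtain ⟨x', hx', h1⟩ := ih (j • x) (hx.2 j hj) hjx
      refine ⟨x', ?_, h1⟩
      have h2 : R ∙ (j • x) ≤ R ∙ x := by
        rw [Submodule.span_singleton_le_iff_mem]
        exact Submodule.smul_mem _ _ (Submodule.mem_span_singleton_self x)
      exact h2 hx'

/-- All statements `Q n` hold in a uniform module. -/
theorem layQ_all {W : Type u} [AddCommGroup W] [Module R W] (hR : IsNoetherianRing R)
    (hW : IsUniform R W) (n : ℕ) : LayQ h W n := by
  obtain ⟨N, hN⟩ := exists_lay_all h (W := W) hR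
  induction n using Nat.strong_induction_on with
  | _ n ih =>
  intro x hx hxn
  obtain ⟨x', hx', hx'1, hx'n⟩ := descend h n N x (hN x hx) hxn
  have hsub : R ∙ x' ≤ R ∙ x := by rwa [Submodule.span_singleton_le_iff_mem]
  refine le_trans ?_ hsub
  clear hsub hx' hxn hx x
  intro y hy
  have hex := e_smul_of_mem_lay h hx'1
  have hey := e_smul_of_mem_lay h hy
  cases n with
  | zero =>
    have hx0 : x' ≠ 0 := fun h0 => hx'n (by rw [h0]; exact zero_mem _)
    by_cases hy0 : y = 0
    · rw [hy0]; exact zero_mem _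
    have hss : IsSemisimpleModule R (R ∙ y) :=
      semisimple_span h hey (fun j hj => hy.2 j hj)
    obtain ⟨C, hC⟩ := exists_isCompl ((R ∙ x').comap (R ∙ y).subtype)
    have h1 : (R ∙ x') ⊓ (C.map (R ∙ y).subtype) = ⊥ := by
      rw [eq_bot_iff]
      rintro z ⟨hz1, c, hc, rfl⟩
      have h2 : c ∈ (R ∙ x').comap (R ∙ y).subtype ⊓ C := ⟨hz1, hc⟩
      rw [hC.inf_eq_bot] at h2
      have h3 : c = 0 := h2
      rw [h3, map_zero]
      exact zero_mem _
    rcases hW.2 _ _ h1 with h2 | h2
    · exact absurd (Submodule.span_singleton_eq_bot.1 h2) hx0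
    · have hC0 : C = ⊥ :=
        Submodule.map_injective_of_injective (R ∙ y).injective_subtype (by
          rw [h2, Submodule.map_bot])
      have h3 : (R ∙ x').comap (R ∙ y).subtype = ⊤ := by
        have := hC.sup_eq_top
        rwa [hC0, sup_bot_eq] at this
      have h4 : (⟨y, Submodule.mem_span_singleton_self y⟩ : (R ∙ y)) ∈
          (R ∙ x').comap (R ∙ y).subtype := by
        rw [h3]; exact Submodule.mem_top
      exact h4
  | succ m =>
    have hQm := ih m (Nat.lt_succ_self m)
    have hx'm : x' ∉ lay h W m := fun h0 => hx'n (lay_le_succ h m h0)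
    have hle : lay h W (m + 1) ≤ R ∙ x' := hQm x' hex hx'm
    -- dichotomy inside the layer
    have hd : ∀ a b : W, a ∈ lay h W (m + 2) → b ∈ lay h W (m + 2) →
        (∃ r : R, a - r • b ∈ lay h W (m + 1)) ∨ (∃ r : R, b - r • a ∈ lay h W (m + 1)) := by
      intro a b ha hb
      have aux : ∀ a b : W, ∀ r : R, a ∈ lay h W (m + 2) → b ∈ lay h W (m + 2) →
          (∀ k ∈ Ring.jacobson R ⊓ F, k • (a - r • b) ∈ lay h W m) →
          a - r • b ∈ lay h W (m + 1) := by
        intro a b r ha hb hr
        have h1 : e • (a - r • b) = a - r • b :=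
          e_smul_of_mem_lay h (sub_mem ha (Submodule.smul_mem _ r hb))
        refine ⟨h1, fun j hj => ?_⟩
        rw [← h1, smul_smul]
        exact hr _ ⟨(Ring.jacobson R).mul_mem_right e hj, F.mul_mem_left j h.e_mem⟩
      rcases dich h m hQm a b (fun k hk => ha.2 k hk.1) (fun k hk => hb.2 k hk.1) with
        ⟨r, hr⟩ | ⟨r, hr⟩
      · exact Or.inl ⟨r, aux a b r ha hb hr⟩
      · exact Or.inr ⟨r, aux b a r hb ha hr⟩
    by_contra hyx
    -- `x'` is a multiple of `y` modulo the layer
    obtain ⟨r, hr⟩ : ∃ r : R, x' - r • y ∈ lay h W (m + 1) := by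
      rcases hd x' y hx'1 hy with h1 | ⟨r, hr⟩
      · exact h1
      · exfalso
        apply hyx
        have h2 := add_mem (hle hr) (Submodule.smul_mem _ r (Submodule.mem_span_singleton_self x'))
        rwa [sub_add_cancel] at h2
    -- work in `W ⧸ lay (m+1)`
    let π := (lay h W (m + 1)).mkQ
    have hπ : ∀ w, π w = 0 ↔ w ∈ lay h W (m + 1) := fun w => by simp [π]
    have hss : IsSemisimpleModule R (R ∙ (π y)) := by
      apply semisimple_span h
      · rw [← map_smul, hey]
      · intro j hj
        rw [← map_smul, hπ]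
        exact hy.2 j hj
    obtain ⟨C, hC⟩ := exists_isCompl ((R ∙ (π x')).comap (R ∙ (π y)).subtype)
    obtain ⟨a, ha, c, hc, hac⟩ : ∃ a ∈ (R ∙ (π x')).comap (R ∙ (π y)).subtype, ∃ c ∈ C,
        a + c = ⟨π y, Submodule.mem_span_singleton_self _⟩ := by
      apply Submodule.mem_sup.1
      rw [hC.sup_eq_top]
      exact Submodule.mem_top
    obtain ⟨ra, hra⟩ := Submodule.mem_span_singleton.1 a.2
    obtain ⟨rc, hrc⟩ := Submodule.mem_span_singleton.1 c.2
    have hbot : ∀ z : (R ∙ (π y)), (z : W ⧸ lay h W (m + 1)) ∈ R ∙ (π x') → z ∈ C → z = 0 := by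
      intro z hz1 hz2
      have : z ∈ (R ∙ (π x')).comap (R ∙ (π y)).subtype ⊓ C := ⟨hz1, hz2⟩
      rw [hC.inf_eq_bot] at this
      exact this
    rcases hd (ra • y) (rc • y) (Submodule.smul_mem _ _ hy) (Submodule.smul_mem _ _ hy) with
      ⟨s, hs⟩ | ⟨s, hs⟩
    · -- a = s c, so a = 0, y ∈ C
      have h1 : a = s • c := by
        apply Subtype.ext
        rw [← hπ, map_sub, sub_eq_zero, map_smul, map_smul, map_smul, hra, hrc] at hs
        exact hs
      have ha0 : a = 0 := hbot a ha (by rw [h1]; exact Submodule.smul_mem _ _ hc)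
      rw [ha0, zero_add] at hac
      apply hx'n
      rw [← hπ]
      have h2 : π x' = r • π y := by
        rw [← hπ, map_sub, sub_eq_zero, map_smul] at hr
        exact hr
      have h3 := hbot (r • c) (by
        have : ((r • c : (R ∙ (π y))) : W ⧸ lay h W (m + 1)) = π x' := by
          rw [h2, hac]; rfl
        rw [this]
        exact Submodule.mem_span_singleton_self _) (Submodule.smul_mem _ _ hc)
      rw [hac] at h3
      rw [h2]
      exact congrArg Subtype.val h3
    · -- c = s a, so c = 0
      have h1 : c = s • a := by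
        apply Subtype.ext
        rw [← hπ, map_sub, sub_eq_zero, map_smul, map_smul, map_smul, hra, hrc] at hs
        exact hs
      have hc0 : c = 0 := hbot c (by
        rw [h1]
        exact Submodule.smul_mem _ s ha) hc
      rw [hc0, add_zero] at hac
      apply hyx
      have h2 : π y ∈ R ∙ (π x') := by
        have : ((a : (R ∙ (π y))) : W ⧸ lay h W (m + 1)) ∈ R ∙ (π x') := ha
        rwa [hac] at this
      obtain ⟨t, ht⟩ := Submodule.mem_span_singleton.1 h2
      have h3 : y - t • x' ∈ lay h W (m + 1) := by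
        rw [← hπ, map_sub, map_smul, ht, sub_self]
      have h4 := add_mem (hle h3) (Submodule.smul_mem _ t (Submodule.mem_span_singleton_self x'))
      rwa [sub_add_cancel] at h4

include h in
/-- Elements `a (1 - e)` with `a ∈ F` lie in the radical. -/
theorem mul_one_sub_mem {a : R} (ha : a ∈ F) : a * (1 - e) ∈ Ring.jacobson R ⊓ F := by
  refine ⟨?_, F.mul_mem_right _ ha⟩
  rw [SetLike.mem_coe]
  show _ ∈ sInf {m : Submodule R R | IsCoatom m}
  rw [Submodule.mem_sInf]
  intro m hm
  by_contra hk
  have h1 : (R ∙ (a * (1 - e))) ⊔ m = ⊤ := hm.2 _ (lt_of_le_of_ne le_sup_right (fun h0 => hk (by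
    rw [h0]
    exact (le_sup_left : (R ∙ (a * (1 - e))) ≤ _) (Submodule.mem_span_singleton_self _))))
  have h2 : (1 : R) ∈ (R ∙ (a * (1 - e))) ⊔ m := by rw [h1]; exact Submodule.mem_top
  obtain ⟨y, hy, c, hc, hyc⟩ := Submodule.mem_sup.1 h2
  obtain ⟨b, rfl⟩ := Submodule.mem_span_singleton.1 hy
  rw [smul_eq_mul] at hyc
  have hsq : (b * (a * (1 - e))) * (b * (a * (1 - e))) = 0 := by
    have h3 : (1 - e) * (b * a) = 0 := by
      have h4 : e * (b * a) = b * a := (h.mem_iff _).1 (F.mul_mem_left b ha)
      rw [sub_mul, one_mul, h4, sub_self]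
    calc (b * (a * (1 - e))) * (b * (a * (1 - e))) =
        b * a * ((1 - e) * (b * a)) * (1 - e) := by noncomm_ring
      _ = 0 := by rw [h3]; simp
  have h5 : (1 : R) ∈ m := by
    have h6 : (1 + b * (a * (1 - e))) * c = 1 := by
      have h7 : c = 1 - b * (a * (1 - e)) := eq_sub_of_add_eq' hyc
      rw [h7]
      calc (1 + b * (a * (1 - e))) * (1 - b * (a * (1 - e))) =
          1 - (b * (a * (1 - e))) * (b * (a * (1 - e))) := by noncomm_ring
        _ = 1 := by rw [hsq, sub_zero]
    rw [← h6]
    exact m.smul_mem _ hc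
  exact hm.1 ((Ideal.eq_top_iff_one m).2 h5)

include h in
/-- Claim (iii): `F w = e W` for every nonzero `w` with `e w = 0`. -/
theorem full_of_ne {W : Type u} [AddCommGroup W] [Module R W] (hR : IsNoetherianRing R)
    (hW : IsUniform R W) (hX : ∃ x : W, e • x = x ∧ x ≠ 0) (w : W) (hw0 : w ≠ 0)
    (hew : e • w = 0) (x : W) (hx : e • x = x) : ∃ a ∈ F, a • w = x := by
  classical
  obtain ⟨N, hN⟩ := exists_lay_all h (W := W) hR
  have hQ := layQ_all h hR hW
  let Y : Submodule R W := Submodule.map (LinearMap.toSpanSingleton R W w) F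
  have hYmem : ∀ y, y ∈ Y ↔ ∃ a ∈ F, a • w = y := by
    intro y
    simp only [Y, Submodule.mem_map, LinearMap.toSpanSingleton_apply]
  rw [← hYmem]
  have hYe : ∀ y ∈ Y, e • y = y := by
    intro y hy
    obtain ⟨a, ha, rfl⟩ := (hYmem y).1 hy
    exact h.e_smul_of_mem ha w
  -- Y is nonzero
  have hY0 : Y ≠ ⊥ := by
    obtain ⟨x0, hx0, hx00⟩ := hX
    intro hY
    have h1 : (R ∙ w) ⊓ (R ∙ x0) = ⊥ := by
      rw [eq_bot_iff]
      rintro z ⟨hz1, hz2⟩
      obtain ⟨r, rfl⟩ := Submodule.mem_span_singleton.1 hz1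
      obtain ⟨s, hs⟩ := Submodule.mem_span_singleton.1 hz2
      have h2 : e • (r • w) = r • w := by
        rw [← hs]; exact h.e_smul_smul hx0 s
      have h3 : r • w ∈ Y := (hYmem _).2 ⟨e * r, F.mul_mem_right r h.e_mem, by
        rw [mul_smul, h2]⟩
      rwa [hY] at h3
    rcases hW.2 _ _ h1 with h2 | h2
    · exact hw0 (Submodule.span_singleton_eq_bot.1 h2)
    · exact hx00 (Submodule.span_singleton_eq_bot.1 h2)
  by_contra hxY
  -- the largest layer inside Y
  have hex : ∃ n, ¬ lay h W n ≤ Y := ⟨N, fun hle => hxY (hle (hN x hx))⟩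
  obtain ⟨n, hn1, hn2⟩ : ∃ n, lay h W n ≤ Y ∧ ¬ lay h W (n + 1) ≤ Y := by
    have h1 := Nat.find_spec hex
    have h2 : Nat.find hex ≠ 0 := fun h0 => h1 (by rw [h0]; exact bot_le)
    obtain ⟨n, hn⟩ := Nat.exists_eq_succ_of_ne_zero h2
    refine ⟨n, ?_, ?_⟩
    · by_contra hcon
      exact Nat.find_min hex (m := n) (by omega) hcon
    · rw [Nat.succ_eq_add_one] at hn
      rw [← hn]
      exact h1
  have hYn : Y = lay h W n := by
    refine le_antisymm (fun y hy => ?_) hn1
    by_contra hyn
    apply hn2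
    refine (hQ n y (hYe y hy) hyn).trans ?_
    rwa [Submodule.span_singleton_le_iff_mem]
  obtain ⟨m, rfl⟩ : ∃ m, n = m + 1 := by
    apply Nat.exists_eq_succ_of_ne_zero
    intro h0
    rw [h0] at hYn
    exact hY0 hYn
  obtain ⟨y', hy'1, hy'2⟩ := Set.not_subset.1 hn2
  rw [SetLike.mem_coe, hYn] at hy'2
  have hwk : ∀ k ∈ Ring.jacobson R ⊓ F, k • w ∈ lay h W (m + 1) := fun k hk => by
    rw [← hYn]; exact (hYmem _).2 ⟨k, hk.2, rfl⟩
  rcases dich h m (hQ m) y' w (fun k hk => hy'1.2 k hk.1) hwk with ⟨r, hr⟩ | ⟨r, hr⟩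
  · apply hy'2
    have hey' : e • y' = y' := e_smul_of_mem_lay h hy'1
    refine ⟨hey', fun j hj => ?_⟩
    have h1 := hr (j * e) ⟨(Ring.jacobson R).mul_mem_right e hj, F.mul_mem_left j h.e_mem⟩
    rw [mul_smul, smul_sub, hey', smul_smul, smul_sub] at h1
    have h2 : (e * r) • w ∈ lay h W (m + 1) := by
      rw [← hYn]; exact (hYmem _).2 ⟨_, F.mul_mem_right r h.e_mem, rfl⟩
    have h3 := add_mem h1 (h2.2 j hj)
    rwa [sub_add_cancel] at h3
  · -- Y ≤ lay m
    have hYm : lay h W (m + 1) ≤ lay h W m := by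
      rw [← hYn]
      intro y hy
      obtain ⟨a, ha, rfl⟩ := (hYmem y).1 hy
      have h1 := hr _ (mul_one_sub_mem h ha)
      have hey' : e • y' = y' := e_smul_of_mem_lay h hy'1
      have h2 : (1 - e) • (w - r • y') = w := by
        rw [sub_smul, one_smul, smul_sub, hew, h.e_smul_smul hey' r]
        abel
      rw [mul_smul, h2] at h1
      exact h1
    exact hy'2 (lay_stable h hYm hy'1)

/-- Sufficiency: the structural condition implies that uniform modules are uniserial. -/
theorem propU_of_struct (hR : IsNoetherianRing R) (h : StructAt R e F) : PropU R := by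
  classical
  intro W _ _ hW
  by_cases h0 : ∀ w : W, e • w = 0
  · exact h.caseA hR hW h0
  push Not at h0
  obtain ⟨w0, hw0⟩ := h0
  have hX : ∃ x : W, e • x = x ∧ x ≠ 0 := ⟨e • w0, by rw [smul_smul, h.idem], hw0⟩
  obtain ⟨N, hN⟩ := exists_lay_all h (W := W) hR
  have hQ := layQ_all h hR hW
  have hfull := full_of_ne h hR hW hX
  -- comparability of nonzero elements killed by `e`
  have hcomp0 : ∀ w w' : W, w ≠ 0 → w' ≠ 0 → e • w = 0 → e • w' = 0 →
      (w ∈ R ∙ w' ∨ w' ∈ R ∙ w) := by
    intro w w' hw hw' hew hew'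
    -- top layer
    obtain ⟨n, hn1, hn2⟩ : ∃ n, (∀ x : W, e • x = x → x ∈ lay h W (n + 1)) ∧
        ¬ (∀ x : W, e • x = x → x ∈ lay h W n) := by
      have hex : ∃ n, ∀ x : W, e • x = x → x ∈ lay h W n := ⟨N, hN⟩
      have h1 := Nat.find_spec hex
      have h2 : Nat.find hex ≠ 0 := fun h0 => by
        obtain ⟨x, hx, hx0⟩ := hX
        rw [h0] at h1
        exact hx0 (h1 x hx)
      obtain ⟨n, hn⟩ := Nat.exists_eq_succ_of_ne_zero h2
      rw [Nat.succ_eq_add_one] at hn
      refine ⟨n, ?_, Nat.find_min hex (m := n) (by omega)⟩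
      rw [← hn]; exact h1
    have hk : ∀ c : W, ∀ k ∈ Ring.jacobson R ⊓ F, k • c ∈ lay h W (n + 1) := fun c k hk =>
      hn1 _ (h.e_smul_of_mem hk.2 c)
    have aux : ∀ w w' : W, w ≠ 0 → e • w = 0 → ∀ r : R,
        (∀ k ∈ Ring.jacobson R ⊓ F, k • (w - r • w') ∈ lay h W n) → w ∈ R ∙ w' := by
      intro w w' hw hew r hr
      have hu : (1 - e) • (w - r • w') = 0 := by
        by_contra hu
        apply hn2
        intro x hx
        have heu : e • ((1 - e) • (w - r • w')) = 0 := by
          rw [smul_smul, mul_sub, mul_one, h.idem, sub_self, zero_smul]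
        obtain ⟨a, ha, hax⟩ := hfull _ hu heu x hx
        rw [← hax, smul_smul]
        exact hr _ (mul_one_sub_mem h ha)
      rw [smul_sub, sub_eq_zero, sub_smul, one_smul, hew, sub_zero] at hu
      rw [hu]
      exact Submodule.smul_mem _ _ (Submodule.smul_mem _ _ (Submodule.mem_span_singleton_self _))
    rcases dich h n (hQ n) w w' (hk w) (hk w') with ⟨r, hr⟩ | ⟨r, hr⟩
    · exact Or.inl (aux w w' hw hew r hr)
    · exact Or.inr (aux w' w hw' hew' r hr)
  -- elements fixed by `e` are multiples of every other element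
  have hXle : ∀ w : W, e • w ≠ w → ∀ x : W, e • x = x → x ∈ R ∙ (w - e • w) := by
    intro w hw x hx
    have h1 : w - e • w ≠ 0 := fun h2 => hw (sub_eq_zero.1 h2).symm
    have h2 : e • (w - e • w) = 0 := by rw [smul_sub, smul_smul, h.idem, sub_self]
    obtain ⟨a, -, ha⟩ := hfull _ h1 h2 x hx
    exact Submodule.mem_span_singleton.2 ⟨a, ha⟩
  have hself : ∀ w : W, e • w ≠ w → w ∈ R ∙ (w - e • w) := by
    intro w hw
    have h1 := hXle w hw (e • w) (by rw [smul_smul, h.idem])
    have h2 := add_mem (Submodule.mem_span_singleton_self (w - e • w)) h1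
    rwa [sub_add_cancel] at h2
  have hself' : ∀ w : W, w - e • w ∈ R ∙ w := by
    intro w
    exact sub_mem (Submodule.mem_span_singleton_self _)
      (Submodule.smul_mem _ _ (Submodule.mem_span_singleton_self _))
  have hspan : ∀ w : W, e • w ≠ w → R ∙ w = R ∙ (w - e • w) := fun w hw =>
    le_antisymm ((Submodule.span_singleton_le_iff_mem _ _).2 (hself w hw))
      ((Submodule.span_singleton_le_iff_mem _ _).2 (hself' w))
  have hcomp : ∀ w w' : W, w ∈ R ∙ w' ∨ w' ∈ R ∙ w := by
    intro w w'
    by_cases hw : e • w = w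
    · by_cases hw' : e • w' = w'
      · by_cases hw0 : w = 0
        · left; rw [hw0]; exact zero_mem _
        have hex : ∃ n, w ∈ lay h W n := ⟨N, hN w hw⟩
        have h1 := Nat.find_spec hex
        have h2 : Nat.find hex ≠ 0 := fun h0 => by
          rw [h0] at h1
          exact hw0 h1
        obtain ⟨n, hn⟩ := Nat.exists_eq_succ_of_ne_zero h2
        rw [Nat.succ_eq_add_one] at hn
        have h3 : w ∉ lay h W n := Nat.find_min hex (m := n) (by omega)
        rw [hn] at h1
        by_cases hw'n : w' ∈ lay h W n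
        · right
          exact hQ n w hw h3 (lay_le_succ h n hw'n)
        · left
          exact hQ n w' hw' hw'n h1
      · left
        rw [hspan w' hw']
        exact hXle w' hw' w hw
    · by_cases hw' : e • w' = w'
      · right
        rw [hspan w hw]
        exact hXle w hw w' hw'
      · have hw1 : w - e • w ≠ 0 := fun h2 => hw (sub_eq_zero.1 h2).symm
        have hw1' : w' - e • w' ≠ 0 := fun h2 => hw' (sub_eq_zero.1 h2).symm
        have he : ∀ w : W, e • (w - e • w) = 0 := fun w => by
          rw [smul_sub, smul_smul, h.idem, sub_self]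
        rcases hcomp0 _ _ hw1 hw1' (he w) (he w') with h1 | h1
        · left
          have h2 : R ∙ (w - e • w) ≤ R ∙ (w' - e • w') :=
            (Submodule.span_singleton_le_iff_mem _ _).2 h1
          rw [← hspan w hw, ← hspan w' hw'] at h2
          exact h2 (Submodule.mem_span_singleton_self _)
        · right
          have h2 : R ∙ (w' - e • w') ≤ R ∙ (w - e • w) :=
            (Submodule.span_singleton_le_iff_mem _ _).2 h1
          rw [← hspan w hw, ← hspan w' hw'] at h2
          exact h2 (Submodule.mem_span_singleton_self _)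
  intro P Q
  by_contra hcon
  push Not at hcon
  obtain ⟨hPQ, hQP⟩ := hcon
  obtain ⟨x, hxP, hxQ⟩ := Set.not_subset.1 hPQ
  apply hQP
  intro y hy
  rcases hcomp x y with h1 | h1
  · exfalso
    apply hxQ
    exact (Submodule.span_singleton_le_iff_mem _ _).2 hy h1
  · exact (Submodule.span_singleton_le_iff_mem _ _).2 hxP h1

end layers

end general

end Pool.Agent.Uni
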