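import Mathlib

/-!
Definitions for the structure theorem on rings whose left modules embed in direct sums of
uniserial modules (MP_2df038_al).
-/

namespace Pool.Agent.Uni

universe u v

/-- A left module is uniserial if its submodules are totally ordered by inclusion. -/
def IsUniserial (R : Type u) [Ring R] (M : Type v) [AddCommGroup M] [Module R M] : Prop :=
  ∀ A B : Submodule R M, A ≤ B ∨ B ≤ A

/-- A left module is uniform if it is nonzero and any two nonzero submodules meet. -/
def IsUniform (R : Type u) [Ring R] (M : Type v) [AddCommGroup M] [Module R M] : Prop :=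
  Nontrivial M ∧ ∀ A B : Submodule R M, A ⊓ B = ⊥ → A = ⊥ ∨ B = ⊥

/-- Property (E): every left `R`-module embeds in a direct sum of uniserial left modules. -/
def PropE (R : Type u) [Ring R] : Prop :=
  ∀ (M : Type u) [AddCommGroup M] [Module R M],
    ∃ (ι : Type u) (U : ι → Type u) (_ : ∀ i, AddCommGroup (U i)) (_ : ∀ i, Module R (U i)),
      (∀ i, IsUniserial R (U i)) ∧
        ∃ f : M →ₗ[R] (DirectSum ι U), Function.Injective f

/-- Every uniform left `R`-module is uniserial. -/
def PropU (R : Type u) [Ring R] : Prop :=
  ∀ (M : Type u) [AddCommGroup M] [Module R M], IsUniform R M → IsUniserial R M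

/-- `B` is a left serial ring: `B` is, as a left module, a finite (internal) direct sum of
uniserial left ideals. -/
def IsLeftSerialRing (B : Type u) [Ring B] : Prop :=
  ∃ (n : ℕ) (L : Fin n → Submodule B B), DirectSum.IsInternal L ∧ ∀ i, IsUniserial B (L i)

/-- `B` is a serial ring: it is left serial and right serial (the opposite ring is left
serial). -/
def IsSerialRing (B : Type u) [Ring B] : Prop :=
  IsLeftSerialRing B ∧ IsLeftSerialRing Bᵐᵒᵖ

/-- For a two-sided ideal `K` and a left module `S`, the abelian group `Hom_R(K,S)` of left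
`R`-linear maps is a left `R`-module through `(r • f) x = f (x * r)`.  This says that it is
uniserial, i.e. of any two elements one is a multiple of the other. -/
def HomUniserial (R : Type u) [Ring R] (K : Ideal R) [K.IsTwoSided]
    (S : Type v) [AddCommGroup S] [Module R S] : Prop :=
  ∀ f g : K →ₗ[R] S,
    (∃ r : R, ∀ x : K, f x = g ⟨x * r, K.mul_mem_right r x.2⟩) ∨
    (∃ r : R, ∀ x : K, g x = f ⟨x * r, K.mul_mem_right r x.2⟩)

instance isTwoSided_inf (R : Type u) [Ring R] (I J : Ideal R) [I.IsTwoSided] [J.IsTwoSided] :
    (I ⊓ J).IsTwoSided :=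
  ⟨fun b ha => ⟨I.mul_mem_right b ha.1, J.mul_mem_right b ha.2⟩⟩

/-- The structural condition on a ring `R`, an element `e` and a two-sided ideal `F`:
`e` is idempotent, `F = eR`, `F` is an artinian left `R`-module, `R ⧸ F` is a serial ring, and
for every simple left module `S` the left module `Hom_R(J ∩ F, S)` is uniserial, where `J` is the
Jacobson radical. -/
structure StructAt (R : Type u) [Ring R] (e : R) (F : Ideal R) [F.IsTwoSided] : Prop where
  idem : IsIdempotentElem e
  mem_iff : ∀ x : R, x ∈ F ↔ e * x = x
  artinian : IsArtinian R F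
  serial : IsSerialRing (R ⧸ F)
  hom : ∀ (S : Type u) [AddCommGroup S] [Module R S], IsSimpleModule R S →
    HomUniserial R (Ring.jacobson R ⊓ F) S

end Pool.Agent.Uni
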