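import Pool.Agent.Uni.PartOne

/-!
Basic calculus of uniserial modules over a ring which is semisimple modulo its radical.
-/

namespace Pool.Agent.Uni

universe u v w

open Submodule

section Basic

variable {R : Type u} [Ring R] {M : Type v} [AddCommGroup M] [Module R M]
  {N : Type w} [AddCommGroup N] [Module R N]

theorem IsUniserial.submodule (h : IsUniserial R M) (X : Submodule R M) : IsUniserial R X :=
  h.of_injective X.subtype X.injective_subtype

theorem IsUniserial.quotient (h : IsUniserial R M) (X : Submodule R M) :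
    IsUniserial R (M ⧸ X) :=
  h.of_surjective X.mkQ X.mkQ_surjective

theorem IsUniserial.isUniform [Nontrivial M] (h : IsUniserial R M) : IsUniform R M := by
  refine ⟨inferInstance, fun A B hAB => ?_⟩
  rcases h A B with h1 | h1
  · left; rwa [inf_eq_left.2 h1] at hAB
  · right; rwa [inf_eq_right.2 h1] at hAB

/-- A module killed by the Jacobson radical is semisimple when `R/J` is semisimple. -/
theorem semisimple_of_killed (hs : IsSemisimpleRing (R ⧸ Ring.jacobson R))
    (h : ∀ r ∈ Ring.jacobson R, ∀ m : M, r • m = 0) : IsSemisimpleModule R M := by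
  have hM : Module.IsTorsionBySet R M (Ring.jacobson R : Set R) := by
    intro m r
    exact h r.1 r.2 m
  let _ := hM.module
  exact hM.isSemisimpleModule_iff.1 inferInstance

theorem IsUniserial.isSimple_of_semisimple [Nontrivial M] (h : IsUniserial R M)
    (hs : IsSemisimpleModule R M) : IsSimpleModule R M := by
  refine (isSimpleModule_iff R M).2 { eq_bot_or_eq_top := fun A => ?_ }
  obtain ⟨B, hB⟩ := exists_isCompl A
  rcases h A B with h1 | h1
  · left
    have := hB.inf_eq_bot
    rwa [inf_eq_left.2 h1] at this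
  · right
    have := hB.sup_eq_top
    rwa [sup_eq_left.2 h1] at this

/-- In a uniserial module the unique maximal submodule of a finitely generated nonzero
submodule `X` is `J X`. -/
theorem IsUniserial.le_of_lt (hs : IsSemisimpleRing (R ⧸ Ring.jacobson R))
    (h : IsUniserial R M) {X Z : Submodule R M} (hX : X.FG) (hZ : Z < X) :
    Z ≤ Ring.jacobson R • X := by
  rcases h Z (Ring.jacobson R • X) with h1 | h1
  · exact h1
  -- the quotient `X / J X` is simple
  let JX : Submodule R X := (Ring.jacobson R • X).comap X.subtype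
  have hX0 : X ≠ ⊥ := fun h0 => by
    rw [h0] at hZ; exact not_lt_bot hZ
  have hJX : Ring.jacobson R • X < X := Submodule.FG.jacobson_smul_lt hX0 hX
  have hne : JX ≠ ⊤ := by
    intro htop
    apply hJX.not_ge
    intro x hx
    have : (⟨x, hx⟩ : X) ∈ JX := by rw [htop]; trivial
    exact this
  have : Nontrivial (X ⧸ JX) := Submodule.Quotient.nontrivial_iff.2 hne
  have huni : IsUniserial R (X ⧸ JX) := (h.submodule X).quotient JX
  have hss : IsSemisimpleModule R (X ⧸ JX) := by
    apply semisimple_of_killed hs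
    intro r hr m
    obtain ⟨x, rfl⟩ := JX.mkQ_surjective m
    rw [← map_smul, Submodule.mkQ_apply, Submodule.Quotient.mk_eq_zero]
    exact Submodule.smul_mem_smul hr x.2
  have hsimple : IsSimpleModule R (X ⧸ JX) := huni.isSimple_of_semisimple hss
  let Z' : Submodule R (X ⧸ JX) := (Z.comap X.subtype).map JX.mkQ
  rcases eq_bot_or_eq_top Z' with h2 | h2
  · intro z hz
    have hzX : z ∈ X := hZ.le hz
    have : JX.mkQ ⟨z, hzX⟩ ∈ Z' := Submodule.mem_map_of_mem (by exact hz)
    rw [h2, Submodule.mem_bot, Submodule.mkQ_apply, Submodule.Quotient.mk_eq_zero] at this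
    exact this
  · exfalso
    apply hZ.not_ge
    intro x hx
    have : JX.mkQ ⟨x, hx⟩ ∈ Z' := by rw [h2]; trivial
    obtain ⟨z, hz, hzx⟩ := this
    rw [Submodule.mkQ_apply, Submodule.mkQ_apply, Submodule.Quotient.eq] at hzx
    have h3 : (z : M) - x ∈ Ring.jacobson R • X := hzx
    have h4 : (z : M) ∈ Z := hz
    have h5 := Z.sub_mem h4 (h1 h3)
    simpa using h5

end Basic

/-- `jp k X = J^k X`. -/
def jp {R : Type u} [Ring R] {M : Type v} [AddCommGroup M] [Module R M] (k : ℕ)
    (X : Submodule R M) : Submodule R M :=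
  (fun Y : Submodule R M => Ring.jacobson R • Y)^[k] X

section Jp

variable {R : Type u} [Ring R] {M : Type v} [AddCommGroup M] [Module R M]
  {N : Type w} [AddCommGroup N] [Module R N]

@[simp] theorem jp_zero (X : Submodule R M) : jp 0 X = X := rfl

theorem jp_succ (k : ℕ) (X : Submodule R M) : jp (k + 1) X = Ring.jacobson R • jp k X := by
  unfold jp
  rw [Function.iterate_succ_apply']

theorem jp_succ' (k : ℕ) (X : Submodule R M) : jp (k + 1) X = jp k (Ring.jacobson R • X) := by
  unfold jp
  rw [Function.iterate_succ_apply]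

theorem jp_one (X : Submodule R M) : jp 1 X = Ring.jacobson R • X := rfl

theorem jp_add (k l : ℕ) (X : Submodule R M) : jp (k + l) X = jp k (jp l X) := by
  unfold jp
  rw [Function.iterate_add_apply]

theorem jp_mono (k : ℕ) {X Y : Submodule R M} (h : X ≤ Y) : jp k X ≤ jp k Y := by
  induction k with
  | zero => exact h
  | succ k ih =>
    rw [jp_succ, jp_succ]
    exact smul_mono_right _ ih

theorem jsmul_le (X : Submodule R M) : Ring.jacobson R • X ≤ X :=
  Submodule.smul_le.2 fun r _ _ hx => X.smul_mem r hx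

theorem jp_succ_le (k : ℕ) (X : Submodule R M) : jp (k + 1) X ≤ jp k X := by
  rw [jp_succ]; exact jsmul_le _

theorem jp_le (k : ℕ) (X : Submodule R M) : jp k X ≤ X := by
  induction k with
  | zero => exact le_rfl
  | succ k ih => exact (jp_succ_le k X).trans ih

theorem jp_anti {k l : ℕ} (h : k ≤ l) (X : Submodule R M) : jp l X ≤ jp k X := by
  obtain ⟨m, rfl⟩ := Nat.exists_eq_add_of_le h
  rw [add_comm, jp_add]
  exact jp_le _ _

@[simp] theorem jp_bot (k : ℕ) : jp k (⊥ : Submodule R M) = ⊥ :=
  le_bot_iff.1 (jp_le k ⊥)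

theorem map_jp (f : M →ₗ[R] N) (k : ℕ) (X : Submodule R M) :
    (jp k X).map f = jp k (X.map f) := by
  induction k with
  | zero => rfl
  | succ k ih =>
    rw [jp_succ, jp_succ, ← ih, Submodule.map_smul'']

end Jp

section Chain

variable {R : Type u} [Ring R] {M : Type v} [AddCommGroup M] [Module R M]
  {N : Type w} [AddCommGroup N] [Module R N]

theorem fg_of_le [IsNoetherianRing R] {X Y : Submodule R M} (hX : X.FG) (h : Y ≤ X) :
    Y.FG := by
  have h1 : IsNoetherian R X := isNoetherian_of_fg_of_noetherian X hX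
  exact (isNoetherian_submodule.1 h1) Y h

theorem jp_fg [IsNoetherianRing R] {X : Submodule R M} (hX : X.FG) (k : ℕ) : (jp k X).FG :=
  fg_of_le hX (jp_le k X)

theorem jp_succ_lt [IsNoetherianRing R] {X : Submodule R M} (hX : X.FG) {k : ℕ}
    (h : jp k X ≠ ⊥) : jp (k + 1) X < jp k X := by
  rw [jp_succ]
  exact Submodule.FG.jacobson_smul_lt h (jp_fg hX k)

theorem jp_le_of_lt (hs : IsSemisimpleRing (R ⧸ Ring.jacobson R)) (h : IsUniserial R M)
    {A B : Submodule R M} (hB : B.FG) (hAB : A < B) (k : ℕ) : jp k A ≤ jp (k + 1) B := by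
  rw [jp_succ']
  exact jp_mono k (h.le_of_lt hs hB hAB)

theorem le_of_jp_le [IsNoetherianRing R] (hs : IsSemisimpleRing (R ⧸ Ring.jacobson R))
    (h : IsUniserial R M) {A B : Submodule R M} (hA : A.FG) {k : ℕ} (hk : jp k A ≠ ⊥)
    (hAB : jp k A ≤ jp k B) : A ≤ B := by
  by_contra hn
  have h1 : B < A := lt_of_le_of_ne ((h A B).resolve_left hn) (fun h2 => hn h2.symm.le)
  have h2 := jp_le_of_lt hs h hA h1 k
  exact (jp_succ_lt hA hk).not_ge (hAB.trans h2)

theorem le_of_length (hs : IsSemisimpleRing (R ⧸ Ring.jacobson R))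
    (h : IsUniserial R M) {A B : Submodule R M} (hA : A.FG) {k : ℕ}
    (hk : jp (k + 1) A = ⊥) (hk' : jp k B ≠ ⊥) : A ≤ B := by
  by_contra hn
  have h1 : B < A := lt_of_le_of_ne ((h A B).resolve_left hn) (fun h2 => hn h2.symm.le)
  have h2 := jp_le_of_lt hs h hA h1 k
  rw [hk, le_bot_iff] at h2
  exact hk' h2

theorem eq_of_length (hs : IsSemisimpleRing (R ⧸ Ring.jacobson R))
    (h : IsUniserial R M) {A B : Submodule R M} (hA : A.FG) (hB : B.FG) {k : ℕ}
    (h1 : jp (k + 1) A = ⊥) (h2 : jp k A ≠ ⊥) (h3 : jp (k + 1) B = ⊥) (h4 : jp k B ≠ ⊥) :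
    A = B :=
  le_antisymm (le_of_length hs h hA h1 h4) (le_of_length hs h hB h3 h2)

/-- A submodule of a finitely generated uniserial module is some `J^k X` or lies in all of
them. -/
theorem eq_jp_or_le [IsNoetherianRing R] (hs : IsSemisimpleRing (R ⧸ Ring.jacobson R))
    (h : IsUniserial R M) {X Z : Submodule R M} (hX : X.FG) (hZ : Z ≤ X) :
    (∃ k, Z = jp k X) ∨ ∀ k, Z ≤ jp k X := by
  by_cases hall : ∀ k, Z ≤ jp k X
  · exact Or.inr hall
  · left
    push Not at hall
    classical
    let k := Nat.find hall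
    have hk : ¬ Z ≤ jp k X := Nat.find_spec hall
    have hk0 : k ≠ 0 := by
      intro h0
      rw [h0] at hk
      exact hk hZ
    obtain ⟨m, hm⟩ := Nat.exists_eq_succ_of_ne_zero hk0
    have hm' : Z ≤ jp m X := by
      by_contra hn
      have := Nat.find_min' hall hn
      omega
    refine ⟨m, ?_⟩
    by_contra hne
    have hlt : Z < jp m X := lt_of_le_of_ne hm' hne
    have := h.le_of_lt hs (jp_fg hX m) hlt
    rw [← jp_succ] at this
    apply hk
    rw [hm]
    exact this

/-- The module has no simple submodule. -/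
def SocFree (R : Type u) [Ring R] (M : Type v) [AddCommGroup M] [Module R M] : Prop :=
  ∀ S : Submodule R M, ¬ IsAtom S

theorem SocFree.of_injective (h : SocFree R M) (f : N →ₗ[R] M) (hf : Function.Injective f) :
    SocFree R N := by
  intro S hS
  apply h (S.map f)
  refine ⟨?_, ?_⟩
  · intro h0
    apply hS.1
    apply Submodule.map_injective_of_injective hf
    rw [h0, Submodule.map_bot]
  · intro Z hZ
    have h1 : Z.comap f < S := by
      refine lt_of_le_of_ne ?_ ?_
      · intro x hx
        obtain ⟨y, hy, hyx⟩ := hZ.le hx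
        rw [← hf hyx]; exact hy
      · intro h2
        apply hZ.not_ge
        rw [← h2]
        exact Submodule.map_comap_le f Z
    have h2 := hS.2 _ h1
    rw [eq_bot_iff]
    intro z hz
    obtain ⟨y, hy, hyz⟩ := hZ.le hz
    have : y ∈ Z.comap f := by
      rw [Submodule.mem_comap, hyz]; exact hz
    rw [h2, Submodule.mem_bot] at this
    rw [← hyz, this, map_zero]
    exact zero_mem _

theorem jp_ne_bot_of_socFree [IsNoetherianRing R]
    (hs : IsSemisimpleRing (R ⧸ Ring.jacobson R))
    (h : IsUniserial R M) (hsf : SocFree R M) {X : Submodule R M} (hX : X.FG) (h0 : X ≠ ⊥) :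
    ∀ k, jp k X ≠ ⊥ := by
  intro k
  induction k with
  | zero => exact h0
  | succ k ih =>
    intro hk
    apply hsf (jp k X)
    refine ⟨ih, fun Z hZ => ?_⟩
    have := h.le_of_lt hs (jp_fg hX k) hZ
    rw [← jp_succ, hk, le_bot_iff] at this
    exact this

/-- Extension of a map defined on a cyclic submodule to an injective module. -/
theorem exists_map_of_baer {E : Type w} [AddCommGroup E] [Module R E] (hE : Module.Baer R E)
    (x : M) (e : E) (h : ∀ r : R, r • x = 0 → r • e = 0) :
    ∃ φ : M →ₗ[R] E, φ x = e := by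
  let f : R →ₗ[R] M := LinearMap.toSpanSingleton R M x
  let g : R →ₗ[R] E := LinearMap.toSpanSingleton R E e
  have hk : LinearMap.ker f ≤ LinearMap.ker g := by
    intro r hr
    exact h r hr
  let f' : (R ⧸ LinearMap.ker f) →ₗ[R] M := (LinearMap.ker f).liftQ f le_rfl
  let g' : (R ⧸ LinearMap.ker f) →ₗ[R] E := (LinearMap.ker f).liftQ g hk
  have hf' : Function.Injective f' := by
    rw [← LinearMap.ker_eq_bot]
    exact Submodule.ker_liftQ_eq_bot _ _ _ le_rfl
  obtain ⟨φ, hφ⟩ := hE.extension_property f' hf' g'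
  refine ⟨φ, ?_⟩
  have h1 : f' ((LinearMap.ker f).mkQ 1) = x := by
    change f 1 = x
    simp [f]
  have h2 : g' ((LinearMap.ker f).mkQ 1) = e := by
    change g 1 = e
    simp [g]
  rw [← h1, ← h2, ← hφ]
  rfl

/-- A map out of a uniserial module which does not kill a socle element is injective. -/
theorem injective_of_socle (hs : IsSemisimpleRing (R ⧸ Ring.jacobson R))
    (h : IsUniserial R M) (x : M) (hx : ∀ r ∈ Ring.jacobson R, r • x = 0)
    (φ : M →ₗ[R] N) (hφ : φ x ≠ 0) : Function.Injective φ := by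
  rw [← LinearMap.ker_eq_bot]
  by_contra hne
  have h1 : ¬ (Submodule.span R {x} ≤ LinearMap.ker φ) := by
    intro h2
    exact hφ (h2 (Submodule.mem_span_singleton_self x))
  have h2 : LinearMap.ker φ < Submodule.span R {x} :=
    lt_of_le_of_ne ((h _ _).resolve_left h1) (fun h3 => h1 h3.symm.le)
  have h3 := h.le_of_lt hs (Submodule.fg_span_singleton x) h2
  apply hne
  rw [eq_bot_iff]
  refine h3.trans ?_
  rw [Submodule.smul_le]
  intro r hr n hn
  obtain ⟨s, rfl⟩ := Submodule.mem_span_singleton.1 hn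
  rw [smul_smul, hx _ (Ideal.mul_mem_right s _ hr)]
  exact zero_mem _

end Chain

/-- Elementwise form of an isomorphism of tops. -/
structure TopEq {R : Type u} [Ring R] {M : Type v} [AddCommGroup M] [Module R M]
    {N : Type w} [AddCommGroup N] [Module R N] (X : Submodule R M) (x : M)
    (Y : Submodule R N) (y : N) : Prop where
  memX : x ∈ X
  notMemX : x ∉ Ring.jacobson R • X
  memY : y ∈ Y
  notMemY : y ∉ Ring.jacobson R • Y
  iff : ∀ r : R, r • x ∈ Ring.jacobson R • X ↔ r • y ∈ Ring.jacobson R • Y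

end Pool.Agent.Uni
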