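import Pool.Agent.Uni.Nec9

/-!
Necessity: the largest artinian left ideal and its idempotent.
-/

namespace Pool.Agent.Uni

universe u v w

open Submodule

theorem good_of (R : Type u) [Ring R] (h1 : IsNoetherianRing R) (h2 : PropU R) : Good R :=
  ⟨h1, h2, isSemisimpleRing_quot_jacobson h1 h2, fun M _ _ hM => by
    obtain ⟨E, iE, mE, f, h3, h4, h5⟩ := exists_hull R M hM
    exact ⟨E, iE, mE, h3, h4, f, h5⟩⟩

section Transfer

variable {R : Type u} [Ring R] {R₂ : Type v} [Ring R₂] {τ : R →+* R₂} [RingHomSurjective τ]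
  {M : Type w} [AddCommGroup M] [Module R M] {M₂ : Type*} [AddCommGroup M₂] [Module R₂ M₂]

theorem isUniserial_iff_of_bijective (f : M →ₛₗ[τ] M₂) (hf : Function.Bijective f) :
    IsUniserial R M ↔ IsUniserial R₂ M₂ := by
  let e := Submodule.orderIsoMapComapOfBijective f hf
  constructor
  · intro h A B
    rcases h (e.symm A) (e.symm B) with h1 | h1
    · left; exact e.symm.le_iff_le.1 h1
    · right; exact e.symm.le_iff_le.1 h1
  · intro h A B
    rcases h (e A) (e B) with h1 | h1
    · left; exact e.le_iff_le.1 h1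
    · right; exact e.le_iff_le.1 h1

theorem isUniform_iff_of_bijective (f : M →ₛₗ[τ] M₂) (hf : Function.Bijective f) :
    IsUniform R M ↔ IsUniform R₂ M₂ := by
  let e := Submodule.orderIsoMapComapOfBijective f hf
  have hnt : Nontrivial M ↔ Nontrivial M₂ := (Equiv.ofBijective f hf).nontrivial_congr
  constructor
  · rintro ⟨h0, h⟩
    refine ⟨hnt.1 h0, fun A B hAB => ?_⟩
    have h1 : e.symm A ⊓ e.symm B = ⊥ := by
      rw [← OrderIso.map_inf, hAB, OrderIso.map_bot]
    rcases h _ _ h1 with h2 | h2
    · left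
      have := congrArg e h2
      simpa using this
    · right
      have := congrArg e h2
      simpa using this
  · rintro ⟨h0, h⟩
    refine ⟨hnt.2 h0, fun A B hAB => ?_⟩
    have h1 : e A ⊓ e B = ⊥ := by
      rw [← OrderIso.map_inf, hAB, OrderIso.map_bot]
    rcases h _ _ h1 with h2 | h2
    · left
      have := congrArg e.symm h2
      simpa using this
    · right
      have := congrArg e.symm h2
      simpa using this

end Transfer

section QuotientRing

variable {R : Type u} [Ring R] (F : Ideal R) [F.IsTwoSided]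

theorem propU_quotient (h : PropU R) : PropU (R ⧸ F) := by
  intro M _ _ hM
  let _ : Module R M := Module.compHom M (Ideal.Quotient.mk F)
  let f : M →ₛₗ[Ideal.Quotient.mk F] M :=
    { toFun := id
      map_add' := fun _ _ => rfl
      map_smul' := fun _ _ => rfl }
  have hf : Function.Bijective f := Function.bijective_id
  have h1 : IsUniform R M := (isUniform_iff_of_bijective f hf).2 hM
  exact (isUniserial_iff_of_bijective f hf).1 (h M h1)

theorem isNoetherianRing_quotient (h : IsNoetherianRing R) : IsNoetherianRing (R ⧸ F) :=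
  isNoetherianRing_of_surjective R (R ⧸ F) (Ideal.Quotient.mk F) Ideal.Quotient.mk_surjective

theorem good_quotient (hR : Good R) : Good (R ⧸ F) :=
  good_of _ (isNoetherianRing_quotient F hR.noeth) (propU_quotient F hR.uni)

end QuotientRing

section ArtinianRadical

variable {R : Type u} [Ring R]

/-- There is a largest artinian left ideal, and it is two-sided. -/
theorem exists_artinian_radical (hR : IsNoetherianRing R) :
    ∃ (F : Ideal R) (_ : F.IsTwoSided), IsArtinian R F ∧
      ∀ L : Ideal R, IsArtinian R L → L ≤ F := by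
  obtain ⟨F, hF, hmax⟩ := set_has_maximal_iff_noetherian.2 hR {L : Submodule R R | IsArtinian R L}
    ⟨⊥, by
      change IsArtinian R (⊥ : Submodule R R)
      infer_instance⟩
  have hF' : IsArtinian R F := hF
  have hle : ∀ L : Submodule R R, IsArtinian R L → L ≤ F := by
    intro L hL
    have h1 : IsArtinian R ↥(F ⊔ L) := by
      rw [← Submodule.range_subtype F, ← Submodule.range_subtype L, ← LinearMap.range_coprod]
      infer_instance
    by_contra hn
    apply hmax (F ⊔ L) h1
    refine lt_of_le_of_ne le_sup_left (fun h => hn ?_)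
    rw [h]; exact le_sup_right
  refine ⟨F, ⟨fun {a} b ha => ?_⟩, hF', hle⟩
  have h2 : IsArtinian R (F.map (LinearMap.toSpanSingleton R R b)) := by
    have : F.map (LinearMap.toSpanSingleton R R b) =
        LinearMap.range ((LinearMap.toSpanSingleton R R b) ∘ₗ F.subtype) := by
      rw [LinearMap.range_comp, Submodule.range_subtype]
    rw [this]
    infer_instance
  have h3 := hle _ h2
  have h4 : a * b ∈ F.map (LinearMap.toSpanSingleton R R b) := ⟨a, ha, by simp⟩
  exact h3 h4

/-- The quotient by the largest artinian left ideal has no simple left ideal. -/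
theorem socFree_quotient (F : Ideal R) [F.IsTwoSided] (hart : IsArtinian R F)
    (hmax : ∀ L : Ideal R, IsArtinian R L → L ≤ F) : SocFree (R ⧸ F) (R ⧸ F) := by
  intro S hS
  let f : R →ₛₗ[Ideal.Quotient.mk F] (R ⧸ F) :=
    { toFun := Ideal.Quotient.mk F
      map_add' := fun _ _ => map_add _ _ _
      map_smul' := fun _ _ => map_mul _ _ _ }
  let L : Submodule R R := S.comap f
  have hFL : F ≤ L := by
    intro x hx
    have : f x = 0 := Ideal.Quotient.eq_zero_iff_mem.2 hx
    change f x ∈ S
    rw [this]; exact zero_mem _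
  have hLart : IsArtinian R L := by
    let F' : Submodule R L := Submodule.comap L.subtype F
    rw [isArtinian_iff_submodule_quotient F']
    constructor
    · have e : F' ≃ₗ[R] F := Submodule.comapSubtypeEquivOfLe hFL
      exact isArtinian_of_linearEquiv e.symm
    · -- the quotient is simple
      have hsimple : IsSimpleModule (R ⧸ F) S := isSimpleModule_iff_isAtom.2 hS
      let g0 : L →ₛₗ[Ideal.Quotient.mk F] S :=
        { toFun := fun x => ⟨f x.1, x.2⟩
          map_add' := fun x y => Subtype.ext (map_add f _ _)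
          map_smul' := fun r x => Subtype.ext (map_smulₛₗ f _ _) }
      have hk : F' ≤ LinearMap.ker g0 := by
        intro x hx
        rw [LinearMap.mem_ker]
        apply Subtype.ext
        exact Ideal.Quotient.eq_zero_iff_mem.2 hx
      let g : (L ⧸ F') →ₛₗ[Ideal.Quotient.mk F] S := F'.liftQ g0 hk
      have hg : Function.Bijective g := by
        constructor
        · rw [← LinearMap.ker_eq_bot]
          apply Submodule.ker_liftQ_eq_bot
          intro x hx
          rw [LinearMap.mem_ker] at hx
          have h1 : f x.1 = 0 := congrArg Subtype.val hx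
          exact Ideal.Quotient.eq_zero_iff_mem.1 h1
        · rintro ⟨s, hs⟩
          obtain ⟨x, rfl⟩ := Ideal.Quotient.mk_surjective s
          exact ⟨F'.mkQ ⟨x, hs⟩, rfl⟩
      have h2 : IsSimpleModule R (L ⧸ F') :=
        (LinearMap.isSimpleModule_iff_of_bijective g hg).2 hsimple
      infer_instance
  have hLF := hmax L hLart
  apply hS.1
  rw [eq_bot_iff]
  intro s hs
  obtain ⟨x, rfl⟩ := Ideal.Quotient.mk_surjective s
  have : x ∈ F := hLF hs
  rw [Ideal.Quotient.eq_zero_iff_mem.2 this]
  exact zero_mem _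

end ArtinianRadical

section Hull

variable {R : Type u} [Ring R]

theorem ideal_kills_hull (hR : Good R) (F : Ideal R) [F.IsTwoSided]
    (hsf : SocFree (R ⧸ F) (R ⧸ F)) {E : Type u} [AddCommGroup E] [Module R E]
    (huE : IsUniform R E) (hbE : Module.Baer R E) {e : E} (he : e ≠ 0)
    (hJe : ∀ r ∈ Ring.jacobson R, r • e = 0) (hFe : ∀ r ∈ F, r • e = 0) :
    ∀ r ∈ F, ∀ x : E, r • x = 0 := by
  have hEu : IsUniserial R E := hR.uni E huE
  let A : Submodule R E :=
    { carrier := {x | ∀ r ∈ F, r • x = 0}
      add_mem' := by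
        intro a b ha hb r hr
        rw [smul_add, ha r hr, hb r hr, add_zero]
      zero_mem' := by intro r _; rw [smul_zero]
      smul_mem' := by
        intro c x hx r hr
        rw [smul_smul]
        exact hx _ (F.mul_mem_right c hr) }
  by_cases hAt : A = ⊤
  · intro r hr x
    have : x ∈ A := by rw [hAt]; trivial
    exact this r hr
  exfalso
  have hAfg : A.FG := fg_of_ne_top hR hEu hAt
  have heA : e ∈ A := hFe
  have hnt : Nontrivial A := ⟨⟨⟨e, heA⟩, 0, fun h => he (congrArg Subtype.val h)⟩⟩
  have hA : Module.IsTorsionBySet R A (F : Set R) := by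
    rintro ⟨x, hx⟩ ⟨r, hr⟩
    apply Subtype.ext
    exact hx r hr
  let _ : Module (R ⧸ F) A := hA.module
  have hmk : ∀ (r : R) (x : A), (Ideal.Quotient.mk F r) • x = r • x := fun r x => rfl
  let σ : A →ₛₗ[Ideal.Quotient.mk F] A :=
    { toFun := id
      map_add' := fun _ _ => rfl
      map_smul' := fun _ _ => rfl }
  have hσ : Function.Bijective σ := Function.bijective_id
  have huA : IsUniform (R ⧸ F) A :=
    (isUniform_iff_of_bijective σ hσ).1 ((hEu.submodule A).isUniform)
  have hbA : Module.Baer (R ⧸ F) A := by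
    intro I g
    let q : R →ₛₗ[Ideal.Quotient.mk F] (R ⧸ F) :=
      { toFun := Ideal.Quotient.mk F
        map_add' := fun _ _ => map_add _ _ _
        map_smul' := fun _ _ => map_mul _ _ _ }
    let I' : Submodule R R := Submodule.comap q I
    let g' : I' →ₗ[R] E :=
      { toFun := fun x => (g ⟨q x.1, x.2⟩ : A)
        map_add' := by
          intro x y
          have h1 : (⟨q (x + y).1, (x + y).2⟩ : I) = ⟨q x.1, x.2⟩ + ⟨q y.1, y.2⟩ :=
            Subtype.ext (map_add q _ _)
          rw [h1, map_add]; rfl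
        map_smul' := by
          intro r x
          have h1 : (⟨q (r • x).1, (r • x).2⟩ : I) = (Ideal.Quotient.mk F r) • ⟨q x.1, x.2⟩ :=
            Subtype.ext (map_smulₛₗ q _ _)
          rw [h1, map_smul, hmk]; rfl }
    obtain ⟨h, hh⟩ := hbE I' g'
    have hF0 : ∀ r ∈ F, r • h 1 = 0 := by
      intro r hr
      have h0 : q r = 0 := Ideal.Quotient.eq_zero_iff_mem.2 hr
      have h1 : r ∈ I' := by
        change q r ∈ I
        rw [h0]; exact zero_mem _
      have h2 := hh r h1
      have h3 : r • h 1 = h r := by rw [← map_smul]; simp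
      rw [h3, h2]
      change ((g ⟨q r, h1⟩ : A) : E) = 0
      have h4 : (⟨q r, h1⟩ : I) = 0 := Subtype.ext h0
      rw [h4, map_zero]; rfl
    refine ⟨LinearMap.toSpanSingleton (R ⧸ F) A ⟨h 1, hF0⟩, ?_⟩
    intro b hb
    obtain ⟨r, rfl⟩ := Ideal.Quotient.mk_surjective b
    have h2 := hh r hb
    apply Subtype.ext
    change r • h 1 = ((g ⟨q r, hb⟩ : A) : E)
    have h3 : r • h 1 = h r := by rw [← map_smul]; simp
    rw [h3, h2]; rfl
  have hkA : ∀ b ∈ Ring.jacobson (R ⧸ F), b • (⟨e, heA⟩ : A) = 0 := by
    let S : Submodule (R ⧸ F) A := Submodule.span (R ⧸ F) {⟨e, heA⟩}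
    have hS : IsSemisimpleModule (R ⧸ F) S := by
      let _ : Module R S := Module.compHom S (Ideal.Quotient.mk F)
      let τ : S →ₛₗ[Ideal.Quotient.mk F] S :=
        { toFun := id
          map_add' := fun _ _ => rfl
          map_smul' := fun _ _ => rfl }
      have hτ : Function.Bijective τ := Function.bijective_id
      have h1 : IsSemisimpleModule R S := by
        apply semisimple_of_killed hR.ss
        rintro r hr ⟨x, hx⟩
        obtain ⟨b, rfl⟩ := Submodule.mem_span_singleton.1 hx
        obtain ⟨t, rfl⟩ := Ideal.Quotient.mk_surjective b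
        apply Subtype.ext
        change (Ideal.Quotient.mk F r) • (Ideal.Quotient.mk F t) • (⟨e, heA⟩ : A) = 0
        rw [smul_smul, ← map_mul, hmk]
        apply Subtype.ext
        exact hJe _ (Ideal.mul_mem_right t _ hr)
      exact (LinearMap.isSemisimpleModule_iff_of_bijective τ hτ).1 h1
    intro b hb
    have h2 := IsSemisimpleModule.jacobson_le_annihilator (R ⧸ F) S hb
    have h3 := Module.mem_annihilator.1 h2 ⟨⟨e, heA⟩, Submodule.mem_span_singleton_self _⟩
    exact congrArg Subtype.val h3
  have hfin : Module.Finite R A := Module.Finite.iff_fg.2 hAfg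
  have hfin2 : Module.Finite (R ⧸ F) A := (σ.finite_iff_of_bijective hσ).1 hfin
  exact not_fg_of_socle (good_quotient F hR) hsf huA hbA
    (e := ⟨e, heA⟩) (fun h => he (congrArg Subtype.val h)) hkA hfin2.fg_top

theorem simple_killed {S : Type v} [AddCommGroup S] [Module R S] (hS : IsSimpleModule R S) :
    ∀ r ∈ Ring.jacobson R, ∀ x : S, r • x = 0 := by
  intro r hr x
  exact Module.mem_annihilator.1 (IsSemisimpleModule.jacobson_le_annihilator R S hr) x

theorem isUniform_of_simple {S : Type v} [AddCommGroup S] [Module R S]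
    (hS : IsSimpleModule R S) : IsUniform R S := by
  have hnt : Nontrivial S := IsSimpleModule.nontrivial R S
  refine ⟨hnt, fun A B hAB => ?_⟩
  rcases eq_bot_or_eq_top A with h | h
  · exact Or.inl h
  · right; rwa [h, top_inf_eq] at hAB

theorem exists_local_identity (hR : Good R) (F : Ideal R) [F.IsTwoSided]
    (hsf : SocFree (R ⧸ F) (R ⧸ F)) {n : ℕ} (y : Fin n → R) (hy : ∀ i, y i ∈ F) :
    ∃ e ∈ F, ∀ i, e * y i = y i := by
  classical
  let L : Submodule R R := LinearMap.ker (LinearMap.toSpanSingleton R (Fin n → R) y)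
  have hL : ∀ r, r ∈ L ↔ ∀ i, r * y i = 0 := by
    intro r
    change r • y = 0 ↔ _
    constructor
    · intro h i
      exact congrFun h i
    · intro h
      funext i
      exact h i
  by_cases htop : (F : Submodule R R) ⊔ L = ⊤
  · have h1 : (1 : R) ∈ (F : Submodule R R) ⊔ L := by rw [htop]; trivial
    obtain ⟨e, he, c, hc, hec⟩ := Submodule.mem_sup.1 h1
    refine ⟨e, he, fun i => ?_⟩
    have h2 := (hL c).1 hc i
    have h3 : (e + c) * y i = y i := by rw [hec, one_mul]
    rw [add_mul, h2, add_zero] at h3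
    exact h3
  · exfalso
    obtain ⟨m, hm, hle⟩ := (eq_top_or_exists_le_coatom ((F : Submodule R R) ⊔ L)).resolve_left htop
    have hS : IsSimpleModule R (R ⧸ m) := isSimpleModule_iff_isCoatom.2 hm
    obtain ⟨E, iE, mE, huE, hbE, ι, hι⟩ := hR.hulls (R ⧸ m) (isUniform_of_simple hS)
    have hs0 : m.mkQ 1 ≠ 0 := by
      rw [Submodule.mkQ_apply, Ne, Submodule.Quotient.mk_eq_zero]
      intro h
      apply hm.1
      rw [eq_top_iff]
      intro x _
      have := m.smul_mem x h
      simpa using this
    have hι0 : ι (m.mkQ 1) ≠ 0 := by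
      intro h; apply hs0; apply hι; rw [h, map_zero]
    have hkill := ideal_kills_hull hR F hsf huE hbE hι0
      (by intro r hr; rw [← map_smul, simple_killed hS r hr, map_zero])
      (by
        intro r hr
        rw [← map_smul, ← map_smul]
        have : m.mkQ (r • (1 : R)) = 0 := by
          rw [Submodule.mkQ_apply, Submodule.Quotient.mk_eq_zero]
          have h4 : r • (1 : R) = r := by simp
          rw [h4]
          exact hle (Submodule.mem_sup_left hr)
        rw [this, map_zero])
    obtain ⟨φ, hφ⟩ := exists_map_of_baer hbE y (ι (m.mkQ 1)) (by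
      intro r hr
      have h5 : r ∈ L := hr
      rw [← map_smul, ← map_smul]
      have : m.mkQ (r • (1 : R)) = 0 := by
        rw [Submodule.mkQ_apply, Submodule.Quotient.mk_eq_zero]
        have h4 : r • (1 : R) = r := by simp
        rw [h4]
        exact hle (Submodule.mem_sup_right h5)
      rw [this, map_zero])
    apply hι0
    rw [← hφ]
    have h6 : y = ∑ i, y i • (Pi.single i (1 : R) : Fin n → R) := by
      funext j
      simp [Finset.sum_apply, Pi.single_apply]
    rw [h6, map_sum]
    apply Finset.sum_eq_zero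
    intro i _
    rw [map_smul]
    exact hkill _ (hy i) _

theorem exists_left_identity (hR : Good R) (F : Ideal R) [F.IsTwoSided] (hart : IsArtinian R F)
    (hsf : SocFree (R ⧸ F) (R ⧸ F)) : ∃ e ∈ F, ∀ y ∈ F, e * y = y := by
  classical
  have := hR.noeth
  -- `J^l F = 0`
  obtain ⟨l, hl⟩ : ∃ l, jp l (F : Submodule R R) = ⊥ := by
    let G : ℕ →o (Submodule R F)ᵒᵈ :=
      ⟨fun k => OrderDual.toDual (jp k (⊤ : Submodule R F)), fun a b hab => jp_anti hab _⟩
    obtain ⟨n, hn⟩ := IsArtinian.monotone_stabilizes G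
    have h1 : jp n (⊤ : Submodule R F) = jp (n + 1) (⊤ : Submodule R F) := hn (n + 1) (Nat.le_succ n)
    refine ⟨n, ?_⟩
    have h2 : jp n (⊤ : Submodule R F) = ⊥ := by
      apply Submodule.FG.eq_bot_of_le_jacobson_smul (IsNoetherian.noetherian _)
      rw [← jp_succ]
      exact h1.le
    have h3 := congrArg (Submodule.map (Submodule.subtype F)) h2
    rw [map_jp, Submodule.map_top, Submodule.range_subtype, Submodule.map_bot] at h3
    exact h3
  let N := R ⧸ (jp l (⊤ : Submodule R R))
  have hNt : jp l (⊤ : Submodule R N) = ⊥ := by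
    have h1 : (⊤ : Submodule R N) = (⊤ : Submodule R R).map (jp l (⊤ : Submodule R R)).mkQ := by
      rw [Submodule.map_top, Submodule.range_mkQ]
    rw [h1, ← map_jp, ← le_bot_iff, Submodule.map_le_iff_le_comap, Submodule.comap_bot,
      Submodule.ker_mkQ]
  have hartN : IsArtinian R N := isArtinian_of_jp hR l N hNt
  let an : Finset R → Submodule R R := fun Y =>
    { carrier := {r | ∀ y ∈ Y, r * y = 0}
      add_mem' := by
        intro a b ha hb y hy
        rw [add_mul, ha y hy, hb y hy, add_zero]
      zero_mem' := by intro y _; rw [zero_mul]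
      smul_mem' := by
        intro c x hx y hy
        rw [smul_eq_mul, mul_assoc, hx y hy, mul_zero] }
  have hjan : ∀ Y : Finset R, (∀ y ∈ Y, y ∈ F) → jp l (⊤ : Submodule R R) ≤ an Y := by
    intro Y hY r hr y hy
    have h1 := smul_mem_jp_span hr y
    have h2 : jp l (Submodule.span R {y}) ≤ jp l (F : Submodule R R) := by
      apply jp_mono
      rw [Submodule.span_singleton_le_iff_mem]
      exact hY y hy
    have h3 := h2 h1
    rw [hl, Submodule.mem_bot] at h3
    exact h3
  let 𝓢 : Set (Submodule R N) := {A | ∃ Y : Finset R, (∀ y ∈ Y, y ∈ F) ∧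
    A = (an Y).map (jp l (⊤ : Submodule R R)).mkQ}
  obtain ⟨A, ⟨Y, hY, rfl⟩, hmin⟩ := IsArtinian.set_has_minimal 𝓢
    ⟨_, ∅, by simp, rfl⟩
  have hann : ∀ r ∈ an Y, ∀ y ∈ F, r * y = 0 := by
    intro r hr y hy
    have hY' : ∀ x ∈ insert y Y, x ∈ F := by
      intro x hx
      rcases Finset.mem_insert.1 hx with h | h
      · rw [h]; exact hy
      · exact hY x h
    have hle : an (insert y Y) ≤ an Y := fun s hs x hx => hs x (Finset.mem_insert_of_mem hx)
    have h1 : (an (insert y Y)).map (jp l (⊤ : Submodule R R)).mkQ =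
        (an Y).map (jp l (⊤ : Submodule R R)).mkQ := by
      by_contra hne
      exact hmin _ ⟨_, hY', rfl⟩ (lt_of_le_of_ne (Submodule.map_mono hle) hne)
    have h2 : (jp l (⊤ : Submodule R R)).mkQ r ∈
        (an (insert y Y)).map (jp l (⊤ : Submodule R R)).mkQ := by
      rw [h1]; exact Submodule.mem_map_of_mem hr
    have h3 : LinearMap.ker (jp l (⊤ : Submodule R R)).mkQ ≤ an (insert y Y) := by
      rw [Submodule.ker_mkQ]; exact hjan _ hY'
    rw [mem_map_iff_of_ker_le h3] at h2
    exact h2 y (Finset.mem_insert_self y Y)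
  let eq := Y.equivFin
  obtain ⟨e, heF, he⟩ := exists_local_identity hR F hsf (fun i => (eq.symm i : R))
    (fun i => hY _ (eq.symm i).2)
  refine ⟨e, heF, fun y hy => ?_⟩
  have h1 : 1 - e ∈ an Y := by
    intro x hx
    have h2 := he (eq ⟨x, hx⟩)
    rw [Equiv.symm_apply_apply] at h2
    change (1 - e) * x = 0
    rw [sub_mul, one_mul, h2, sub_self]
  have h3 := hann _ h1 y hy
  rw [sub_mul, one_mul, sub_eq_zero] at h3
  exact h3.symm

theorem homUniserial (hR : Good R) (K : Ideal R) [K.IsTwoSided] (S : Type u) [AddCommGroup S]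
    [Module R S] (hS : IsSimpleModule R S) : HomUniserial R K S := by
  intro f g
  obtain ⟨E, iE, mE, huE, hbE, ι, hι⟩ := hR.hulls S (isUniform_of_simple hS)
  have hEu : IsUniserial R E := hR.uni E huE
  obtain ⟨f', hf'⟩ := hbE K (ι ∘ₗ f)
  obtain ⟨g', hg'⟩ := hbE K (ι ∘ₗ g)
  have hf1 : ∀ x : K, ι (f x) = (x : R) • f' 1 := by
    intro x
    have h1 := hf' x.1 x.2
    have h2 : (x : R) • f' 1 = f' x := by rw [← map_smul]; simp
    rw [h2, h1]; rfl
  have hg1 : ∀ x : K, ι (g x) = (x : R) • g' 1 := by
    intro x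
    have h1 := hg' x.1 x.2
    have h2 : (x : R) • g' 1 = g' x := by rw [← map_smul]; simp
    rw [h2, h1]; rfl
  rcases hEu (Submodule.span R {f' 1}) (Submodule.span R {g' 1}) with h | h
  · left
    obtain ⟨r, hr⟩ := Submodule.mem_span_singleton.1 (h (Submodule.mem_span_singleton_self _))
    refine ⟨r, fun x => ?_⟩
    apply hι
    rw [hf1, hg1, ← hr, smul_smul]
  · right
    obtain ⟨r, hr⟩ := Submodule.mem_span_singleton.1 (h (Submodule.mem_span_singleton_self _))
    refine ⟨r, fun x => ?_⟩
    apply hι
    rw [hf1, hg1, ← hr, smul_smul]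

end Hull

/-- Necessity: the structure of left noetherian rings whose uniform left modules are
uniserial; `F` is the largest artinian left ideal. -/
theorem exists_structAt {R : Type u} [Ring R] (h1 : IsNoetherianRing R) (h2 : PropU R) :
    ∃ (e : R) (F : Ideal R) (_ : F.IsTwoSided), StructAt R e F ∧
      ∀ L : Ideal R, IsArtinian R L → L ≤ F := by
  have hR := good_of R h1 h2
  obtain ⟨F, hF2, hart, hmax⟩ := exists_artinian_radical h1
  have hsf := socFree_quotient F hart hmax
  obtain ⟨e, heF, he⟩ := exists_left_identity hR F hart hsf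
  refine ⟨e, F, hF2, ⟨he e heF, fun x => ⟨fun hx => he x hx, fun hx => ?_⟩, hart,
    isSerialRing_of_socFree (good_quotient F hR) hsf, fun S _ _ hS => homUniserial hR _ S hS⟩,
    hmax⟩
  rw [← hx]
  exact F.mul_mem_right x heF

end Pool.Agent.Uni
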