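import Pool.Agent.Uni.Nec1

/-!
Hulls and determinism of the layers of uniserial modules.
-/

namespace Pool.Agent.Uni

universe u v w

open Submodule

/-- Every uniform module (in the universe of the ring) embeds in a uniform injective module. -/
def HasHulls (R : Type u) [Ring R] : Prop :=
  ∀ (M : Type u) [AddCommGroup M] [Module R M], IsUniform R M →
    ∃ (E : Type u) (_ : AddCommGroup E) (_ : Module R E),
      IsUniform R E ∧ Module.Baer R E ∧ ∃ f : M →ₗ[R] E, Function.Injective f

/-- The standing hypotheses. -/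
structure Good (R : Type u) [Ring R] : Prop where
  noeth : IsNoetherianRing R
  uni : PropU R
  ss : IsSemisimpleRing (R ⧸ Ring.jacobson R)
  hulls : HasHulls R

section General

variable {R : Type u} [Ring R] {M : Type v} [AddCommGroup M] [Module R M]
  {N : Type w} [AddCommGroup N] [Module R N]

theorem mem_map_iff_of_ker_le {f : M →ₗ[R] N} {A : Submodule R M} (hk : LinearMap.ker f ≤ A)
    {x : M} : f x ∈ A.map f ↔ x ∈ A := by
  rw [← Submodule.mem_comap, Submodule.comap_map_eq_self hk]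

theorem TopEq.symm {X : Submodule R M} {x : M} {Y : Submodule R N} {y : N}
    (h : TopEq X x Y y) : TopEq Y y X x :=
  ⟨h.memY, h.notMemY, h.memX, h.notMemX, fun r => (h.iff r).symm⟩

theorem map_jsmul (f : M →ₗ[R] N) (X : Submodule R M) :
    (Ring.jacobson R • X).map f = Ring.jacobson R • X.map f := map_jp f 1 X

/-- Two submodules with the same image have the same top. -/
theorem topEq_of_map_eq {P : Type*} [AddCommGroup P] [Module R P]
    {f : M →ₗ[R] P} {g : N →ₗ[R] P} {A : Submodule R M} {B : Submodule R N}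
    (hA : A.FG) (hA0 : A ≠ ⊥)
    (hf : LinearMap.ker f ≤ Ring.jacobson R • A) (hg : LinearMap.ker g ≤ Ring.jacobson R • B)
    (h : A.map f = B.map g) :
    ∃ a b, f a = g b ∧ TopEq A a B b := by
  have h1 : Ring.jacobson R • A < A := Submodule.FG.jacobson_smul_lt hA0 hA
  obtain ⟨a, haA, ha⟩ := SetLike.exists_of_lt h1
  have h2 : f a ∈ B.map g := by
    rw [← h]; exact Submodule.mem_map_of_mem haA
  obtain ⟨b, hbB, hb⟩ := h2
  have key : ∀ r : R, r • a ∈ Ring.jacobson R • A ↔ r • b ∈ Ring.jacobson R • B := by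
    intro r
    rw [← mem_map_iff_of_ker_le hf, ← mem_map_iff_of_ker_le hg, map_jsmul, map_jsmul, h,
      map_smul, map_smul, hb]
  refine ⟨a, b, hb.symm, haA, ha, hbB, ?_, key⟩
  intro hb'
  apply ha
  have := (key 1).2 (by rwa [one_smul])
  rwa [one_smul] at this

/-- Equality of images in a uniserial module, by length. -/
theorem map_eq_map_of_length (hs : IsSemisimpleRing (R ⧸ Ring.jacobson R))
    {P : Type*} [AddCommGroup P] [Module R P] (hP : IsUniserial R P)
    {f : M →ₗ[R] P} {g : N →ₗ[R] P} {A : Submodule R M} {B : Submodule R N} {s : ℕ}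
    (hA : A.FG) (hB : B.FG)
    (hf : jp (s + 1) A ≤ LinearMap.ker f) (hg : jp (s + 1) B ≤ LinearMap.ker g)
    (hf' : ¬ jp s A ≤ LinearMap.ker f) (hg' : ¬ jp s B ≤ LinearMap.ker g) :
    A.map f = B.map g := by
  apply eq_of_length hs hP (hA.map f) (hB.map g) (k := s)
  · rw [← map_jp, ← le_bot_iff, Submodule.map_le_iff_le_comap, Submodule.comap_bot]
    exact hf
  · rw [← map_jp]
    intro h
    apply hf'
    rw [← le_bot_iff, Submodule.map_le_iff_le_comap, Submodule.comap_bot] at h
    exact h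
  · rw [← map_jp, ← le_bot_iff, Submodule.map_le_iff_le_comap, Submodule.comap_bot]
    exact hg
  · rw [← map_jp]
    intro h
    apply hg'
    rw [← le_bot_iff, Submodule.map_le_iff_le_comap, Submodule.comap_bot] at h
    exact h

end General

section Det

variable {R : Type u} [Ring R] {V : Type u} [AddCommGroup V] [Module R V]
  {V' : Type u} [AddCommGroup V'] [Module R V']

/-- Common embedding: if the layers `jp s A / jp (s+1) A` and `jp s' A' / jp (s'+1) A'` agree
then `V / jp (s+1) A` and `V' / jp (s'+1) A'` embed in a common uniserial module, compatibly. -/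
theorem exists_common (hR : Good R) (hV : IsUniserial R V) (hV' : IsUniserial R V')
    {X : Submodule R V} {X' : Submodule R V'} {x : V} {x' : V'} (h : TopEq X x X' x') :
    ∃ (E : Type u) (_ : AddCommGroup E) (_ : Module R E) (f : V →ₗ[R] E) (g : V' →ₗ[R] E),
      IsUniserial R E ∧ LinearMap.ker f = Ring.jacobson R • X ∧
        LinearMap.ker g = Ring.jacobson R • X' ∧ f x = g x' := by
  let K' := Ring.jacobson R • X'
  let K := Ring.jacobson R • X
  have hnt : Nontrivial (V' ⧸ K') := by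
    refine ⟨⟨K'.mkQ x', 0, ?_⟩⟩
    rw [Ne, Submodule.mkQ_apply, Submodule.Quotient.mk_eq_zero]
    exact h.notMemY
  obtain ⟨E, iE, mE, huE, hbE, ι, hι⟩ := hR.hulls (V' ⧸ K') ((hV'.quotient K').isUniform)
  have hEu : IsUniserial R E := hR.uni E huE
  obtain ⟨φ, hφ⟩ := exists_map_of_baer hbE (K.mkQ x) (ι (K'.mkQ x')) (by
    intro r hr
    rw [← map_smul, Submodule.mkQ_apply, Submodule.Quotient.mk_eq_zero] at hr
    have h2 := (h.iff r).1 hr
    rw [← map_smul, ← map_smul]
    have : K'.mkQ (r • x') = 0 := by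
      rw [Submodule.mkQ_apply, Submodule.Quotient.mk_eq_zero]; exact h2
    rw [this, map_zero])
  have hφi : Function.Injective φ := by
    apply injective_of_socle hR.ss (hV.quotient K) (K.mkQ x)
    · intro r hr
      rw [← map_smul, Submodule.mkQ_apply, Submodule.Quotient.mk_eq_zero]
      exact Submodule.smul_mem_smul hr h.memX
    · rw [hφ]
      intro h0
      have h1 : K'.mkQ x' = 0 := by
        apply hι; rw [h0, map_zero]
      rw [Submodule.mkQ_apply, Submodule.Quotient.mk_eq_zero] at h1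
      exact h.notMemY h1
  refine ⟨E, iE, mE, φ ∘ₗ K.mkQ, ι ∘ₗ K'.mkQ, hEu, ?_, ?_, hφ⟩
  · rw [LinearMap.ker_comp, LinearMap.ker_eq_bot.2 hφi, Submodule.comap_bot, Submodule.ker_mkQ]
  · rw [LinearMap.ker_comp, LinearMap.ker_eq_bot.2 hι, Submodule.comap_bot, Submodule.ker_mkQ]

/-- Upward determinism. -/
theorem TopEq.up (hR : Good R) (hV : IsUniserial R V) (hV' : IsUniserial R V')
    {A : Submodule R V} {A' : Submodule R V'} (hA : A.FG) (hA' : A'.FG) {s : ℕ} {x : V} {x' : V'}
    (h : TopEq (jp s A) x (jp s A') x') : ∃ a a', TopEq A a A' a' := by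
  obtain ⟨E, iE, mE, f, g, hE, hf, hg, hfg⟩ := exists_common hR hV hV' h
  rw [← jp_succ] at hf hg
  have hfx : ¬ jp s A ≤ LinearMap.ker f := by
    intro h1
    have := h1 h.memX
    rw [hf, jp_succ] at this
    exact h.notMemX this
  have hgx : ¬ jp s A' ≤ LinearMap.ker g := by
    intro h1
    have := h1 h.memY
    rw [hg, jp_succ] at this
    exact h.notMemY this
  have heq := map_eq_map_of_length hR.ss hE hA hA' hf.symm.le hg.symm.le hfx hgx
  have hA0 : A ≠ ⊥ := by
    intro h0
    apply h.notMemX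
    have h1 := h.memX
    rw [h0, jp_bot] at h1
    rw [(Submodule.mem_bot R).1 h1]
    exact zero_mem _
  have hle : ∀ (W : Type u) [AddCommGroup W] [Module R W] (B : Submodule R W),
      jp (s + 1) B ≤ Ring.jacobson R • B := by
    intro W _ _ B
    rw [← jp_one]
    exact jp_anti (by omega) B
  obtain ⟨a, b, -, hab⟩ := topEq_of_map_eq hA hA0 (hf.le.trans (hle _ _)) (hg.le.trans (hle _ _)) heq
  exact ⟨a, b, hab⟩

end Det

section Fin

variable {R : Type u} [Ring R]

/-- There are finitely many types of tops. -/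
theorem exists_fin_class (hs : IsSemisimpleRing (R ⧸ Ring.jacobson R)) :
    ∃ (n : ℕ) (P : Fin n → R → Prop), ∀ (M : Type v) [AddCommGroup M] [Module R M]
      (X : Submodule R M), X.FG → X ≠ ⊥ →
        ∃ i, ∃ y ∈ X, y ∉ Ring.jacobson R • X ∧ ∀ r : R, r • y ∈ Ring.jacobson R • X ↔ P i r := by
  classical
  have hss : IsSemisimpleModule R (R ⧸ Ring.jacobson R) := by
    apply semisimple_of_killed hs
    intro r hr m
    obtain ⟨x, rfl⟩ := (Ring.jacobson R).mkQ_surjective m
    rw [← map_smul, Submodule.mkQ_apply, Submodule.Quotient.mk_eq_zero]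
    exact Ideal.mul_mem_right x _ hr
  obtain ⟨n, S, e, hS⟩ := IsSemisimpleModule.exists_linearEquiv_fin_dfinsupp R
    (R ⧸ Ring.jacobson R)
  have hne : ∀ i, ∃ s : S i, s ≠ 0 := fun i =>
    have := hS i
    have := IsSimpleModule.nontrivial R (S i)
    exists_ne 0
  choose s hs0 using hne
  refine ⟨n, fun i r => r • s i = 0, ?_⟩
  intro M _ _ X hX hX0
  have h1 : Ring.jacobson R • X < X := Submodule.FG.jacobson_smul_lt hX0 hX
  obtain ⟨x, hxX, hx⟩ := SetLike.exists_of_lt h1
  let K := Ring.jacobson R • X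
  let g0 : R →ₗ[R] M ⧸ K := LinearMap.toSpanSingleton R (M ⧸ K) (K.mkQ x)
  have hg0 : Ring.jacobson R ≤ LinearMap.ker g0 := by
    intro r hr
    change r • K.mkQ x = 0
    rw [← map_smul, Submodule.mkQ_apply, Submodule.Quotient.mk_eq_zero]
    exact Submodule.smul_mem_smul hr hxX
  let g : (R ⧸ Ring.jacobson R) →ₗ[R] M ⧸ K := (Ring.jacobson R).liftQ g0 hg0
  let g' : (Π₀ i : Fin n, S i) →ₗ[R] M ⧸ K := g ∘ₗ e.symm.toLinearMap
  have hg' : g' ≠ 0 := by
    intro h0
    have h2 : g' (e (Submodule.Quotient.mk 1)) = 0 := by rw [h0]; rfl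
    have h3 : g' (e (Submodule.Quotient.mk 1)) = K.mkQ x := by
      simp only [g', LinearMap.comp_apply, LinearEquiv.coe_coe, LinearEquiv.symm_apply_apply]
      change g0 1 = _
      simp [g0]
    rw [h3, Submodule.mkQ_apply, Submodule.Quotient.mk_eq_zero] at h2
    exact hx h2
  have hi : ∃ i, g' ∘ₗ DFinsupp.lsingle i ≠ 0 := by
    by_contra hall
    push Not at hall
    apply hg'
    apply DFinsupp.lhom_ext'
    intro i
    rw [hall i]
    rfl
  obtain ⟨i, hi⟩ := hi
  have hSi := hS i
  have hinj := LinearMap.injective_of_ne_zero hi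
  have hrange : ∀ z, g z ∈ X.map K.mkQ := by
    intro z
    obtain ⟨r, rfl⟩ := (Ring.jacobson R).mkQ_surjective z
    change g0 r ∈ _
    change r • K.mkQ x ∈ _
    rw [← map_smul]
    exact Submodule.mem_map_of_mem (X.smul_mem r hxX)
  have hmem : (g' ∘ₗ DFinsupp.lsingle i) (s i) ∈ X.map K.mkQ := hrange _
  obtain ⟨y, hyX, hy⟩ := hmem
  have key : ∀ r : R, r • y ∈ K ↔ r • s i = 0 := by
    intro r
    rw [← Submodule.Quotient.mk_eq_zero K, ← Submodule.mkQ_apply, map_smul, hy, ← map_smul]
    constructor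
    · intro h
      apply hinj
      rw [h, map_zero]
    · intro h
      rw [h, map_zero]
  refine ⟨i, y, hyX, ?_, key⟩
  intro hyK
  have := (key 1).1 (by rw [one_smul]; exact hyK)
  rw [one_smul] at this
  exact hs0 i this

/-- Pigeonhole for tops. -/
theorem exists_topEq_of_seq (hs : IsSemisimpleRing (R ⧸ Ring.jacobson R)) {M : Type v}
    [AddCommGroup M] [Module R M] (X : ℕ → Submodule R M) (hX : ∀ k, (X k).FG)
    (hX0 : ∀ k, X k ≠ ⊥) : ∃ k l, k < l ∧ ∃ x y, TopEq (X k) x (X l) y := by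
  obtain ⟨n, P, hP⟩ := exists_fin_class.{u, v} hs
  choose i y hy hy' hyr using fun k => hP M (X k) (hX k) (hX0 k)
  obtain ⟨k, l, hkl, hil⟩ := Finite.exists_ne_map_eq_of_infinite i
  rcases lt_or_gt_of_ne hkl with h | h
  · exact ⟨k, l, h, y k, y l, hy k, hy' k, hy l, hy' l, fun r => by rw [hyr, hyr, hil]⟩
  · exact ⟨l, k, h, y l, y k, hy l, hy' l, hy k, hy' k, fun r => by rw [hyr, hyr, hil]⟩

end Fin

section Inter

variable {R : Type u} [Ring R] {V : Type u} [AddCommGroup V] [Module R V]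

/-- In a socle free uniserial module the powers `J^k X` intersect in zero. -/
theorem iInf_jp_eq_bot (hR : Good R) (hV : IsUniserial R V) (hsf : SocFree R V)
    {X : Submodule R V} (hX : X.FG) : ⨅ k, jp k X = ⊥ := by
  have := hR.noeth
  set Y := ⨅ k, jp k X with hYdef
  by_contra hY0
  have hYX : Y ≤ X := (iInf_le _ 0).trans (jp_le 0 X)
  have hYfg : Y.FG := fg_of_le hX hYX
  have hYk : ∀ k, jp k Y ≠ ⊥ := jp_ne_bot_of_socFree hR.ss hV hsf hYfg hY0
  obtain ⟨k, l, hkl, y, y', hyy⟩ := exists_topEq_of_seq hR.ss (fun k => jp k Y)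
    (fun k => jp_fg hYfg k) hYk
  obtain ⟨E, iE, mE, f, g, hE, hf, hg, hfg⟩ := exists_common hR hV hV hyy
  rw [← jp_succ] at hf hg
  obtain ⟨m, rfl⟩ : ∃ m, l = k + (m + 1) := ⟨l - k - 1, by omega⟩
  have hA'fg : (jp (m + 1) Y).FG := jp_fg hYfg _
  have e1 : jp k (jp (m + 1) Y) = jp (k + (m + 1)) Y := (jp_add _ _ _).symm
  have e2 : jp (k + 1) (jp (m + 1) Y) = jp (k + (m + 1) + 1) Y := by
    rw [← jp_add]; congr 1; omega
  have heq : Y.map f = (jp (m + 1) Y).map g := by
    apply map_eq_map_of_length hR.ss hE hYfg hA'fg (s := k)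
    · exact hf.symm.le
    · rw [e2]; exact hg.symm.le
    · intro h1
      have := h1 hyy.memX
      rw [hf, jp_succ] at this
      exact hyy.notMemX this
    · intro h1
      rw [e1] at h1
      have := h1 hyy.memY
      rw [hg, jp_succ] at this
      exact hyy.notMemY this
  have hkerfY : LinearMap.ker f ≤ Y := by rw [hf]; exact jp_le _ _
  let b := (jp m Y).map g
  have hJb : Ring.jacobson R • b = Y.map f := by
    rw [heq, jp_succ, map_jsmul]
  have hb0 : b ≠ ⊥ := by
    intro h0
    rw [h0] at hJb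
    have h2 : Y.map f = ⊥ := by
      rw [← hJb]; exact jp_bot 1
    have h3 : Y ≤ jp (k + 1) Y := by
      rw [← hf, ← Submodule.comap_bot, ← Submodule.map_le_iff_le_comap, h2]
    have h4 : Y ≤ Ring.jacobson R • Y := h3.trans (jp_anti (by omega : 1 ≤ k + 1) Y)
    exact hY0 (Submodule.FG.eq_bot_of_le_jacobson_smul hYfg h4)
  have hbfg : b.FG := (jp_fg hYfg m).map g
  have hlt : Ring.jacobson R • b < b := Submodule.FG.jacobson_smul_lt hb0 hbfg
  have hYm : ∀ m, ¬ jp m X ≤ Y := by
    intro m hm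
    have h5 : Y ≤ Ring.jacobson R • Y := by
      calc Y ≤ jp (m + 1) X := iInf_le _ _
        _ = Ring.jacobson R • jp m X := jp_succ _ _
        _ ≤ Ring.jacobson R • Y := smul_mono_right _ hm
    exact hY0 (Submodule.FG.eq_bot_of_le_jacobson_smul hYfg h5)
  have hb : ∀ m, b ≤ (jp m X).map f := by
    intro m
    by_contra hn
    have h6 : (jp m X).map f < b := lt_of_le_of_ne ((hE _ _).resolve_left hn)
      (fun h => hn h.symm.le)
    have h7 := hE.le_of_lt hR.ss hbfg h6
    rw [hJb, Submodule.map_le_iff_le_comap, Submodule.comap_map_eq_self hkerfY] at h7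
    exact hYm m h7
  obtain ⟨z, hzb, hz⟩ := SetLike.exists_of_lt hlt
  obtain ⟨x, -, hx⟩ := hb 0 hzb
  apply hz
  rw [hJb, ← hx]
  apply Submodule.mem_map_of_mem
  rw [hYdef, Submodule.mem_iInf]
  intro m
  have h8 : f x ∈ (jp m X).map f := by rw [hx]; exact hb m hzb
  rw [mem_map_iff_of_ker_le] at h8
  · exact h8
  · exact hkerfY.trans (iInf_le _ m)

/-- Nonzero submodules of a finitely generated submodule `X` of a socle free uniserial module
are the `J^k X`. -/
theorem exists_eq_jp (hR : Good R) (hV : IsUniserial R V) (hsf : SocFree R V)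
    {X Z : Submodule R V} (hX : X.FG) (hZ : Z ≤ X) (hZ0 : Z ≠ ⊥) : ∃ k, Z = jp k X := by
  have := hR.noeth
  rcases eq_jp_or_le hR.ss hV hX hZ with h | h
  · exact h
  · exfalso
    apply hZ0
    rw [← le_bot_iff, ← iInf_jp_eq_bot hR hV hsf hX]
    exact le_iInf h

end Inter

end Pool.Agent.Uni
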