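import Pool.Agent.Uni.Nec2

/-!
Socle free injective uniserial modules.
-/

namespace Pool.Agent.Uni

universe u v w

open Submodule

/-- Socle free uniserial injective (nonzero) module. -/
structure SFI (R : Type u) [Ring R] (V : Type u) [AddCommGroup V] [Module R V] : Prop where
  uf : IsUniform R V
  us : IsUniserial R V
  baer : Module.Baer R V
  sf : SocFree R V

section A

variable {R : Type u} [Ring R] {V : Type u} [AddCommGroup V] [Module R V]
  {V' : Type u} [AddCommGroup V'] [Module R V']

theorem fg_of_ne_top (hR : Good R) (hV : IsUniserial R V) {Z : Submodule R V} (h : Z ≠ ⊤) :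
    Z.FG := by
  have := hR.noeth
  obtain ⟨v, -, hv⟩ := SetLike.exists_of_lt (lt_top_iff_ne_top.2 h)
  have h1 : ¬ Submodule.span R {v} ≤ Z := fun h2 => hv (h2 (Submodule.mem_span_singleton_self v))
  exact fg_of_le (Submodule.fg_span_singleton v) ((hV _ _).resolve_left h1)

theorem SFI.bijective_of_ne_zero (hR : Good R) (hV : SFI R V) (hV' : SFI R V')
    (f : V →ₗ[R] V') (hf : f ≠ 0) : Function.Bijective f := by
  have := hR.noeth
  have hinj : Function.Injective f := by
    rw [← LinearMap.ker_eq_bot]
    by_contra hk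
    have hk' : LinearMap.ker f ≠ ⊤ := by
      intro h; exact hf (LinearMap.ker_eq_top.1 h)
    obtain ⟨v, -, hv⟩ := SetLike.exists_of_lt (lt_top_iff_ne_top.2 hk')
    have h1 : ¬ Submodule.span R {v} ≤ LinearMap.ker f :=
      fun h2 => hv (h2 (Submodule.mem_span_singleton_self v))
    have h2 := (hV.us _ _).resolve_left h1
    have hX := Submodule.fg_span_singleton (R := R) v
    obtain ⟨k, hk2⟩ := exists_eq_jp hR hV.us hV.sf hX h2 hk
    cases k with
    | zero => exact h1 hk2.symm.le
    | succ k =>
      have hX0 : Submodule.span R {v} ≠ ⊥ := by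
        intro h0
        apply h1
        rw [h0]; exact bot_le
      have hjk := jp_ne_bot_of_socFree hR.ss hV.us hV.sf hX hX0 k
      have hlt := jp_succ_lt hX hjk
      have hB0 : (jp k (Submodule.span R {v})).map f ≠ ⊥ := by
        intro h0
        rw [← le_bot_iff, Submodule.map_le_iff_le_comap, Submodule.comap_bot, hk2] at h0
        exact hlt.not_ge h0
      have hBfg : ((jp k (Submodule.span R {v})).map f).FG := (jp_fg hX k).map f
      apply jp_ne_bot_of_socFree hR.ss hV'.us hV'.sf hBfg hB0 1
      rw [← map_jp, jp_one, ← jp_succ, ← hk2, ← le_bot_iff, Submodule.map_le_iff_le_comap,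
        Submodule.comap_bot]
  refine ⟨hinj, ?_⟩
  obtain ⟨g, hg⟩ := hV.baer.extension_property f hinj LinearMap.id
  have hg' : ∀ v, g (f v) = v := fun v => LinearMap.congr_fun hg v
  have hdis : LinearMap.ker g ⊓ LinearMap.range f = ⊥ := by
    rw [eq_bot_iff]
    rintro x ⟨hx1, y, rfl⟩
    have : g (f y) = 0 := hx1
    rw [hg'] at this
    rw [this, map_zero]; exact zero_mem _
  have hrange : LinearMap.range f ≠ ⊥ := by
    intro h
    exact hf (LinearMap.range_eq_bot.1 h)
  have hkg := (hV'.uf.2 _ _ hdis).resolve_right hrange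
  have hginj : Function.Injective g := LinearMap.ker_eq_bot.1 hkg
  intro w
  exact ⟨g w, hginj (hg' _)⟩

end A

section Family

variable {R : Type u} [Ring R]

theorem isUniform_quotient_of_infIrred {K : Submodule R R} (hK : InfIrred K) :
    IsUniform R (R ⧸ K) := by
  refine ⟨?_, ?_⟩
  · rw [Submodule.Quotient.nontrivial_iff]
    intro h
    exact hK.1 (by rw [h]; exact isMax_top)
  · intro A B hAB
    have h1 : A.comap K.mkQ ⊓ B.comap K.mkQ = K := by
      rw [← Submodule.comap_inf, hAB, Submodule.comap_bot, Submodule.ker_mkQ]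
    rcases hK.2 h1 with h2 | h2
    · left
      rw [← Submodule.map_comap_eq_of_surjective K.mkQ_surjective A, h2, Submodule.mkQ_map_self]
    · right
      rw [← Submodule.map_comap_eq_of_surjective K.mkQ_surjective B, h2, Submodule.mkQ_map_self]

/-- A noetherian ring has an irredundant decomposition of zero. -/
theorem exists_irredundant (R : Type u) [Ring R] [IsNoetherianRing R] :
    ∃ s : Finset (Submodule R R), s.inf id = ⊥ ∧ (∀ b ∈ s, InfIrred b) ∧
      ∀ t ⊂ s, t.inf id ≠ ⊥ := by
  classical
  let P : Finset (Submodule R R) → Prop := fun s => s.inf id = ⊥ ∧ ∀ b ∈ s, InfIrred b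
  obtain ⟨s0, hs0, hs0'⟩ := exists_infIrred_decomposition (⊥ : Submodule R R)
  have hwf : WellFounded (fun s t : Finset (Submodule R R) => s ⊂ t) :=
    Finset.isWellFounded_ssubset.wf
  obtain ⟨s, hs, hmin⟩ := hwf.has_min {s | P s} ⟨s0, hs0, fun b hb => hs0' hb⟩
  refine ⟨s, hs.1, hs.2, fun t ht h => ?_⟩
  exact hmin t ⟨h, fun b hb => hs.2 b (ht.1 hb)⟩ ht

/-- A ring with zero left socle embeds, as a left module, in a finite product of
socle free injective uniserial modules. -/
theorem exists_family (hR : Good R) (hsf : SocFree R R) :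
    ∃ (n : ℕ) (V : Fin n → Type u) (_ : ∀ i, AddCommGroup (V i)) (_ : ∀ i, Module R (V i)),
      (∀ i, SFI R (V i)) ∧ ∃ f : R →ₗ[R] (∀ i, V i), Function.Injective f := by
  classical
  have := hR.noeth
  obtain ⟨s, hs, hirr, hmin⟩ := exists_irredundant R
  have key : ∀ K : s, ∃ (E : Type u) (_ : AddCommGroup E) (_ : Module R E),
      SFI R E ∧ ∃ f : R →ₗ[R] E, LinearMap.ker f = K.1 := by
    intro K
    have hU := isUniform_quotient_of_infIrred (hirr K.1 K.2)
    obtain ⟨E, iE, mE, huE, hbE, ι, hι⟩ := hR.hulls (R ⧸ K.1) hU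
    refine ⟨E, iE, mE, ⟨huE, hR.uni E huE, hbE, ?_⟩, ι ∘ₗ K.1.mkQ, ?_⟩
    · intro S hS
      let C : Submodule R R := (s.erase K.1).inf id
      have hC : C ≠ ⊥ := hmin _ (Finset.erase_ssubset K.2)
      have hCK : C ⊓ K.1 = ⊥ := by
        have h0 : (insert K.1 (s.erase K.1)).inf id = s.inf id := by
          rw [Finset.insert_erase K.2]
        rw [← hs, ← h0, Finset.inf_insert, inf_comm]
        rfl
      let φ : R →ₗ[R] E := ι ∘ₗ K.1.mkQ
      have hker : LinearMap.ker φ = K.1 := by
        rw [LinearMap.ker_comp, LinearMap.ker_eq_bot.2 hι, Submodule.comap_bot, Submodule.ker_mkQ]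
      have hφC : C.map φ ≠ ⊥ := by
        intro h0
        rw [← le_bot_iff, Submodule.map_le_iff_le_comap, Submodule.comap_bot, hker] at h0
        apply hC
        rw [← hCK]
        exact (inf_eq_left.2 h0).symm
      have h1 : S ⊓ C.map φ ≠ ⊥ := by
        intro h0
        rcases huE.2 _ _ h0 with h2 | h2
        · exact hS.1 h2
        · exact hφC h2
      have h2 : S ≤ C.map φ := by
        rcases hS.le_iff.1 (inf_le_left : S ⊓ C.map φ ≤ S) with h3 | h3
        · exact absurd h3 h1
        · rw [← h3]; exact inf_le_right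
      -- pull back the atom
      apply hsf (S.comap φ ⊓ C)
      refine ⟨?_, ?_⟩
      · intro h0
        apply hS.1
        rw [eq_bot_iff]
        intro x hx
        obtain ⟨c, hc, rfl⟩ := h2 hx
        have : c ∈ S.comap φ ⊓ C := ⟨hx, hc⟩
        rw [h0, Submodule.mem_bot] at this
        rw [this, map_zero]; exact zero_mem _
      · intro Z hZ
        have hZC : Z ≤ C := hZ.le.trans inf_le_right
        have hZS : Z.map φ ≤ S := by
          rw [Submodule.map_le_iff_le_comap]
          exact hZ.le.trans inf_le_left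
        have inj : ∀ A : Submodule R R, A ≤ C → ∀ x ∈ C, φ x ∈ A.map φ → x ∈ A := by
          intro A hA x hx hxA
          obtain ⟨a, ha, hax⟩ := hxA
          have h4 : a - x ∈ C ⊓ K.1 := by
            refine ⟨C.sub_mem (hA ha) hx, ?_⟩
            rw [← hker]
            change φ (a - x) = 0
            rw [map_sub, hax, sub_self]
          rw [hCK, Submodule.mem_bot, sub_eq_zero] at h4
          rwa [← h4]
        rcases hS.le_iff.1 hZS with h3 | h3
        · rw [eq_bot_iff]
          intro z hz
          have h5 : φ z ∈ Z.map φ := Submodule.mem_map_of_mem hz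
          rw [h3, Submodule.mem_bot] at h5
          have h6 : z ∈ C ⊓ K.1 := ⟨hZC hz, by rw [← hker]; exact h5⟩
          rw [hCK] at h6
          exact h6
        · exfalso
          apply hZ.not_ge
          rintro x ⟨hxS, hxC⟩
          apply inj Z hZC x hxC
          rw [h3]
          exact hxS
    · rw [LinearMap.ker_comp, LinearMap.ker_eq_bot.2 hι, Submodule.comap_bot, Submodule.ker_mkQ]
  choose E iE mE hE f hf using key
  let e := (Finset.equivFin s).symm
  refine ⟨s.card, fun i => E (e i), fun i => iE (e i), fun i => mE (e i), fun i => hE (e i),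
    LinearMap.pi (fun i => f (e i)), ?_⟩
  rw [← LinearMap.ker_eq_bot, LinearMap.ker_pi, eq_bot_iff, ← hs]
  intro x hx
  rw [Submodule.mem_iInf] at hx
  rw [Submodule.mem_finsetInf]
  intro K hK
  have h1 := hx (e.symm ⟨K, hK⟩)
  rw [hf] at h1
  simpa using h1

end Family

section EndRing

variable {R : Type u} [Ring R] {V : Type u} [AddCommGroup V] [Module R V]

theorem SFI.isSimple_end (hR : Good R) (hV : SFI R V) :
    IsSimpleModule (Module.End R V) (Module.End R V) := by
  have hnt : Nontrivial V := hV.uf.1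
  rw [isSimpleModule_self_iff_isUnit]
  refine ⟨inferInstance, fun f hf => ?_⟩
  rw [Module.End.isUnit_iff]
  exact hV.bijective_of_ne_zero hR hV f hf

theorem SFI.finite_end (hR : Good R) (hsf : SocFree R R) (hV : SFI R V) :
    Module.Finite (Module.End R V) V := by
  classical
  obtain ⟨n, W, iW, mW, hW, f, hf⟩ := exists_family hR hsf
  have key : ∀ i, ∃ ψ : W i →ₗ[R] V, ∀ g : W i →ₗ[R] V, ∃ d : Module.End R V, g = d ∘ₗ ψ := by
    intro i
    by_cases h : ∃ g0 : W i →ₗ[R] V, g0 ≠ 0
    · obtain ⟨g0, hg0⟩ := h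
      have hb := (hW i).bijective_of_ne_zero hR hV g0 hg0
      let e := LinearEquiv.ofBijective g0 hb
      refine ⟨g0, fun g => ⟨g ∘ₗ e.symm.toLinearMap, ?_⟩⟩
      ext x
      have : e.symm (g0 x) = x := e.symm_apply_apply x
      simp [this]
    · push Not at h
      refine ⟨0, fun g => ⟨0, ?_⟩⟩
      rw [h g, LinearMap.comp_zero]
  choose ψ hψ using key
  refine ⟨Submodule.fg_def.2 ⟨Set.range (fun i => ψ i (f 1 i)), Set.finite_range _, ?_⟩⟩
  rw [eq_top_iff]
  intro v _
  obtain ⟨Φ, hΦ⟩ := hV.baer.extension_property f hf (LinearMap.toSpanSingleton R V v)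
  have h1 : Φ (f 1) = v := by
    have := LinearMap.congr_fun hΦ 1
    simpa using this
  rw [Submodule.mem_span_range_iff_exists_fun]
  choose d hd using fun i => hψ i (Φ ∘ₗ LinearMap.single R W i)
  refine ⟨d, ?_⟩
  rw [← h1]
  have h2 : f 1 = ∑ i, Pi.single i (f 1 i) := by
    ext j
    simp [Finset.sum_apply]
  conv_rhs => rw [h2, map_sum]
  refine Finset.sum_congr rfl fun i _ => ?_
  have := LinearMap.congr_fun (hd i) (f 1 i)
  simp only [LinearMap.comp_apply, LinearMap.coe_single] at this
  rw [this]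
  rfl

theorem SFI.isArtinian_end (hR : Good R) (hsf : SocFree R R) (hV : SFI R V) :
    IsArtinian (Module.End R V) V := by
  have h1 := hV.isSimple_end hR
  have h2 := hV.finite_end hR hsf
  have h3 : IsArtinianRing (Module.End R V) := inferInstance
  infer_instance

theorem SFI.isNoetherian_end (hR : Good R) (hsf : SocFree R R) (hV : SFI R V) :
    IsNoetherian (Module.End R V) V := by
  have h1 := hV.isSimple_end hR
  have h2 := hV.finite_end hR hsf
  have h3 : IsNoetherianRing (Module.End R V) := inferInstance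
  infer_instance

theorem SFI.exists_not_map_le (hR : Good R) (hsf : SocFree R R) (hV : SFI R V)
    {X : Submodule R V} (hX : X.FG) (hX0 : X ≠ ⊥) :
    ∃ d : Module.End R V, ¬ X.map d ≤ X := by
  have := hR.noeth
  by_contra hall
  push Not at hall
  have hst : ∀ k, ∀ d : Module.End R V, ∀ x ∈ jp k X, d x ∈ jp k X := by
    intro k d x hx
    have h1 : (jp k X).map d ≤ jp k X := by
      rw [map_jp]; exact jp_mono k (hall d)
    exact h1 (Submodule.mem_map_of_mem hx)
  let F : ℕ → Submodule (Module.End R V) V := fun k =>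
    { carrier := jp k X
      add_mem' := fun ha hb => (jp k X).add_mem ha hb
      zero_mem' := (jp k X).zero_mem
      smul_mem' := fun d x hx => hst k d x hx }
  have hart := hV.isArtinian_end hR hsf
  let G : ℕ →o (Submodule (Module.End R V) V)ᵒᵈ :=
    ⟨fun k => OrderDual.toDual (F k), fun a b hab => by
      change F b ≤ F a
      intro x hx
      exact jp_anti hab X hx⟩
  obtain ⟨n, hn⟩ := IsArtinian.monotone_stabilizes G
  have h1 : F n = F (n + 1) := hn (n + 1) (Nat.le_succ n)
  have h2 := jp_succ_lt hX (jp_ne_bot_of_socFree hR.ss hV.us hV.sf hX hX0 n)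
  apply h2.not_ge
  intro x hx
  have h3 : x ∈ F n := hx
  rw [h1] at h3
  exact h3

theorem SFI.not_fg_top (hR : Good R) (hsf : SocFree R R) (hV : SFI R V) :
    ¬ (⊤ : Submodule R V).FG := by
  intro h
  have hnt : Nontrivial V := hV.uf.1
  obtain ⟨d, hd⟩ := hV.exists_not_map_le hR hsf h top_ne_bot
  exact hd le_top

theorem SFI.exists_shift (hR : Good R) (hsf : SocFree R R) (hV : SFI R V) :
    ∃ (p : V ≃ₗ[R] V) (h : ℕ), 0 < h ∧ ∀ X : Submodule R V, X.FG → X ≠ ⊥ →
      X.map p.toLinearMap = jp h X := by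
  have := hR.noeth
  have hnt : Nontrivial V := hV.uf.1
  obtain ⟨v, hv⟩ := exists_ne (0 : V)
  let X0 := Submodule.span R {v}
  have hX0fg : X0.FG := Submodule.fg_span_singleton v
  have hX0 : X0 ≠ ⊥ := by
    intro h0
    apply hv
    have : v ∈ X0 := Submodule.mem_span_singleton_self v
    rwa [h0, Submodule.mem_bot] at this
  obtain ⟨d, hd⟩ := hV.exists_not_map_le hR hsf hX0fg hX0
  have hd0 : d ≠ 0 := by
    intro h0
    apply hd
    rw [h0, Submodule.map_zero]
    exact bot_le
  let e := LinearEquiv.ofBijective d (hV.bijective_of_ne_zero hR hV d hd0)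
  have hle : X0 ≤ X0.map d := (hV.us _ _).resolve_left hd
  obtain ⟨h, hh⟩ := exists_eq_jp hR hV.us hV.sf (hX0fg.map d) hle hX0
  have hh0 : 0 < h := by
    rcases Nat.eq_zero_or_pos h with h0 | h0
    · exfalso
      rw [h0, jp_zero] at hh
      exact hd hh.symm.le
    · exact h0
  have hmap : (X0.map d).map e.symm.toLinearMap = X0 := by
    rw [← Submodule.map_comp]
    have : e.symm.toLinearMap ∘ₗ d = LinearMap.id := by
      ext x
      exact e.symm_apply_apply x
    rw [this, Submodule.map_id]
  have hX0p : X0.map e.symm.toLinearMap = jp h X0 := by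
    conv_lhs => rw [hh, map_jp, hmap]
  refine ⟨e.symm, h, hh0, ?_⟩
  intro X hX hXb
  have hinj : Function.Injective e.symm.toLinearMap := e.symm.injective
  rcases hV.us X X0 with h1 | h1
  · obtain ⟨k, hk⟩ := exists_eq_jp hR hV.us hV.sf hX0fg h1 hXb
    rw [hk, map_jp, hX0p, ← jp_add, ← jp_add, add_comm]
  · obtain ⟨k, hk⟩ := exists_eq_jp hR hV.us hV.sf hX h1 hX0
    rw [hk, map_jp, ← jp_add, add_comm, jp_add] at hX0p
    have hXpfg : (X.map e.symm.toLinearMap).FG := hX.map _
    have hXp0 : X.map e.symm.toLinearMap ≠ ⊥ := by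
      intro h0
      apply hXb
      apply Submodule.map_injective_of_injective hinj
      rw [h0, Submodule.map_bot]
    apply le_antisymm
    · apply le_of_jp_le hR.ss hV.us hXpfg
        (jp_ne_bot_of_socFree hR.ss hV.us hV.sf hXpfg hXp0 k)
      exact hX0p.le
    · apply le_of_jp_le hR.ss hV.us (jp_fg hX h) (k := k)
        (jp_ne_bot_of_socFree hR.ss hV.us hV.sf (jp_fg hX h)
          (jp_ne_bot_of_socFree hR.ss hV.us hV.sf hX hXb h) k)
      exact hX0p.symm.le

end EndRing

end Pool.Agent.Uni
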