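import Pool.Agent.Uni.Nec3

/-!
Quotients of socle free injective uniserial modules; determinism downwards.
-/

namespace Pool.Agent.Uni

universe u v w

open Submodule

section Quot

variable {R : Type u} [Ring R] {V : Type u} [AddCommGroup V] [Module R V]
  {V' : Type u} [AddCommGroup V'] [Module R V']

theorem SFI.fg_iff_ne_top (hR : Good R) (hsf : SocFree R R) (hV : SFI R V)
    {Z : Submodule R V} : Z.FG ↔ Z ≠ ⊤ := by
  refine ⟨fun h h1 => ?_, fg_of_ne_top hR hV.us⟩
  rw [h1] at h
  exact hV.not_fg_top hR hsf h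

theorem not_fg_of_surj (hR : Good R) (hsf : SocFree R R) (hV : SFI R V) {E : Type u}
    [AddCommGroup E] [Module R E] (g : V →ₗ[R] E) (hk : (LinearMap.ker g).FG) :
    ¬ (LinearMap.range g).FG := by
  intro h
  apply hV.not_fg_top hR hsf
  apply Submodule.fg_of_fg_map_of_fg_inf_ker g
  · rw [Submodule.map_top]; exact h
  · rw [top_inf_eq]; exact hk

theorem SFI.baer_quotient (hR : Good R) (hsf : SocFree R R) (hV : SFI R V)
    {K : Submodule R V} (hK : K.FG) : Module.Baer R (V ⧸ K) := by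
  have hKt : K ≠ ⊤ := (hV.fg_iff_ne_top hR hsf).1 hK
  have hnt : Nontrivial (V ⧸ K) := Submodule.Quotient.nontrivial_iff.2 hKt
  obtain ⟨E, iE, mE, huE, hbE, ι, hι⟩ := hR.hulls (V ⧸ K) ((hV.us.quotient K).isUniform)
  have hEu : IsUniserial R E := hR.uni E huE
  have hsurj : Function.Surjective ι := by
    rw [← LinearMap.range_eq_top]
    by_contra hne
    have h1 := fg_of_ne_top hR hEu hne
    have h2 : (LinearMap.range (ι ∘ₗ K.mkQ)).FG := by
      rw [LinearMap.range_comp, Submodule.range_mkQ, Submodule.map_top]; exact h1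
    apply not_fg_of_surj hR hsf hV (ι ∘ₗ K.mkQ) _ h2
    rw [LinearMap.ker_comp, LinearMap.ker_eq_bot.2 hι, Submodule.comap_bot, Submodule.ker_mkQ]
    exact hK
  exact Module.Baer.of_equiv (LinearEquiv.ofBijective ι ⟨hι, hsurj⟩).symm hbE

/-- A uniform injective module with an element killed by `J` is a quotient of a socle free
one. -/
theorem exists_sfi_surj (hR : Good R) (hsf : SocFree R R) {E : Type u} [AddCommGroup E]
    [Module R E] (huE : IsUniform R E) (hbE : Module.Baer R E) {e : E} (he : e ≠ 0)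
    (hJe : ∀ r ∈ Ring.jacobson R, r • e = 0) :
    ∃ (V : Type u) (_ : AddCommGroup V) (_ : Module R V) (g : V →ₗ[R] E),
      SFI R V ∧ Function.Surjective g ∧ (LinearMap.ker g).FG ∧ LinearMap.ker g ≠ ⊥ := by
  classical
  have := hR.noeth
  have hEu : IsUniserial R E := hR.uni E huE
  obtain ⟨n, W, iW, mW, hW, f, hf⟩ := exists_family hR hsf
  obtain ⟨Φ, hΦ⟩ := hbE.extension_property f hf (LinearMap.toSpanSingleton R E e)
  have h1 : Φ (f 1) = e := by
    have := LinearMap.congr_fun hΦ 1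
    simpa using this
  have hi : ∃ i, Φ ∘ₗ LinearMap.single R W i ≠ 0 := by
    by_contra hall
    push Not at hall
    apply he
    rw [← h1]
    have h2 : Φ = 0 := by
      apply LinearMap.pi_ext'
      intro i
      rw [hall i]; rfl
    rw [h2]; rfl
  obtain ⟨i, hi⟩ := hi
  let g := Φ ∘ₗ LinearMap.single R W i
  have hkt : LinearMap.ker g ≠ ⊤ := fun h => hi (LinearMap.ker_eq_top.1 h)
  have hkfg : (LinearMap.ker g).FG := fg_of_ne_top hR (hW i).us hkt
  have hrange : LinearMap.range g ≠ ⊥ := fun h => hi (LinearMap.range_eq_bot.1 h)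
  have herange : e ∈ LinearMap.range g := by
    by_contra hn
    have h2 : ¬ Submodule.span R {e} ≤ LinearMap.range g := by
      intro h3; exact hn (h3 (Submodule.mem_span_singleton_self e))
    have h3 : LinearMap.range g < Submodule.span R {e} :=
      lt_of_le_of_ne ((hEu _ _).resolve_left h2) (fun h4 => h2 h4.symm.le)
    have h4 := hEu.le_of_lt hR.ss (Submodule.fg_span_singleton e) h3
    apply hrange
    rw [eq_bot_iff]
    refine h4.trans ?_
    rw [Submodule.smul_le]
    intro r hr n hn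
    obtain ⟨s, rfl⟩ := Submodule.mem_span_singleton.1 hn
    rw [smul_smul, hJe _ (Ideal.mul_mem_right s _ hr)]
    exact zero_mem _
  refine ⟨W i, iW i, mW i, g, hW i, ?_, hkfg, ?_⟩
  · rw [← LinearMap.range_eq_top]
    by_contra hne
    exact not_fg_of_surj hR hsf (hW i) g hkfg (fg_of_ne_top hR hEu hne)
  · intro hk
    obtain ⟨v, hv⟩ := herange
    have hv0 : v ≠ 0 := by
      intro h0
      apply he
      rw [← hv, h0, map_zero]
    have hinj : Function.Injective g := LinearMap.ker_eq_bot.1 hk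
    have hX0 : Submodule.span R {v} ≠ ⊥ := by
      rw [Ne, Submodule.span_singleton_eq_bot]; exact hv0
    apply jp_ne_bot_of_socFree hR.ss (hW i).us (hW i).sf (Submodule.fg_span_singleton v) hX0 1
    rw [jp_one, ← le_bot_iff, Submodule.smul_le]
    intro r hr n hn
    obtain ⟨s, rfl⟩ := Submodule.mem_span_singleton.1 hn
    rw [Submodule.mem_bot]
    apply hinj
    rw [map_smul, map_smul, hv, smul_smul, hJe _ (Ideal.mul_mem_right s _ hr), map_zero]

/-- A uniform injective module with nonzero socle over a ring without left socle is not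
finitely generated. -/
theorem not_fg_of_socle (hR : Good R) (hsf : SocFree R R) {E : Type u} [AddCommGroup E]
    [Module R E] (huE : IsUniform R E) (hbE : Module.Baer R E) {e : E} (he : e ≠ 0)
    (hJe : ∀ r ∈ Ring.jacobson R, r • e = 0) : ¬ (⊤ : Submodule R E).FG := by
  obtain ⟨V, iV, mV, g, hV, hg, hk, -⟩ := exists_sfi_surj hR hsf huE hbE he hJe
  have := not_fg_of_surj hR hsf hV g hk
  rwa [LinearMap.range_eq_top.2 hg] at this

theorem SFI.exists_shift_pow (hR : Good R) (hsf : SocFree R R) (hV : SFI R V) :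
    ∃ h : ℕ, 0 < h ∧ ∀ m : ℕ, ∃ q : V ≃ₗ[R] V, ∀ X : Submodule R V, X.FG → X ≠ ⊥ →
      X.map q.toLinearMap = jp (m * h) X := by
  have := hR.noeth
  obtain ⟨p, h, hh, hp⟩ := hV.exists_shift hR hsf
  refine ⟨h, hh, fun m => ?_⟩
  induction m with
  | zero => exact ⟨LinearEquiv.refl R V, fun X _ _ => by simp⟩
  | succ m ih =>
    obtain ⟨q, hq⟩ := ih
    refine ⟨q.trans p, fun X hX hX0 => ?_⟩
    have h1 : (q.trans p).toLinearMap = p.toLinearMap ∘ₗ q.toLinearMap := rfl
    rw [h1, Submodule.map_comp, hq X hX hX0, hp _ (jp_fg hX _)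
      (jp_ne_bot_of_socFree hR.ss hV.us hV.sf hX hX0 _), ← jp_add]
    congr 1
    ring

theorem SFI.exists_cover (hR : Good R) (hsf : SocFree R R) (hV : SFI R V) (s : ℕ)
    {X : Submodule R V} (hX : X.FG) (hX0 : X ≠ ⊥) :
    ∃ A : Submodule R V, A.FG ∧ A ≠ ⊥ ∧ jp s A = X := by
  have := hR.noeth
  obtain ⟨h, hh, hq⟩ := hV.exists_shift_pow hR hsf
  obtain ⟨q, hq⟩ := hq s
  let Y := X.map q.symm.toLinearMap
  have hYfg : Y.FG := hX.map _
  have hY0 : Y ≠ ⊥ := by
    intro h0
    apply hX0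
    apply Submodule.map_injective_of_injective q.symm.injective
    rw [Submodule.map_bot]; exact h0
  have h1 : Y.map q.toLinearMap = X := by
    rw [← Submodule.map_comp]
    have : q.toLinearMap ∘ₗ q.symm.toLinearMap = LinearMap.id := by
      ext x
      simp
    rw [this, Submodule.map_id]
  have h2 : jp (s * h) Y = X := by rw [← hq Y hYfg hY0, h1]
  have h3 : s * h = s + (s * h - s) := by
    have : s * 1 ≤ s * h := Nat.mul_le_mul_left s hh
    omega
  refine ⟨jp (s * h - s) Y, jp_fg hYfg _, jp_ne_bot_of_socFree hR.ss hV.us hV.sf hYfg hY0 _, ?_⟩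
  rw [← jp_add, ← h3, h2]

theorem TopEq.map_left {M : Type v} [AddCommGroup M] [Module R M] {N : Type w} [AddCommGroup N]
    [Module R N] {P : Type*} [AddCommGroup P] [Module R P] {X : Submodule R M} {x : M}
    {Y : Submodule R N} {y : N} (h : TopEq X x Y y) (f : M →ₗ[R] P)
    (hf : Function.Injective f) : TopEq (X.map f) (f x) Y y := by
  have hk : ∀ Z : Submodule R M, LinearMap.ker f ≤ Z := by
    intro Z; rw [LinearMap.ker_eq_bot.2 hf]; exact bot_le
  refine ⟨Submodule.mem_map_of_mem h.memX, ?_, h.memY, h.notMemY, ?_⟩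
  · rw [← map_jsmul, mem_map_iff_of_ker_le (hk _)]
    exact h.notMemX
  · intro r
    rw [← map_jsmul, ← map_smul, mem_map_iff_of_ker_le (hk _)]
    exact h.iff r

theorem TopEq.ne_bot {M : Type v} [AddCommGroup M] [Module R M] {N : Type w} [AddCommGroup N]
    [Module R N] {X : Submodule R M} {x : M}
    {Y : Submodule R N} {y : N} (h : TopEq X x Y y) : X ≠ ⊥ := by
  intro h0
  apply h.notMemX
  have h1 := h.memX
  rw [h0, Submodule.mem_bot] at h1
  rw [h1]; exact zero_mem _

/-- Downward determinism. -/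
theorem TopEq.down (hR : Good R) (hsf : SocFree R R) (hV : SFI R V) (hV' : SFI R V')
    {X : Submodule R V} {X' : Submodule R V'} (hX : X.FG) (hX' : X'.FG) {x : V} {x' : V'}
    (h : TopEq X x X' x') :
    ∃ y y', TopEq (Ring.jacobson R • X) y (Ring.jacobson R • X') y' := by
  have := hR.noeth
  obtain ⟨k, hk, hq⟩ := hV.exists_shift_pow hR hsf
  obtain ⟨k', hk', hq'⟩ := hV'.exists_shift_pow hR hsf
  obtain ⟨q, hq⟩ := hq k'
  obtain ⟨q', hq'⟩ := hq' k
  obtain ⟨s, hs⟩ : ∃ s, k * k' = 1 + s := ⟨k * k' - 1, by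
    have := Nat.mul_pos hk hk'; omega⟩
  obtain ⟨A, hAfg, hA0, hA⟩ := hV.exists_cover hR hsf s hX h.ne_bot
  obtain ⟨A', hAfg', hA0', hA'⟩ := hV'.exists_cover hR hsf s hX' h.symm.ne_bot
  rw [← hA, ← hA'] at h
  obtain ⟨a, a', haa⟩ := h.up hR hV.us hV'.us hAfg hAfg'
  have h1 := haa.map_left q.toLinearMap q.injective
  have h2 := h1.symm.map_left q'.toLinearMap q'.injective
  rw [hq A hAfg hA0, hq' A' hAfg' hA0', mul_comm k' k, hs, jp_add, jp_add, jp_one, jp_one,
    hA, hA'] at h2
  exact ⟨_, _, h2.symm⟩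

theorem TopEq.down_jp (hR : Good R) (hsf : SocFree R R) (hV : SFI R V) (hV' : SFI R V')
    {X : Submodule R V} {X' : Submodule R V'} (hX : X.FG) (hX' : X'.FG) {x : V} {x' : V'}
    (h : TopEq X x X' x') (k : ℕ) :
    ∃ y y', TopEq (jp k X) y (jp k X') y' := by
  have := hR.noeth
  induction k with
  | zero => exact ⟨x, x', h⟩
  | succ k ih =>
    obtain ⟨y, y', hy⟩ := ih
    rw [jp_succ, jp_succ]
    exact hy.down hR hsf hV hV' (jp_fg hX k) (jp_fg hX' k)

end Quot

end Pool.Agent.Uni
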