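import Pool.Agent.Uni.Nec4

/-!
Lifting endomorphisms of tops.
-/

namespace Pool.Agent.Uni

universe u v w

open Submodule

section H

variable {R : Type u} [Ring R] {V : Type v} [AddCommGroup V] [Module R V]
  {W : Type w} [AddCommGroup W] [Module R W]

theorem span_singleton_eq_map (x : V) :
    Submodule.span R {x} = (⊤ : Submodule R R).map (LinearMap.toSpanSingleton R V x) := by
  rw [Submodule.map_top, LinearMap.range_toSpanSingleton]

theorem smul_mem_of_jp {x : V} {u : W} {K : Submodule R W}
    (hxu : ∀ r : R, r • x = 0 → r • u ∈ K) {r : R} {l : ℕ}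
    (h : r • x ∈ jp l (Submodule.span R {x})) : r • u ∈ jp l (Submodule.span R {u}) ⊔ K := by
  rw [span_singleton_eq_map, ← map_jp] at h
  obtain ⟨j, hj, hjx⟩ := h
  have h1 : j • x = r • x := by simpa using hjx
  have h2 : (r - j) • u ∈ K := hxu _ (by rw [sub_smul, h1, sub_self])
  have h3 : j • u ∈ jp l (Submodule.span R {u}) := by
    rw [span_singleton_eq_map, ← map_jp]
    exact ⟨j, hj, by simp⟩
  have h4 : r • u = j • u + (r - j) • u := by rw [sub_smul]; abel
  rw [h4]
  exact Submodule.add_mem_sup h3 h2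

end H

/-- One step of the comparison relation. -/
def relStep {R : Type u} [Ring R] {V : Type v} [AddCommGroup V] [Module R V]
    (K JX : Submodule R V) (x : V) (r0 : R) (q : V →ₗ[R] V) (A : AddSubgroup V) :
    AddSubgroup V where
  carrier := {z | ∃ y ∈ A, ∃ z', z' - z ∈ JX ∧ (∀ r : R, r • x ∈ K → r • z' ∈ K) ∧
    r0 • z' - q y ∈ K}
  zero_mem' := ⟨0, A.zero_mem, 0, by simp, by simp, by simp⟩
  add_mem' := by
    rintro a b ⟨y, hy, z, h1, h2, h3⟩ ⟨y', hy', z', h1', h2', h3'⟩
    refine ⟨y + y', A.add_mem hy hy', z + z', ?_, ?_, ?_⟩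
    · have := JX.add_mem h1 h1'
      convert this using 1; abel
    · intro r hr
      rw [smul_add]
      exact K.add_mem (h2 r hr) (h2' r hr)
    · have := K.add_mem h3 h3'
      convert this using 1
      rw [smul_add, map_add]; abel
  neg_mem' := by
    rintro a ⟨y, hy, z, h1, h2, h3⟩
    refine ⟨-y, A.neg_mem hy, -z, ?_, ?_, ?_⟩
    · have := JX.neg_mem h1
      convert this using 1; abel
    · intro r hr
      rw [smul_neg]
      exact K.neg_mem (h2 r hr)
    · have := K.neg_mem h3
      convert this using 1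
      rw [smul_neg, map_neg]; abel

section Lift

variable {R : Type u} [Ring R] {V : Type u} [AddCommGroup V] [Module R V]

theorem relStep_mono (K JX : Submodule R V) (x : V) (r0 : R) (q : V →ₗ[R] V)
    {A B : AddSubgroup V} (h : A ≤ B) : relStep K JX x r0 q A ≤ relStep K JX x r0 q B := by
  rintro z ⟨y, hy, z', h'⟩
  exact ⟨y, h hy, z', h'⟩

/-- Linear independence of a sequence which strictly descends through subgroups stable under
the valuation ring. -/
theorem SFI.false_of_seq (hR : Good R) (hsf : SocFree R R) (hV : SFI R V)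
    {X : Submodule R V} (hX : X.FG) (hX0 : X ≠ ⊥) (M : ℕ → AddSubgroup V)
    (hanti : ∀ k, M (k + 1) ≤ M k) (hMX : ∀ k, ∀ z ∈ M k, z ∈ X)
    (hJX : ∀ k, ∀ z ∈ Ring.jacobson R • X, z ∈ M k)
    (hst : ∀ k, ∀ t : V →ₗ[R] V, X.map t ≤ X → ∀ z ∈ M k, t z ∈ M k)
    (y : ℕ → V) (hy : ∀ k, y k ∈ M k) (hy' : ∀ k, y k ∉ M (k + 1)) : False := by
  classical
  have := hR.noeth
  have hnt : Nontrivial V := hV.uf.1
  have hnoeth := hV.isNoetherian_end hR hsf
  have hanti' : ∀ {i j}, i ≤ j → M j ≤ M i := by
    intro i j hij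
    obtain ⟨m, rfl⟩ := Nat.exists_eq_add_of_le hij
    induction m with
    | zero => exact le_rfl
    | succ m ih => exact (hanti (i + m)).trans (ih (by omega))
  have hli : LinearIndependent (Module.End R V) y := by
    rw [linearIndependent_iff']
    intro s g hg
    by_contra hne
    push Not at hne
    obtain ⟨i1, hi1, hgi1⟩ := hne
    -- an index with maximal image
    have hmax : ∃ i0 ∈ s, ∀ i ∈ s, X.map (g i) ≤ X.map (g i0) := by
      let S : Finset (Submodule R V) := s.image (fun i => X.map (g i))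
      have hSne : S.Nonempty := ⟨_, Finset.mem_image_of_mem _ hi1⟩
      obtain ⟨m, hm⟩ := S.exists_maximal hSne
      obtain ⟨i0, hi0, hi0m⟩ := Finset.mem_image.1 hm.prop
      refine ⟨i0, hi0, fun i hi => ?_⟩
      rcases hV.us (X.map (g i)) (X.map (g i0)) with h | h
      · exact h
      · have h1 : X.map (g i) ∈ S := Finset.mem_image_of_mem _ hi
        rw [hi0m] at h ⊢
        exact hm.le_of_ge h1 h
    obtain ⟨i0, hi0, hmax⟩ := hmax
    have hmap_ne : ∀ g : V →ₗ[R] V, g ≠ 0 → X.map g ≠ ⊥ := by
      intro g hg0 h0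
      apply hX0
      apply Submodule.map_injective_of_injective (hV.bijective_of_ne_zero hR hV g hg0).1
      rw [h0, Submodule.map_bot]
    have hgi0 : g i0 ≠ 0 := by
      intro h0
      apply hmap_ne _ hgi1
      have := hmax i1 hi1
      rw [h0, Submodule.map_zero, le_bot_iff] at this
      exact this
    let e := LinearEquiv.ofBijective (g i0) (hV.bijective_of_ne_zero hR hV _ hgi0)
    let t : ℕ → (V →ₗ[R] V) := fun i => e.symm.toLinearMap ∘ₗ g i
    have ht0 : t i0 = LinearMap.id := by
      ext v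
      exact e.symm_apply_apply v
    have htX : ∀ i ∈ s, X.map (t i) ≤ X := by
      intro i hi
      have h1 : (X.map (g i0)).map e.symm.toLinearMap = X := by
        rw [← Submodule.map_comp]
        have : e.symm.toLinearMap ∘ₗ g i0 = LinearMap.id := ht0
        rw [this, Submodule.map_id]
      calc X.map (t i) = (X.map (g i)).map e.symm.toLinearMap := Submodule.map_comp _ _ _
        _ ≤ (X.map (g i0)).map e.symm.toLinearMap := Submodule.map_mono (hmax i hi)
        _ = X := h1
    have hsum : ∑ i ∈ s, t i (y i) = 0 := by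
      have h1 : e.symm (∑ i ∈ s, g i • y i) = 0 := by rw [hg, map_zero]
      rw [map_sum] at h1
      exact h1
    -- the minimal index acting as a unit
    let s' := s.filter (fun i => ¬ X.map (t i) ≤ Ring.jacobson R • X)
    have hs'ne : s'.Nonempty := by
      refine ⟨i0, Finset.mem_filter.2 ⟨hi0, ?_⟩⟩
      rw [ht0, Submodule.map_id]
      exact (Submodule.FG.jacobson_smul_lt hX0 hX).not_ge
    let i := s'.min' hs'ne
    have his' : i ∈ s' := Finset.min'_mem _ _
    have his : i ∈ s := (Finset.mem_filter.1 his').1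
    have hiu : ¬ X.map (t i) ≤ Ring.jacobson R • X := (Finset.mem_filter.1 his').2
    have hti0 : t i ≠ 0 := by
      intro h0
      apply hiu
      rw [h0, Submodule.map_zero]; exact bot_le
    have htiX : X.map (t i) = X := by
      by_contra hne2
      exact hiu (hV.us.le_of_lt hR.ss hX (lt_of_le_of_ne (htX i his) hne2))
    let f := LinearEquiv.ofBijective (t i) (hV.bijective_of_ne_zero hR hV _ hti0)
    have hfX : X.map f.symm.toLinearMap ≤ X := by
      have h1 : (X.map (t i)).map f.symm.toLinearMap = X := by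
        rw [← Submodule.map_comp]
        have : f.symm.toLinearMap ∘ₗ t i = LinearMap.id := by
          ext v
          exact f.symm_apply_apply v
        rw [this, Submodule.map_id]
      rw [htiX] at h1
      exact h1.le
    have hrest : ∀ j ∈ s.erase i, t j (y j) ∈ M (i + 1) := by
      intro j hj
      have hjs : j ∈ s := Finset.mem_of_mem_erase hj
      have hji : j ≠ i := Finset.ne_of_mem_erase hj
      rcases lt_or_gt_of_ne hji with h | h
      · have hj' : j ∉ s' := by
          intro hj'
          have := Finset.min'_le s' j hj'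
          exact absurd h (not_lt.2 this)
        have hju : X.map (t j) ≤ Ring.jacobson R • X := by
          by_contra hn
          exact hj' (Finset.mem_filter.2 ⟨hjs, hn⟩)
        apply hJX
        exact hju (Submodule.mem_map_of_mem (hMX _ _ (hy j)))
      · have h1 : y j ∈ M (i + 1) := hanti' (by omega) (hy j)
        exact hst (i + 1) (t j) (htX j hjs) _ h1
    have hti : t i (y i) ∈ M (i + 1) := by
      rw [← Finset.add_sum_erase s _ his] at hsum
      have h1 : t i (y i) = -∑ j ∈ s.erase i, t j (y j) := eq_neg_of_add_eq_zero_left hsum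
      rw [h1]
      exact (M (i + 1)).neg_mem ((M (i + 1)).sum_mem hrest)
    apply hy' i
    have h1 := hst (i + 1) f.symm.toLinearMap hfX _ hti
    have h2 : f.symm (t i (y i)) = y i := f.symm_apply_apply _
    have h3 : f.symm.toLinearMap (t i (y i)) = y i := h2
    rw [h3] at h1
    exact h1
  have hntE : Nontrivial (Module.End R V) := inferInstance
  have hfin := hli.finite_of_isNoetherian
  exact not_finite ℕ

end Lift

section Lift2

variable {R : Type u} [Ring R] {V : Type u} [AddCommGroup V] [Module R V]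

theorem SFI.lift_top_aux (hR : Good R) (hsf : SocFree R R) (hV : SFI R V) {x : V} (hx0 : x ≠ 0)
    {n : ℕ} (q : V ≃ₗ[R] V)
    (hq : ∀ X : Submodule R V, X.FG → X ≠ ⊥ → X.map q.toLinearMap = jp n X) {y : V}
    (hxy : ∀ r : R, r • x ∈ Ring.jacobson R • Submodule.span R {x} →
      r • y ∈ Ring.jacobson R • Submodule.span R {x}) (hyX : y ∈ Submodule.span R {x}) :
    ∃ y', y' - y ∈ Ring.jacobson R • Submodule.span R {x} ∧
      ∀ r : R, r • x ∈ jp (n + 1) (Submodule.span R {x}) →
        r • y' ∈ jp (n + 1) (Submodule.span R {x}) := by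
  have := hR.noeth
  set X := Submodule.span R {x} with hXdef
  have hXfg : X.FG := Submodule.fg_span_singleton x
  have hX0 : X ≠ ⊥ := by rw [hXdef, Ne, Submodule.span_singleton_eq_bot]; exact hx0
  have hxX : x ∈ X := Submodule.mem_span_singleton_self x
  set JX := Ring.jacobson R • X with hJXdef
  have hJXfg : JX.FG := jp_fg hXfg 1
  have hJX0 : JX ≠ ⊥ := jp_ne_bot_of_socFree hR.ss hV.us hV.sf hXfg hX0 1
  set K := jp (n + 1) X with hKdef
  have hKq : JX.map q.toLinearMap = K := by
    rw [hq JX hJXfg hJX0, hKdef, jp_add]; rfl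
  have hKfg : K.FG := jp_fg hXfg _
  have hKJX : K ≤ JX := by
    rw [hKdef, hJXdef, ← jp_one]; exact jp_anti (by omega) X
  have hKX : K ≤ X := jp_le _ _
  -- `q x = r0 • x`
  have hqx : q x ∈ X := by
    have h1 : q x ∈ X.map q.toLinearMap := Submodule.mem_map_of_mem hxX
    rw [hq X hXfg hX0] at h1
    exact jp_le _ _ h1
  obtain ⟨r0, hr0⟩ := Submodule.mem_span_singleton.1 hqx
  have hr0n : r0 • x ∈ jp n X := by
    rw [hr0, ← hq X hXfg hX0]; exact Submodule.mem_map_of_mem hxX
  have hbK : Module.Baer R (V ⧸ K) := hV.baer_quotient hR hsf hKfg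
  -- the initial group
  let Δ : AddSubgroup V :=
    { carrier := {y | y ∈ X ∧ ∀ r : R, r • x ∈ JX → r • y ∈ JX}
      zero_mem' := ⟨X.zero_mem, by simp⟩
      add_mem' := by
        rintro a b ⟨h1, h2⟩ ⟨h3, h4⟩
        refine ⟨X.add_mem h1 h3, fun r hr => ?_⟩
        rw [smul_add]; exact JX.add_mem (h2 r hr) (h4 r hr)
      neg_mem' := by
        rintro a ⟨h1, h2⟩
        refine ⟨X.neg_mem h1, fun r hr => ?_⟩
        rw [smul_neg]; exact JX.neg_mem (h2 r hr) }
  let step := relStep K JX x r0 q.toLinearMap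
  let M : ℕ → AddSubgroup V := fun k => step^[k] Δ
  have hMsucc : ∀ k, M (k + 1) = step (M k) := fun k => Function.iterate_succ_apply' _ _ _
  -- properties of lifts
  have hR3 : ∀ z', (∀ r : R, r • x ∈ K → r • z' ∈ K) → z' ∈ Δ := by
    intro z' hz'
    have h1 : z' ∈ X := by
      by_cases h0 : z' = 0
      · rw [h0]; exact X.zero_mem
      have h2 : jp (n + 1) (Submodule.span R {z'}) ≤ jp (n + 1) X := by
        rw [span_singleton_eq_map z', ← map_jp]
        rintro _ ⟨j, hj, rfl⟩
        have h3 : j • x ∈ K := by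
          rw [hKdef, hXdef, span_singleton_eq_map x, ← map_jp]
          exact ⟨j, hj, by simp⟩
        simpa using hz' j h3
      have h4 : Submodule.span R {z'} ≤ X := by
        apply le_of_jp_le hR.ss hV.us (Submodule.fg_span_singleton z') (k := n + 1) _ h2
        apply jp_ne_bot_of_socFree hR.ss hV.us hV.sf (Submodule.fg_span_singleton z')
        rw [Ne, Submodule.span_singleton_eq_bot]; exact h0
      exact h4 (Submodule.mem_span_singleton_self z')
    refine ⟨h1, fun r hr => ?_⟩
    have h5 : r • z' ∈ jp 1 (Submodule.span R {z'}) ⊔ K := by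
      apply smul_mem_of_jp (x := x)
      · intro s hs
        exact hz' s (by rw [hs]; exact zero_mem _)
      · exact hr
    have h6 : jp 1 (Submodule.span R {z'}) ⊔ K ≤ JX := by
      refine sup_le ?_ hKJX
      have h7 : Submodule.span R {z'} ≤ X := by
        rw [Submodule.span_singleton_le_iff_mem]; exact h1
      exact jp_mono 1 h7
    exact h6 h5
  have hJXΔ : ∀ z ∈ JX, z ∈ Δ := by
    intro z hz
    exact ⟨jsmul_le X hz, fun r _ => JX.smul_mem r hz⟩
  have hM10 : M 1 ≤ M 0 := by
    rintro z ⟨y, hy, z', h1, h2, h3⟩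
    have h4 := hR3 z' h2
    have h5 : z = z' - (z' - z) := by abel
    change z ∈ Δ
    rw [h5]
    exact Δ.sub_mem h4 (hJXΔ _ h1)
  have hanti : ∀ k, M (k + 1) ≤ M k := by
    intro k
    induction k with
    | zero => exact hM10
    | succ k ih =>
      rw [hMsucc (k + 1)]
      conv_rhs => rw [hMsucc k]
      exact relStep_mono _ _ _ _ _ ih
  have hMΔ : ∀ k, M k ≤ Δ := by
    intro k
    induction k with
    | zero => exact le_rfl
    | succ k ih => exact (hanti k).trans ih
  have hMX : ∀ k, ∀ z ∈ M k, z ∈ X := fun k z hz => (hMΔ k hz).1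
  have hJXM : ∀ k, ∀ z ∈ JX, z ∈ M k := by
    intro k z hz
    cases k with
    | zero => exact hJXΔ z hz
    | succ k =>
      rw [hMsucc]
      refine ⟨0, zero_mem _, 0, ?_, by simp, by simp⟩
      rw [zero_sub]; exact JX.neg_mem hz
  have hst : ∀ k, ∀ t : V →ₗ[R] V, X.map t ≤ X → ∀ z ∈ M k, t z ∈ M k := by
    intro k
    induction k with
    | zero =>
      rintro t ht z ⟨h1, h2⟩
      refine ⟨ht (Submodule.mem_map_of_mem h1), fun r hr => ?_⟩
      have h3 : JX.map t ≤ JX := by
        rw [hJXdef, map_jsmul]; exact smul_mono_right _ ht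
      rw [← map_smul]
      exact h3 (Submodule.mem_map_of_mem (h2 r hr))
    | succ k ih =>
      intro t ht z hz
      rw [hMsucc] at hz ⊢
      obtain ⟨y, hy, z', h1, h2, h3⟩ := hz
      have hJt : JX.map t ≤ JX := by
        rw [hJXdef, map_jsmul]; exact smul_mono_right _ ht
      have hKt : K.map t ≤ K := by
        rw [hKdef, map_jp]; exact jp_mono _ ht
      let t' : V →ₗ[R] V := q.symm.toLinearMap ∘ₗ t ∘ₗ q.toLinearMap
      have ht' : X.map t' ≤ X := by
        have e1 : X.map t' = ((X.map q.toLinearMap).map t).map q.symm.toLinearMap := by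
          rw [← Submodule.map_comp, ← Submodule.map_comp]
          rfl
        have e2 : (X.map q.toLinearMap).map t ≤ X.map q.toLinearMap := by
          rw [hq X hXfg hX0, map_jp]; exact jp_mono _ ht
        have e3 : (X.map q.toLinearMap).map q.symm.toLinearMap = X := by
          rw [← Submodule.map_comp]
          have : q.symm.toLinearMap ∘ₗ q.toLinearMap = LinearMap.id := by ext v; simp
          rw [this, Submodule.map_id]
        rw [e1]
        calc _ ≤ (X.map q.toLinearMap).map q.symm.toLinearMap := Submodule.map_mono e2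
          _ = X := e3
      refine ⟨t' y, ih t' ht' y hy, t z', ?_, ?_, ?_⟩
      · rw [← map_sub]; exact hJt (Submodule.mem_map_of_mem h1)
      · intro r hr
        rw [← map_smul]; exact hKt (Submodule.mem_map_of_mem (h2 r hr))
      · have e4 : q.toLinearMap (t' y) = t (q y) := by simp [t']
        rw [e4, ← map_smul]
        have e5 : t (r0 • z') - t (q y) = t (r0 • z' - q.toLinearMap y) := by
          rw [map_sub]; rfl
        rw [e5]
        exact hKt (Submodule.mem_map_of_mem h3)
  -- existence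
  have hex : ∀ k, ∀ y ∈ M k, ∃ z ∈ M (k + 1), ∃ z', z' - z ∈ JX ∧
      (∀ r : R, r • x ∈ K → r • z' ∈ K) ∧ r0 • z' - q y ∈ K := by
    intro k y hy
    have hyΔ := hMΔ k hy
    obtain ⟨φ, hφ⟩ := exists_map_of_baer hbK (K.mkQ (q x)) (K.mkQ (q y)) (by
      intro r hr
      rw [← map_smul, Submodule.mkQ_apply, Submodule.Quotient.mk_eq_zero, ← map_smul, ← hKq] at hr
      have h1 : r • x ∈ JX := by
        obtain ⟨w, hw, hwx⟩ := hr
        have : w = r • x := q.injective hwx
        rwa [← this]
      have h2 := hyΔ.2 r h1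
      rw [← map_smul, Submodule.mkQ_apply, Submodule.Quotient.mk_eq_zero, ← map_smul, ← hKq]
      exact Submodule.mem_map_of_mem h2)
    obtain ⟨z, hz⟩ := K.mkQ_surjective (φ (K.mkQ x))
    have h2 : ∀ r : R, r • x ∈ K → r • z ∈ K := by
      intro r hr
      rw [← Submodule.Quotient.mk_eq_zero K, ← Submodule.mkQ_apply, map_smul, hz, ← map_smul,
        ← map_smul]
      have : K.mkQ (r • x) = 0 := by
        rw [Submodule.mkQ_apply, Submodule.Quotient.mk_eq_zero]; exact hr
      rw [this, map_zero]
    have h3 : r0 • z - q y ∈ K := by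
      rw [← Submodule.Quotient.mk_eq_zero K, ← Submodule.mkQ_apply, map_sub, map_smul, hz,
        ← map_smul, ← map_smul, hr0, hφ, sub_self]
    refine ⟨z, ?_, z, by simp, h2, h3⟩
    rw [hMsucc]
    exact ⟨y, hy, z, by simp, h2, h3⟩
  -- injectivity
  have hinj : ∀ u ∈ JX, (∀ r : R, r • x ∈ K → r • u ∈ K) → r0 • u ∈ K := by
    intro u hu h
    have h1 : r0 • u ∈ jp n (Submodule.span R {u}) ⊔ K := by
      apply smul_mem_of_jp (x := x)
      · intro s hs
        exact h s (by rw [hs]; exact zero_mem _)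
      · exact hr0n
    have h2 : jp n (Submodule.span R {u}) ⊔ K ≤ K := by
      refine sup_le ?_ le_rfl
      have h7 : Submodule.span R {u} ≤ JX := by
        rw [Submodule.span_singleton_le_iff_mem]; exact hu
      have h8 : jp n JX = K := by
        rw [hKdef, jp_succ']
      rw [← h8]
      exact jp_mono n h7
    exact h2 h1
  have hback : ∀ k, ∀ y z : V, (∃ z', z' - z ∈ JX ∧ (∀ r : R, r • x ∈ K → r • z' ∈ K) ∧
      r0 • z' - q y ∈ K) → z ∈ M (k + 1) → y ∈ M k := by
    rintro k y z ⟨z1, h1, h2, h3⟩ hz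
    rw [hMsucc] at hz
    obtain ⟨w, hw, z2, h4, h5, h6⟩ := hz
    have h7 : z1 - z2 ∈ JX := by
      have := JX.sub_mem h1 h4
      convert this using 1; abel
    have h8 : r0 • (z1 - z2) ∈ K := by
      apply hinj _ h7
      intro r hr
      rw [smul_sub]; exact K.sub_mem (h2 r hr) (h5 r hr)
    have h9 : q (y - w) ∈ K := by
      have h10 := K.sub_mem h8 (K.sub_mem h3 h6)
      have e : r0 • (z1 - z2) - (r0 • z1 - q y - (r0 • z2 - q.toLinearMap w)) = q (y - w) := by
        rw [smul_sub, map_sub]
        have : q.toLinearMap w = q w := rfl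
        rw [this]; abel
      rw [e] at h10
      exact h10
    rw [← hKq] at h9
    obtain ⟨v, hv, hvq⟩ := h9
    have h11 : v = y - w := q.injective hvq
    rw [h11] at hv
    have h12 : y = w + (y - w) := by abel
    rw [h12]
    exact (M k).add_mem hw (hJXM k _ hv)
  -- conclusion
  have hy0 : y ∈ M 0 := ⟨hyX, hxy⟩
  by_cases hy1 : y ∈ M 1
  · have h1 : y ∈ step (M 0) := hy1
    obtain ⟨w, -, z', h2, h3, -⟩ := h1
    exact ⟨z', h2, h3⟩
  · exfalso
    have hseq : ∀ k, ∀ y, (y ∈ M k ∧ y ∉ M (k + 1)) → ∃ z, z ∈ M (k + 1) ∧ z ∉ M (k + 2) := by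
      rintro k y ⟨h1, h2⟩
      obtain ⟨z, hz, hz'⟩ := hex k y h1
      refine ⟨z, hz, fun h3 => h2 ?_⟩
      exact hback (k + 1) y z hz' h3
    let Y : (k : ℕ) → {y : V // y ∈ M k ∧ y ∉ M (k + 1)} := fun k =>
      Nat.rec ⟨y, hy0, hy1⟩
        (fun k ih => ⟨(hseq k ih.1 ih.2).choose, (hseq k ih.1 ih.2).choose_spec⟩) k
    exact hV.false_of_seq hR hsf hXfg hX0 M hanti hMX hJXM hst (fun k => (Y k).1)
      (fun k => (Y k).2.1) (fun k => (Y k).2.2)

/-- Every endomorphism of the top of `X` lifts to an endomorphism of `X / Y`. -/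
theorem SFI.lift_top (hR : Good R) (hsf : SocFree R R) (hV : SFI R V) {X : Submodule R V}
    (hX : X.FG) {x y : V} (hx : x ∈ X) (hx' : x ∉ Ring.jacobson R • X)
    (hy : y ∈ X)
    (hxy : ∀ r : R, r • x ∈ Ring.jacobson R • X → r • y ∈ Ring.jacobson R • X)
    {Y : Submodule R V} (hY : Y ≤ X) (hY0 : Y ≠ ⊥) :
    ∃ y', y' - y ∈ Ring.jacobson R • X ∧ ∀ r : R, r • x ∈ Y → r • y' ∈ Y := by
  have := hR.noeth
  have hXspan : X = Submodule.span R {x} := by
    apply le_antisymm
    · by_contra hn
      have h1 : Submodule.span R {x} < X := lt_of_le_of_ne ((hV.us _ _).resolve_left hn)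
        (fun h => hn h.symm.le)
      exact hx' (hV.us.le_of_lt hR.ss hX h1 (Submodule.mem_span_singleton_self x))
    · rw [Submodule.span_singleton_le_iff_mem]; exact hx
  subst hXspan
  have hx0 : x ≠ 0 := by
    intro h0
    apply hx'
    rw [h0]; exact zero_mem _
  have hX0 : Submodule.span R {x} ≠ ⊥ := by rw [Ne, Submodule.span_singleton_eq_bot]; exact hx0
  obtain ⟨l, hl⟩ := exists_eq_jp hR hV.us hV.sf hX hY hY0
  obtain ⟨h, hh, hq⟩ := hV.exists_shift_pow hR hsf
  obtain ⟨q, hq⟩ := hq l
  obtain ⟨y', h1, h2⟩ := hV.lift_top_aux hR hsf hx0 q hq hxy hy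
  refine ⟨y', h1, fun r hr => ?_⟩
  have hlh : l ≤ l * h + 1 := by
    have : l * 1 ≤ l * h := Nat.mul_le_mul_left l hh
    omega
  have h3 : r • y' ∈ jp l (Submodule.span R {y'}) ⊔ jp (l * h + 1) (Submodule.span R {x}) := by
    apply smul_mem_of_jp (x := x)
    · intro s hs
      apply h2
      rw [hs]; exact zero_mem _
    · rw [← hl]; exact hr
  have hy' : y' ∈ Submodule.span R {x} := by
    have : y' = (y' - y) + y := by abel
    rw [this]
    exact Submodule.add_mem _ (jsmul_le _ h1) hy
  have h4 : jp l (Submodule.span R {y'}) ⊔ jp (l * h + 1) (Submodule.span R {x}) ≤ Y := by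
    rw [hl]
    refine sup_le (jp_mono l ?_) (jp_anti hlh _)
    rw [Submodule.span_singleton_le_iff_mem]; exact hy'
  exact h4 h3

end Lift2

end Pool.Agent.Uni
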