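import Pool.Agent.Uni.Nec5

/-!
Local modules of finite length are uniserial (for rings without left socle).
-/

namespace Pool.Agent.Uni

universe u v w

open Submodule

section Span

variable {R : Type u} [Ring R] {V : Type v} [AddCommGroup V] [Module R V]

theorem eq_span_of_not_mem (hs : IsSemisimpleRing (R ⧸ Ring.jacobson R)) (hV : IsUniserial R V)
    {X : Submodule R V} (hX : X.FG) {x : V} (hx : x ∈ X) (hx' : x ∉ Ring.jacobson R • X) :
    X = Submodule.span R {x} := by
  apply le_antisymm
  · by_contra hn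
    have h1 : Submodule.span R {x} < X := lt_of_le_of_ne ((hV _ _).resolve_left hn)
      (fun h => hn h.symm.le)
    exact hx' (hV.le_of_lt hs hX h1 (Submodule.mem_span_singleton_self x))
  · rw [Submodule.span_singleton_le_iff_mem]; exact hx

theorem not_mem_jsmul_span {x : V} (hx : x ≠ 0) :
    x ∉ Ring.jacobson R • Submodule.span R {x} := by
  intro h
  have h0 : Submodule.span R {x} ≠ ⊥ := by
    rw [Ne, Submodule.span_singleton_eq_bot]; exact hx
  apply (Submodule.FG.jacobson_smul_lt h0 (Submodule.fg_span_singleton x)).not_ge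
  rw [Submodule.span_singleton_le_iff_mem]; exact h

/-- The length of `(R a + K) / K` (for uniserial socle free modules). -/
noncomputable def len (K : Submodule R V) (a : V) : ℕ :=
  sInf {k | jp k (Submodule.span R {a}) ≤ K}

end Span

section Len

variable {R : Type u} [Ring R] {V : Type u} [AddCommGroup V] [Module R V]
  {V' : Type u} [AddCommGroup V'] [Module R V']

theorem SFI.len_spec (hR : Good R) (hV : SFI R V) {K : Submodule R V} (hK0 : K ≠ ⊥) (a : V) :
    jp (len K a) (Submodule.span R {a}) ≤ K := by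
  have hne : {k | jp k (Submodule.span R {a}) ≤ K}.Nonempty := by
    rcases hV.us (Submodule.span R {a}) K with h | h
    · exact ⟨0, h⟩
    · obtain ⟨k, hk⟩ := exists_eq_jp hR hV.us hV.sf (Submodule.fg_span_singleton a) h hK0
      exact ⟨k, hk.symm.le⟩
  exact Nat.sInf_mem hne

theorem len_le {K : Submodule R V} {a : V} {k : ℕ} (h : jp k (Submodule.span R {a}) ≤ K) :
    len K a ≤ k := Nat.sInf_le h

theorem SFI.len_eq_zero (hR : Good R) (hV : SFI R V) {K : Submodule R V} (hK0 : K ≠ ⊥) {a : V} :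
    len K a = 0 ↔ a ∈ K := by
  constructor
  · intro h
    have h1 := hV.len_spec hR hK0 a
    rw [h, jp_zero, Submodule.span_singleton_le_iff_mem] at h1
    exact h1
  · intro h
    have h1 : len K a ≤ 0 := by
      apply len_le
      rw [jp_zero, Submodule.span_singleton_le_iff_mem]; exact h
    omega

theorem SFI.eq_jp_len (hR : Good R) (hV : SFI R V) {K : Submodule R V} (hK0 : K ≠ ⊥) {a : V}
    (ha : a ∉ K) : K = jp (len K a) (Submodule.span R {a}) := by
  have := hR.noeth
  have h1 : ¬ Submodule.span R {a} ≤ K := by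
    rw [Submodule.span_singleton_le_iff_mem]; exact ha
  have h2 := (hV.us _ _).resolve_left h1
  obtain ⟨k, hk⟩ := exists_eq_jp hR hV.us hV.sf (Submodule.fg_span_singleton a) h2 hK0
  have h3 : len K a ≤ k := len_le hk.symm.le
  apply le_antisymm
  · exact hk.le.trans (jp_anti h3 _)
  · exact hV.len_spec hR hK0 a

theorem SFI.len_lt (hR : Good R) (hV : SFI R V) {K : Submodule R V} (hK0 : K ≠ ⊥) {a a' : V}
    (ha : a ∉ K) (ha' : a' ∈ Ring.jacobson R • Submodule.span R {a}) : len K a' < len K a := by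
  have h1 : len K a ≠ 0 := fun h => ha ((hV.len_eq_zero hR hK0).1 h)
  obtain ⟨k, hk⟩ := Nat.exists_eq_succ_of_ne_zero h1
  have h2 : len K a' ≤ k := by
    apply len_le
    have h3 : Submodule.span R {a'} ≤ Ring.jacobson R • Submodule.span R {a} := by
      rw [Submodule.span_singleton_le_iff_mem]; exact ha'
    refine (jp_mono k h3).trans ?_
    rw [← jp_succ', ← Nat.succ_eq_add_one, ← hk]
    exact hV.len_spec hR hK0 a
  omega

/-- Comparison of two cyclic modules with the same top. -/
theorem SFI.compare (hR : Good R) (hsf : SocFree R R) (hV : SFI R V) (hV' : SFI R V')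
    {K : Submodule R V} {K' : Submodule R V'} (hK0 : K ≠ ⊥) (hK0' : K' ≠ ⊥)
    (hK' : K'.FG)
    {a : V} {a' : V'} (ha : a ∉ K) (ha' : a' ∉ K') (hlen : len K' a' ≤ len K a)
    (htop : ∀ r : R, r • a ∈ Ring.jacobson R • Submodule.span R {a} ↔
      r • a' ∈ Ring.jacobson R • Submodule.span R {a'}) :
    ∃ b : V', b - a' ∈ Ring.jacobson R • Submodule.span R {a'} ∧
      ∀ r : R, r • a ∈ K → r • b ∈ K' := by
  have := hR.noeth
  set A := Submodule.span R {a} with hA
  set A' := Submodule.span R {a'} with hA'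
  have hAfg : A.FG := Submodule.fg_span_singleton a
  have hAfg' : A'.FG := Submodule.fg_span_singleton a'
  have ha0 : a ≠ 0 := fun h => ha (by rw [h]; exact zero_mem _)
  have ha0' : a' ≠ 0 := fun h => ha' (by rw [h]; exact zero_mem _)
  have hA0 : A ≠ ⊥ := by rw [hA, Ne, Submodule.span_singleton_eq_bot]; exact ha0
  have hA0' : A' ≠ ⊥ := by rw [hA', Ne, Submodule.span_singleton_eq_bot]; exact ha0'
  have haA : a ∈ A := Submodule.mem_span_singleton_self a
  have haA' : a' ∈ A' := Submodule.mem_span_singleton_self a'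
  have hl0 : len K' a' ≠ 0 := fun h => ha' ((hV'.len_eq_zero hR hK0').1 h)
  obtain ⟨m, hm⟩ := Nat.exists_eq_succ_of_ne_zero hl0
  have hKA' : K' = jp (m + 1) A' := by
    have := hV'.eq_jp_len hR hK0' ha'
    rw [hm] at this; exact this
  have hKA : K = jp (len K a) A := hV.eq_jp_len hR hK0 ha
  have hKle : K ≤ jp (m + 1) A := by
    rw [hKA]; apply jp_anti; omega
  have hte : TopEq A a A' a' :=
    ⟨haA, not_mem_jsmul_span ha0, haA', not_mem_jsmul_span ha0', htop⟩
  obtain ⟨y, y', hyy⟩ := hte.down_jp hR hsf hV hV' hAfg hAfg' m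
  have hbK' : Module.Baer R (V' ⧸ K') := hV'.baer_quotient hR hsf hK'
  have hJy : Ring.jacobson R • jp m A = jp (m + 1) A := (jp_succ _ _).symm
  have hJy' : Ring.jacobson R • jp m A' = K' := by rw [hKA', jp_succ]
  -- the map `φ : V → V' / K'`
  let K1 := jp (m + 1) A
  obtain ⟨ψ, hψ⟩ := exists_map_of_baer hbK' (K1.mkQ y) (K'.mkQ y') (by
    intro r hr
    rw [← map_smul, Submodule.mkQ_apply, Submodule.Quotient.mk_eq_zero] at hr
    rw [← map_smul, Submodule.mkQ_apply, Submodule.Quotient.mk_eq_zero, ← hJy']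
    apply (hyy.iff r).1
    rw [hJy]; exact hr)
  have hψi : Function.Injective ψ := by
    apply injective_of_socle hR.ss (hV.us.quotient K1) (K1.mkQ y)
    · intro r hr
      rw [← map_smul, Submodule.mkQ_apply, Submodule.Quotient.mk_eq_zero]
      change r • y ∈ jp (m + 1) A
      rw [← hJy]
      exact Submodule.smul_mem_smul hr hyy.memX
    · rw [hψ, Submodule.mkQ_apply, Ne, Submodule.Quotient.mk_eq_zero, ← hJy']
      exact hyy.notMemY
  let φ : V →ₗ[R] V' ⧸ K' := ψ ∘ₗ K1.mkQ
  have hkφ : LinearMap.ker φ = K1 := by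
    rw [LinearMap.ker_comp, LinearMap.ker_eq_bot.2 hψi, Submodule.comap_bot, Submodule.ker_mkQ]
  have hmapeq : A.map φ = A'.map K'.mkQ := by
    apply map_eq_map_of_length hR.ss (hV'.us.quotient K') hAfg hAfg' (s := m)
    · rw [hkφ]
    · rw [Submodule.ker_mkQ, ← hKA']
    · rw [hkφ]
      intro h
      have h5 : y ∈ jp (m + 1) A := h hyy.memX
      rw [← hJy] at h5
      exact hyy.notMemX h5
    · rw [Submodule.ker_mkQ]
      intro h
      have := h hyy.memY
      rw [← hJy'] at this
      exact hyy.notMemY this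
  have h1 : φ a ∈ A'.map K'.mkQ := by
    rw [← hmapeq]; exact Submodule.mem_map_of_mem haA
  obtain ⟨c, hcA, hc⟩ := h1
  have hK1J : K1 ≤ Ring.jacobson R • A := by
    rw [← jp_one]; exact jp_anti (by omega) A
  have hK'J : K' ≤ Ring.jacobson R • A' := by
    rw [hKA', ← jp_one]; exact jp_anti (by omega) A'
  have hac : ∀ r : R, r • a ∈ Ring.jacobson R • A ↔ r • c ∈ Ring.jacobson R • A' := by
    intro r
    have e1 : LinearMap.ker φ ≤ Ring.jacobson R • A := by rw [hkφ]; exact hK1J
    have e2 : LinearMap.ker K'.mkQ ≤ Ring.jacobson R • A' := by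
      rw [Submodule.ker_mkQ]; exact hK'J
    rw [← mem_map_iff_of_ker_le e1, ← mem_map_iff_of_ker_le e2, map_jsmul, map_jsmul, hmapeq,
      map_smul, map_smul, hc]
  have hc' : c ∉ Ring.jacobson R • A' := by
    intro h
    have := (hac 1).2 (by rwa [one_smul])
    rw [one_smul] at this
    exact not_mem_jsmul_span ha0 this
  have hK'A' : K' ≤ A' := by rw [hKA']; exact jp_le _ _
  obtain ⟨b, hb, hb'⟩ := hV'.lift_top hR hsf hAfg' hcA hc' haA'
    (fun r hr => (htop r).1 ((hac r).2 hr)) hK'A' hK0'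
  refine ⟨b, hb, fun r hr => hb' r ?_⟩
  have h2 : r • a ∈ K1 := hKle hr
  rw [← hkφ] at h2
  have h3 : φ (r • a) = 0 := h2
  rw [map_smul, ← hc, ← map_smul, Submodule.mkQ_apply, Submodule.Quotient.mk_eq_zero] at h3
  exact h3

end Len

end Pool.Agent.Uni
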