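import Pool.Agent.Uni.Nec6

/-!
Local modules of finite length are uniserial (for rings without left socle), continued.
-/

namespace Pool.Agent.Uni

universe u v w

open Submodule

section Loc

variable {R : Type u} [Ring R]

theorem top_iff_of_local (hR : Good R) {V : Type u} [AddCommGroup V] [Module R V]
    (hV : SFI R V) {L m : Submodule R R} (hm : m ≠ ⊤)
    (hloc : ∀ I : Submodule R R, L ≤ I → I ≠ ⊤ → I ≤ m)
    {K : Submodule R V} {a : V} (ha : a ∉ K)
    (hLK : ∀ r ∈ L, r • a ∈ K) (r : R) :
    r • a ∈ Ring.jacobson R • Submodule.span R {a} ↔ r ∈ m := by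
  have ha0 : a ≠ 0 := fun h => ha (by rw [h]; exact zero_mem _)
  have hfg : (Submodule.span R {a}).FG := Submodule.fg_span_singleton a
  have h1 : ¬ Submodule.span R {a} ≤ K := by
    rw [Submodule.span_singleton_le_iff_mem]; exact ha
  have h2 : K < Submodule.span R {a} :=
    lt_of_le_of_ne ((hV.us _ _).resolve_left h1) (fun h => h1 h.symm.le)
  have h3 : K ≤ Ring.jacobson R • Submodule.span R {a} := hV.us.le_of_lt hR.ss hfg h2
  constructor
  · intro hr
    let I : Submodule R R := (Ring.jacobson R • Submodule.span R {a}).comap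
      (LinearMap.toSpanSingleton R V a)
    have hI : I ≤ m := by
      apply hloc
      · intro s hs
        exact h3 (hLK s hs)
      · intro h
        have h4 : (1 : R) ∈ I := by rw [h]; trivial
        have h5 : (1 : R) • a ∈ Ring.jacobson R • Submodule.span R {a} := h4
        rw [one_smul] at h5
        exact not_mem_jsmul_span ha0 h5
    exact hI hr
  · intro hr
    by_contra hn
    have h4 : r • a ∈ Submodule.span R {a} :=
      Submodule.smul_mem _ r (Submodule.mem_span_singleton_self a)
    have h5 := eq_span_of_not_mem hR.ss hV.us hfg h4 hn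
    have h6 : a ∈ Submodule.span R {r • a} := by
      rw [← h5]; exact Submodule.mem_span_singleton_self a
    obtain ⟨s, hs⟩ := Submodule.mem_span_singleton.1 h6
    let C : Submodule R R := K.comap (LinearMap.toSpanSingleton R V a)
    have hC : C ≤ m := by
      apply hloc
      · intro s hs
        exact hLK s hs
      · intro h
        have h7 : (1 : R) ∈ C := by rw [h]; trivial
        have h8 : (1 : R) • a ∈ K := h7
        rw [one_smul] at h8
        exact ha h8
    have h9 : 1 - s * r ∈ C := by
      change (1 - s * r) • a ∈ K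
      rw [sub_smul, one_smul, mul_smul, hs, sub_self]
      exact zero_mem _
    have h10 : (1 : R) ∈ m := by
      have h11 : (1 : R) = (1 - s * r) + s • r := by simp
      rw [h11]
      exact m.add_mem (hC h9) (m.smul_mem s hr)
    apply hm
    rw [eq_top_iff]
    intro x _
    have := m.smul_mem x h10
    simpa using this

theorem uniserial_of_family (hR : Good R) (hsf : SocFree R R) {n : ℕ} (V : Fin n → Type u)
    [∀ i, AddCommGroup (V i)] [∀ i, Module R (V i)] (hV : ∀ i, SFI R (V i))
    (K : ∀ i, Submodule R (V i)) (hK : ∀ i, (K i).FG) (hK0 : ∀ i, K i ≠ ⊥)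
    {L m : Submodule R R} (hLm : L ≤ m) (hm : m ≠ ⊤)
    (hloc : ∀ I : Submodule R R, L ≤ I → I ≠ ⊤ → I ≤ m) (N : ℕ) :
    ∀ a : ∀ i, V i, (∑ i, len (K i) (a i) = N) →
      (∀ r : R, r ∈ L ↔ ∀ i, r • a i ∈ K i) → IsUniserial R (R ⧸ L) := by
  classical
  induction N using Nat.strong_induction_on with
  | _ N ih =>
  intro a hN hL
  by_cases hex : ∃ i j, i ≠ j ∧ a i ∉ K i ∧ a j ∉ K j ∧ len (K j) (a j) ≤ len (K i) (a i)
  · obtain ⟨i, j, hij, hai, haj, hlen⟩ := hex
    have hti := top_iff_of_local hR (hV i) hm hloc hai (fun r hr => (hL r).1 hr i)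
    have htj := top_iff_of_local hR (hV j) hm hloc haj (fun r hr => (hL r).1 hr j)
    obtain ⟨b, hb, hb'⟩ := (hV i).compare hR hsf (hV j) (hK0 i) (hK0 j) (hK j) hai haj hlen
      (fun r => (hti r).trans (htj r).symm)
    let a' : ∀ i, V i := Function.update a j (a j - b)
    have ha'j : a' j = a j - b := Function.update_self _ _ _
    have ha'k : ∀ k, k ≠ j → a' k = a k := fun k hk => Function.update_of_ne hk _ _
    have hmem : a j - b ∈ Ring.jacobson R • Submodule.span R {a j} := by
      have := Submodule.neg_mem _ hb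
      rwa [neg_sub] at this
    have hlt : len (K j) (a j - b) < len (K j) (a j) := (hV j).len_lt hR (hK0 j) haj hmem
    have hsum : ∑ k, len (K k) (a' k) < N := by
      rw [← hN]
      apply Finset.sum_lt_sum
      · intro k _
        by_cases hk : k = j
        · subst hk
          rw [ha'j]; exact hlt.le
        · rw [ha'k k hk]
      · exact ⟨j, Finset.mem_univ j, by rw [ha'j]; exact hlt⟩
    apply ih _ hsum a' rfl
    intro r
    rw [hL r]
    constructor
    · intro h k
      by_cases hk : k = j
      · subst hk
        rw [ha'j, smul_sub]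
        exact (K k).sub_mem (h k) (hb' r (h i))
      · rw [ha'k k hk]; exact h k
    · intro h k
      have hi : r • a i ∈ K i := by
        have := h i
        rwa [ha'k i hij] at this
      by_cases hk : k = j
      · subst hk
        have h1 := h k
        rw [ha'j, smul_sub] at h1
        have h2 := (K k).add_mem h1 (hb' r hi)
        rwa [sub_add_cancel] at h2
      · have := h k
        rwa [ha'k k hk] at this
  · push Not at hex
    -- at most one active index
    have huniq : ∀ i j, a i ∉ K i → a j ∉ K j → i = j := by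
      intro i j hi hj
      by_contra hne
      rcases le_total (len (K j) (a j)) (len (K i) (a i)) with h | h
      · exact absurd h (not_le.2 (hex i j hne hi hj))
      · exact absurd h (not_le.2 (hex j i (Ne.symm hne) hj hi))
    by_cases hact : ∃ i, a i ∉ K i
    · obtain ⟨i, hi⟩ := hact
      have hL' : ∀ r : R, r ∈ L ↔ r • a i ∈ K i := by
        intro r
        rw [hL r]
        constructor
        · intro h; exact h i
        · intro h k
          by_cases hk : k = i
          · subst hk; exact h
          · have h1 : a k ∈ K k := by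
              by_contra hn
              exact hk (huniq k i hn hi)
            exact (K k).smul_mem r h1
      let f : R →ₗ[R] (V i ⧸ K i) := LinearMap.toSpanSingleton R _ ((K i).mkQ (a i))
      have hker : LinearMap.ker f = L := by
        ext r
        rw [hL' r]
        change r • (K i).mkQ (a i) = 0 ↔ _
        rw [← map_smul, Submodule.mkQ_apply, Submodule.Quotient.mk_eq_zero]
      let g : (R ⧸ L) →ₗ[R] (V i ⧸ K i) := L.liftQ f hker.symm.le
      have hg : Function.Injective g := by
        rw [← LinearMap.ker_eq_bot]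
        exact Submodule.ker_liftQ_eq_bot _ _ _ hker.le
      exact IsUniserial.of_injective g hg ((hV i).us.quotient (K i))
    · exfalso
      push Not at hact
      apply hm
      rw [eq_top_iff]
      intro x _
      apply hLm
      rw [hL x]
      intro i
      exact (K i).smul_mem x (hact i)

/-- A module of finite length has a nonzero element killed by `J`. -/
theorem exists_killed {M : Type v} [AddCommGroup M] [Module R M] [Nontrivial M] {l : ℕ}
    (hl : jp l (⊤ : Submodule R M) = ⊥) :
    ∃ w : M, w ≠ 0 ∧ ∀ r ∈ Ring.jacobson R, r • w = 0 := by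
  induction l with
  | zero =>
    rw [jp_zero] at hl
    exact absurd hl top_ne_bot
  | succ l ih =>
    by_cases h : jp l (⊤ : Submodule R M) = ⊥
    · exact ih h
    · obtain ⟨w, hw, hw0⟩ := Submodule.exists_mem_ne_zero_of_ne_bot h
      refine ⟨w, hw0, fun r hr => ?_⟩
      rw [jp_succ] at hl
      have h1 : r • w ∈ Ring.jacobson R • jp l (⊤ : Submodule R M) :=
        Submodule.smul_mem_smul hr hw
      rw [hl, Submodule.mem_bot] at h1
      exact h1

theorem uniserial_of_local (hR : Good R) (hsf : SocFree R R) {L m : Submodule R R}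
    (hLm : L ≤ m) (hm : m ≠ ⊤) (hloc : ∀ I : Submodule R R, L ≤ I → I ≠ ⊤ → I ≤ m) {l : ℕ}
    (hl : jp l (⊤ : Submodule R R) ≤ L) : IsUniserial R (R ⧸ L) := by
  classical
  have := hR.noeth
  obtain ⟨s, hs, hirr⟩ := exists_infIrred_decomposition L
  have key : ∀ I : s, ∃ (V : Type u) (_ : AddCommGroup V) (_ : Module R V)
      (K : Submodule R V) (a : V), SFI R V ∧ K.FG ∧ K ≠ ⊥ ∧ ∀ r : R, r ∈ I.1 ↔ r • a ∈ K := by
    intro I
    have hU := isUniform_quotient_of_infIrred (hirr I.2)
    have hLI : L ≤ I.1 := by rw [← hs]; exact Finset.inf_le I.2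
    obtain ⟨E, iE, mE, huE, hbE, ι, hι⟩ := hR.hulls (R ⧸ I.1) hU
    have hnt : Nontrivial (R ⧸ I.1) := hU.1
    have hjp : jp l (⊤ : Submodule R (R ⧸ I.1)) = ⊥ := by
      have h1 : (⊤ : Submodule R (R ⧸ I.1)) = (⊤ : Submodule R R).map I.1.mkQ := by
        rw [Submodule.map_top, Submodule.range_mkQ]
      rw [h1, ← map_jp, ← le_bot_iff, Submodule.map_le_iff_le_comap, Submodule.comap_bot,
        Submodule.ker_mkQ]
      exact hl.trans hLI
    obtain ⟨w, hw0, hw⟩ := exists_killed hjp
    obtain ⟨V, iV, mV, g, hV, hg, hk, hk0⟩ := exists_sfi_surj hR hsf huE hbE (e := ι w)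
      (by intro h; apply hw0; apply hι; rw [h, map_zero])
      (by intro r hr; rw [← map_smul, hw r hr, map_zero])
    obtain ⟨a, ha⟩ := hg (ι (I.1.mkQ 1))
    refine ⟨V, iV, mV, LinearMap.ker g, a, hV, hk, hk0, fun r => ?_⟩
    rw [LinearMap.mem_ker, map_smul, ha, ← map_smul, ← map_smul]
    have h2 : r • (1 : R) = r := by simp
    rw [h2]
    constructor
    · intro hr
      have : I.1.mkQ r = 0 := by
        rw [Submodule.mkQ_apply, Submodule.Quotient.mk_eq_zero]; exact hr
      rw [this, map_zero]
    · intro hr
      have : I.1.mkQ r = 0 := by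
        apply hι; rw [hr, map_zero]
      rwa [Submodule.mkQ_apply, Submodule.Quotient.mk_eq_zero] at this
  choose V iV mV K a hV hK hK0 hIa using key
  let e := (Finset.equivFin s).symm
  apply uniserial_of_family hR hsf (fun i => V (e i)) (fun i => hV (e i)) (fun i => K (e i))
    (fun i => hK (e i)) (fun i => hK0 (e i)) hLm hm hloc _ (fun i => a (e i)) rfl
  intro r
  rw [← hs, Submodule.mem_finsetInf]
  constructor
  · intro h i
    exact (hIa (e i) r).1 (h _ (e i).2)
  · intro h I hI
    have h1 := (hIa (e (e.symm ⟨I, hI⟩)) r).2 (h (e.symm ⟨I, hI⟩))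
    simpa using h1

end Loc

end Pool.Agent.Uni
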