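import Pool.Agent.Uni.Nec7

/-!
A ring without left socle all of whose uniform left modules are uniserial is a direct sum of
uniserial left ideals.
-/

namespace Pool.Agent.Uni

universe u v w

open Submodule

section Art

variable {R : Type u} [Ring R]

theorem isArtinian_of_jp (hR : Good R) (l : ℕ) :
    ∀ (M : Type v) [AddCommGroup M] [Module R M] [IsNoetherian R M],
      jp l (⊤ : Submodule R M) = ⊥ → IsArtinian R M := by
  induction l with
  | zero =>
    intro M _ _ _ h
    rw [jp_zero] at h
    have h1 : Subsingleton M := by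
      rw [← Submodule.subsingleton_iff R]
      exact subsingleton_iff_bot_eq_top.1 h.symm
    infer_instance
  | succ l ih =>
    intro M _ _ _ h
    let N : Submodule R M := Ring.jacobson R • ⊤
    rw [isArtinian_iff_submodule_quotient N]
    constructor
    · apply ih
      apply Submodule.map_injective_of_injective N.injective_subtype
      rw [map_jp, Submodule.map_top, Submodule.range_subtype, Submodule.map_bot]
      rw [jp_succ'] at h
      exact h
    · have hss : IsSemisimpleModule R (M ⧸ N) := by
        apply semisimple_of_killed hR.ss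
        intro r hr m
        obtain ⟨x, rfl⟩ := N.mkQ_surjective m
        rw [← map_smul, Submodule.mkQ_apply, Submodule.Quotient.mk_eq_zero]
        exact Submodule.smul_mem_smul hr trivial
      have htfae := IsSemisimpleModule.finite_tfae (R := R) (M := M ⧸ N)
      have h12 : IsNoetherian R (M ⧸ N) ↔ IsArtinian R (M ⧸ N) := htfae.out 1 2
      exact h12.1 inferInstance

theorem exists_left_inv {u : R} (hu : 1 - u ∈ Ring.jacobson R) : ∃ u' : R, u' * u = 1 := by
  have h1 : Submodule.span R {u} = (⊤ : Submodule R R) := by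
    have h2 : (⊤ : Submodule R R).map (Submodule.span R {u}).mkQ = ⊥ := by
      apply Submodule.FG.eq_bot_of_le_jacobson_smul
      · exact (Module.Finite.fg_top : (⊤ : Submodule R R).FG).map _
      · rintro _ ⟨x, -, rfl⟩
        have h3 : (Submodule.span R {u}).mkQ x = (x * (1 - u)) • (Submodule.span R {u}).mkQ 1 := by
          rw [← map_smul, ← sub_eq_zero, ← map_sub, Submodule.mkQ_apply,
            Submodule.Quotient.mk_eq_zero]
          have : x - (x * (1 - u)) • (1 : R) = x • u := by
            simp [mul_sub]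
          rw [this]
          exact Submodule.smul_mem _ _ (Submodule.mem_span_singleton_self u)
        rw [h3]
        apply Submodule.smul_mem_smul
        · exact Ideal.mul_mem_left _ _ hu
        · exact Submodule.mem_map_of_mem trivial
    rw [← le_bot_iff, Submodule.map_le_iff_le_comap, Submodule.comap_bot, Submodule.ker_mkQ,
      top_le_iff] at h2
    exact h2
  have h3 : (1 : R) ∈ Submodule.span R {u} := by rw [h1]; trivial
  obtain ⟨u', hu'⟩ := Submodule.mem_span_singleton.1 h3
  exact ⟨u', hu'⟩

end Art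

section Tops

variable {R : Type u} [Ring R]

/-- Every simple module is the top of a cyclic submodule of a socle free injective uniserial
module. -/
theorem exists_top (hR : Good R) (hsf : SocFree R R) {S : Type u} [AddCommGroup S] [Module R S]
    (hS : IsSimpleModule R S) {s : S} (hs : s ≠ 0) :
    ∃ (V : Type u) (_ : AddCommGroup V) (_ : Module R V) (z : V), SFI R V ∧ z ≠ 0 ∧
      ∀ r : R, r • z ∈ Ring.jacobson R • Submodule.span R {z} ↔ r • s = 0 := by
  have hnt : Nontrivial S := IsSimpleModule.nontrivial R S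
  have huS : IsUniform R S := by
    refine ⟨hnt, fun A B hAB => ?_⟩
    rcases eq_bot_or_eq_top A with h | h
    · exact Or.inl h
    · right; rwa [h, top_inf_eq] at hAB
  have hJS : ∀ r ∈ Ring.jacobson R, ∀ x : S, r • x = 0 := by
    intro r hr x
    exact Module.mem_annihilator.1 (IsSemisimpleModule.jacobson_le_annihilator R S hr) x
  obtain ⟨E, iE, mE, huE, hbE, ι, hι⟩ := hR.hulls S huS
  obtain ⟨V, iV, mV, g, hV, hg, hk, hk0⟩ := exists_sfi_surj hR hsf huE hbE (e := ι s)
    (by intro h; apply hs; apply hι; rw [h, map_zero])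
    (by intro r hr; rw [← map_smul, hJS r hr, map_zero])
  obtain ⟨z, hz⟩ := hg (ι s)
  have hkey : ∀ r : R, r • z ∈ LinearMap.ker g ↔ r • s = 0 := by
    intro r
    rw [LinearMap.mem_ker, map_smul, hz, ← map_smul]
    constructor
    · intro h; apply hι; rw [h, map_zero]
    · intro h; rw [h, map_zero]
  have hzk : z ∉ LinearMap.ker g := by
    intro h
    have := (hkey 1).1 (by rwa [one_smul])
    rw [one_smul] at this
    exact hs this
  have hz0 : z ≠ 0 := fun h => hzk (by rw [h]; exact zero_mem _)
  refine ⟨V, iV, mV, z, hV, hz0, ?_⟩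
  have hfg : (Submodule.span R {z}).FG := Submodule.fg_span_singleton z
  have h1 : ¬ Submodule.span R {z} ≤ LinearMap.ker g := by
    rw [Submodule.span_singleton_le_iff_mem]; exact hzk
  have h2 : LinearMap.ker g < Submodule.span R {z} :=
    lt_of_le_of_ne ((hV.us _ _).resolve_left h1) (fun h => h1 h.symm.le)
  have h3 : LinearMap.ker g ≤ Ring.jacobson R • Submodule.span R {z} :=
    hV.us.le_of_lt hR.ss hfg h2
  have h4 : Ring.jacobson R • Submodule.span R {z} ≤ LinearMap.ker g := by
    rw [Submodule.smul_le]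
    intro r hr n hn
    obtain ⟨t, rfl⟩ := Submodule.mem_span_singleton.1 hn
    rw [smul_smul, hkey]
    exact hJS _ (Ideal.mul_mem_right t _ hr) s
  rw [le_antisymm h4 h3]
  exact hkey

/-- Coordinates for the ring modulo its radical. -/
theorem exists_coords (hR : Good R) (hsf : SocFree R R) :
    ∃ (n : ℕ) (V : Fin n → Type u) (_ : ∀ i, AddCommGroup (V i)) (_ : ∀ i, Module R (V i))
      (z : ∀ i, V i), (∀ i, SFI R (V i)) ∧ (∀ i, z i ≠ 0) ∧
      (∀ r : R, (∀ i, r • z i ∈ Ring.jacobson R • Submodule.span R {z i}) →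
        r ∈ Ring.jacobson R) ∧
      (∀ i, ∃ r : R, r • z i - z i ∈ Ring.jacobson R • Submodule.span R {z i} ∧
        ∀ j, j ≠ i → r • z j ∈ Ring.jacobson R • Submodule.span R {z j}) := by
  classical
  have hss : IsSemisimpleModule R (R ⧸ Ring.jacobson R) := by
    apply semisimple_of_killed hR.ss
    intro r hr m
    obtain ⟨x, rfl⟩ := (Ring.jacobson R).mkQ_surjective m
    rw [← map_smul, Submodule.mkQ_apply, Submodule.Quotient.mk_eq_zero]
    exact Ideal.mul_mem_right x _ hr
  obtain ⟨n, S, e, hS⟩ := IsSemisimpleModule.exists_linearEquiv_fin_dfinsupp R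
    (R ⧸ Ring.jacobson R)
  let s : ∀ i, S i := fun i => e (Submodule.Quotient.mk 1) i
  have hes : ∀ (r : R) (i), e (Submodule.Quotient.mk r) i = r • s i := by
    intro r i
    have h1 : (Submodule.Quotient.mk r : R ⧸ Ring.jacobson R) =
        r • (Submodule.Quotient.mk 1 : R ⧸ Ring.jacobson R) := by
      rw [← Submodule.Quotient.mk_smul]; simp
    rw [h1, map_smul]; rfl
  have hs0 : ∀ i, s i ≠ 0 := by
    intro i h0
    have := hS i
    have := IsSimpleModule.nontrivial R (S i)
    obtain ⟨t, ht⟩ := exists_ne (0 : S i)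
    obtain ⟨r, hr⟩ := (Ring.jacobson R).mkQ_surjective (e.symm (DFinsupp.single i t))
    have h1 := hes r i
    have h2 : e (Submodule.Quotient.mk r) = DFinsupp.single i t := by
      rw [← Submodule.mkQ_apply, hr, LinearEquiv.apply_symm_apply]
    rw [h2, DFinsupp.single_eq_same, h0, smul_zero] at h1
    exact ht h1
  choose V iV mV z hV hz0 hz using fun i => exists_top hR hsf (hS i) (hs0 i)
  refine ⟨n, V, iV, mV, z, hV, hz0, ?_, ?_⟩
  · intro r hr
    have h1 : e (Submodule.Quotient.mk r) = 0 := by
      ext i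
      rw [hes, (hz i r).1 (hr i)]
      rfl
    have h2 : (Submodule.Quotient.mk r : R ⧸ Ring.jacobson R) = 0 := by
      apply e.injective; rw [h1, map_zero]
    rwa [Submodule.Quotient.mk_eq_zero] at h2
  · intro i
    obtain ⟨r, hr⟩ := (Ring.jacobson R).mkQ_surjective (e.symm (DFinsupp.single i (s i)))
    have h2 : e (Submodule.Quotient.mk r) = DFinsupp.single i (s i) := by
      rw [← Submodule.mkQ_apply, hr, LinearEquiv.apply_symm_apply]
    refine ⟨r, ?_, ?_⟩
    · have h3 : r • z i - z i = (r - 1) • z i := by rw [sub_smul, one_smul]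
      rw [h3, hz i]
      have h4 := hes r i
      rw [h2, DFinsupp.single_eq_same] at h4
      rw [sub_smul, one_smul, ← h4, sub_self]
    · intro j hj
      rw [hz j, ← hes, h2]
      exact DFinsupp.single_eq_of_ne hj

end Tops

section Exact

variable {R : Type u} [Ring R]

theorem exists_exact {n : ℕ} (V : Fin n → Type u) [∀ i, AddCommGroup (V i)]
    [∀ i, Module R (V i)] (z : ∀ i, V i)
    (h : ∀ i, ∃ r : R, r • z i - z i ∈ Ring.jacobson R • Submodule.span R {z i} ∧
        ∀ j, j ≠ i → r • z j ∈ Ring.jacobson R • Submodule.span R {z j}) (i : Fin n) :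
    ∃ ε : R, ∀ j, ε • z j = if j = i then z j else 0 := by
  classical
  let π : R →ₗ[R] (∀ i, V i) := LinearMap.toSpanSingleton R _ z
  let Q := LinearMap.range π
  let P : Submodule R (∀ i, V i) := Submodule.span R (Set.range (fun i => Pi.single i (z i)))
  have hPfg : P.FG := Submodule.fg_def.2 ⟨_, Set.finite_range _, rfl⟩
  have hsP : ∀ j, Pi.single j (z j) ∈ P := fun j => Submodule.subset_span ⟨j, rfl⟩
  have hJP : ∀ j, ∀ w ∈ Ring.jacobson R • Submodule.span R {z j},
      (Pi.single j w : ∀ i, V i) ∈ Ring.jacobson R • P := by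
    intro j w hw
    have h1 : (Ring.jacobson R • Submodule.span R {z j}).map (LinearMap.single R V j) ≤
        Ring.jacobson R • P := by
      rw [map_jsmul]
      apply smul_mono_right
      rw [Submodule.map_span, Set.image_singleton, Submodule.span_singleton_le_iff_mem]
      exact hsP j
    exact h1 (Submodule.mem_map_of_mem hw)
  have hPle : P ≤ Q ⊔ Ring.jacobson R • P := by
    rw [Submodule.span_le]
    rintro _ ⟨i, rfl⟩
    obtain ⟨r, hr, hr'⟩ := h i
    have h2 : (Pi.single i (z i) : ∀ i, V i) = π r + (Pi.single i (z i) - π r) := by abel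
    change Pi.single i (z i) ∈ _
    rw [h2]
    have h2' : π r ∈ Q := ⟨r, rfl⟩
    apply Submodule.add_mem_sup h2'
    have h3 : (Pi.single i (z i) - π r : ∀ i, V i) =
        ∑ j, Pi.single j ((Pi.single i (z i) - π r : ∀ i, V i) j) :=
      (Finset.univ_sum_single _).symm
    rw [h3]
    apply Submodule.sum_mem
    intro j _
    apply hJP
    by_cases hj : j = i
    · subst hj
      have h4 : (Pi.single j (z j) - π r : ∀ i, V i) j = -(r • z j - z j) := by
        simp [π]
      rw [h4]
      exact Submodule.neg_mem _ hr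
    · have h4 : (Pi.single i (z i) - π r : ∀ i, V i) j = -(r • z j) := by
        simp [π, hj]
      rw [h4]
      exact Submodule.neg_mem _ (hr' j hj)
  have hPQ : P ≤ Q := by
    have h5 : P.map Q.mkQ = ⊥ := by
      apply Submodule.FG.eq_bot_of_le_jacobson_smul (hPfg.map _)
      calc P.map Q.mkQ ≤ (Q ⊔ Ring.jacobson R • P).map Q.mkQ := Submodule.map_mono hPle
        _ = Ring.jacobson R • P.map Q.mkQ := by
          rw [Submodule.map_sup, Submodule.mkQ_map_self, bot_sup_eq, map_jsmul]
    rw [← le_bot_iff, Submodule.map_le_iff_le_comap, Submodule.comap_bot,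
      Submodule.ker_mkQ] at h5
    exact h5
  obtain ⟨ε, hε⟩ := hPQ (hsP i)
  refine ⟨ε, fun j => ?_⟩
  have h6 := congrFun hε j
  have h7 : π ε j = ε • z j := rfl
  rw [h7] at h6
  rw [h6]
  by_cases hj : j = i
  · subst hj; simp
  · simp [hj]

theorem mul_mem_jp {l : ℕ} {r : R} (h : r ∈ jp l (⊤ : Submodule R R)) (s : R) :
    r * s ∈ jp l (⊤ : Submodule R R) := by
  have h1 : (jp l (⊤ : Submodule R R)).map (LinearMap.toSpanSingleton R R s) ≤
      jp l (⊤ : Submodule R R) := by
    rw [map_jp]; exact jp_mono l le_top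
  have h2 := h1 (Submodule.mem_map_of_mem h)
  simpa using h2

theorem smul_mem_jp_span {M : Type v} [AddCommGroup M] [Module R M] {l : ℕ} {r : R}
    (h : r ∈ jp l (⊤ : Submodule R R)) (z : M) : r • z ∈ jp l (Submodule.span R {z}) := by
  rw [span_singleton_eq_map, ← map_jp]
  exact ⟨r, h, by simp⟩

theorem exists_of_mem_jp_span {M : Type v} [AddCommGroup M] [Module R M] {l : ℕ} {z y : M}
    (h : y ∈ jp l (Submodule.span R {z})) : ∃ r ∈ jp l (⊤ : Submodule R R), r • z = y := by
  rw [span_singleton_eq_map, ← map_jp] at h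
  obtain ⟨r, hr, hry⟩ := h
  exact ⟨r, hr, by simpa using hry⟩

theorem iInf_jp_ring (hR : Good R) (hsf : SocFree R R) {x : R}
    (h : ∀ l, x ∈ jp l (⊤ : Submodule R R)) : x = 0 := by
  obtain ⟨n, W, iW, mW, hW, f, hf⟩ := exists_family hR hsf
  apply hf
  rw [map_zero]
  funext i
  let g : R →ₗ[R] W i := LinearMap.proj i ∘ₗ f
  have hfg : (LinearMap.range g).FG := by
    rw [LinearMap.range_eq_map]
    exact (Module.Finite.fg_top : (⊤ : Submodule R R).FG).map _
  have h1 : g x ∈ ⨅ k, jp k (LinearMap.range g) := by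
    rw [Submodule.mem_iInf]
    intro k
    rw [LinearMap.range_eq_map, ← map_jp]
    exact Submodule.mem_map_of_mem (h k)
  rw [iInf_jp_eq_bot hR (hW i).us (hW i).sf hfg, Submodule.mem_bot] at h1
  exact h1

/-- The key local step: a lift of the `s`-th coordinate vector modulo `J^l` generating a module
which embeds in the quotient of `V s`. -/
theorem exists_local_lift (hR : Good R) (hsf : SocFree R R) {n : ℕ} (V : Fin n → Type u)
    [∀ i, AddCommGroup (V i)] [∀ i, Module R (V i)] (z : ∀ i, V i) (hV : ∀ i, SFI R (V i))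
    (hz0 : ∀ i, z i ≠ 0) (s : Fin n) {ε0 : R} (hε0 : ∀ j, ε0 • z j = if j = s then z j else 0)
    (l : ℕ) :
    ∃ ε : R, (∀ j, ε • z j - (if j = s then z j else 0) ∈
        jp (l + 1) (Submodule.span R {z j})) ∧
      ∀ r : R, r • z s ∈ jp (l + 1) (Submodule.span R {z s}) →
        r * ε ∈ jp (l + 1) (⊤ : Submodule R R) := by
  classical
  have := hR.noeth
  let N := R ⧸ (jp (l + 1) (⊤ : Submodule R R))
  have hNt : jp (l + 1) (⊤ : Submodule R N) = ⊥ := by
    have h1 : (⊤ : Submodule R N) = (⊤ : Submodule R R).map (jp (l + 1) (⊤ : Submodule R R)).mkQ := by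
      rw [Submodule.map_top, Submodule.range_mkQ]
    rw [h1, ← map_jp, ← le_bot_iff, Submodule.map_le_iff_le_comap, Submodule.comap_bot,
      Submodule.ker_mkQ]
  have hart : IsArtinian R N := isArtinian_of_jp hR (l + 1) N hNt
  let Good' : R → Prop := fun ε => ∀ j, ε • z j - (if j = s then z j else 0) ∈
        jp (l + 1) (Submodule.span R {z j})
  let mk : R →ₗ[R] N := (jp (l + 1) (⊤ : Submodule R R)).mkQ
  have hmk : ∀ x : R, mk x = 0 ↔ x ∈ jp (l + 1) (⊤ : Submodule R R) := by
    intro x
    change (jp (l + 1) (⊤ : Submodule R R)).mkQ x = 0 ↔ _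
    rw [Submodule.mkQ_apply, Submodule.Quotient.mk_eq_zero]
  let 𝓢 : Set (Submodule R N) := {A | ∃ ε : R, mk ε ∈ A ∧ Good' ε}
  have h𝓢 : 𝓢.Nonempty := ⟨⊤, ε0, trivial, fun j => by rw [hε0 j, sub_self]; exact zero_mem _⟩
  obtain ⟨A, ⟨ε, hεA, hε⟩, hmin⟩ := IsArtinian.set_has_minimal 𝓢 h𝓢
  refine ⟨ε, hε, ?_⟩
  -- the annihilator of `ε` modulo `J^(l+1)`
  let L : Submodule R R := LinearMap.ker (LinearMap.toSpanSingleton R N (mk ε))
  have hL : ∀ r : R, r ∈ L ↔ r * ε ∈ jp (l + 1) (⊤ : Submodule R R) := by
    intro r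
    change r • mk ε = 0 ↔ _
    rw [← map_smul, hmk]; rfl
  let m : Submodule R R := (Ring.jacobson R • Submodule.span R {z s}).comap
    (LinearMap.toSpanSingleton R _ (z s))
  have hmem : ∀ r : R, r ∈ m ↔ r • z s ∈ Ring.jacobson R • Submodule.span R {z s} :=
    fun r => Iff.rfl
  have hm : m ≠ ⊤ := by
    intro h
    have h1 : (1 : R) ∈ m := by rw [h]; trivial
    rw [hmem, one_smul] at h1
    exact not_mem_jsmul_span (hz0 s) h1
  have hLz : ∀ r ∈ L, r • z s ∈ jp (l + 1) (Submodule.span R {z s}) := by
    intro r hr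
    rw [hL] at hr
    have h1 := smul_mem_jp_span hr (z s)
    have h2 := hε s
    rw [if_pos rfl] at h2
    have h3 : r • z s = (r * ε) • z s - r • (ε • z s - z s) := by
      rw [smul_sub, mul_smul]; abel
    rw [h3]
    exact Submodule.sub_mem _ h1 (Submodule.smul_mem _ r h2)
  have hjle : jp (l + 1) (Submodule.span R {z s}) ≤
      Ring.jacobson R • Submodule.span R {z s} := by
    rw [← jp_one]; exact jp_anti (by omega) _
  have hLm : L ≤ m := fun r hr => hjle (hLz r hr)
  have hloc : ∀ I : Submodule R R, L ≤ I → I ≠ ⊤ → I ≤ m := by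
    intro I hLI hI r hrI
    by_contra hrm
    rw [hmem] at hrm
    have h4 : r • z s ∈ Submodule.span R {z s} :=
      Submodule.smul_mem _ r (Submodule.mem_span_singleton_self _)
    have h5 := eq_span_of_not_mem hR.ss (hV s).us (Submodule.fg_span_singleton (z s)) h4 hrm
    have h6 : z s ∈ Submodule.span R {r • z s} := by
      rw [← h5]; exact Submodule.mem_span_singleton_self _
    obtain ⟨t, ht⟩ := Submodule.mem_span_singleton.1 h6
    have hgood : Good' (t * r * ε) := by
      intro j
      by_cases hj : j = s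
      · subst hj
        rw [if_pos rfl]
        have h7 := hε j
        rw [if_pos rfl] at h7
        have h8 : (t * r * ε) • z j - z j = (t * r) • (ε • z j - z j) + (t • r • z j - z j) := by
          rw [smul_sub, mul_smul (t * r) ε, mul_smul t r (z j)]; abel
        rw [h8, ht, sub_self, add_zero]
        exact Submodule.smul_mem _ _ h7
      · rw [if_neg hj, sub_zero]
        have h7 := hε j
        rw [if_neg hj, sub_zero] at h7
        rw [mul_smul]
        exact Submodule.smul_mem _ _ h7
    have hA' : Submodule.span R {mk (t * r * ε)} ∈ 𝓢 :=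
      ⟨_, Submodule.mem_span_singleton_self _, hgood⟩
    have hle : Submodule.span R {mk (t * r * ε)} ≤ A := by
      rw [Submodule.span_singleton_le_iff_mem]
      have : mk (t * r * ε) = (t * r) • mk ε := by rw [← map_smul]; rfl
      rw [this]
      exact A.smul_mem _ hεA
    have heq : Submodule.span R {mk (t * r * ε)} = A := by
      by_contra hne
      exact hmin _ hA' (lt_of_le_of_ne hle hne)
    have h9 : mk ε ∈ Submodule.span R {mk (t * r * ε)} := by rw [heq]; exact hεA
    obtain ⟨w, hw⟩ := Submodule.mem_span_singleton.1 h9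
    have h10 : 1 - w * t * r ∈ L := by
      change (1 - w * t * r) • mk ε = 0
      have h11 : mk (t * r * ε) = (t * r) • mk ε := by rw [← map_smul]; rfl
      rw [h11, smul_smul] at hw
      rw [sub_smul, one_smul, mul_assoc, hw, sub_self]
    apply hI
    rw [Ideal.eq_top_iff_one]
    have h12 : (1 : R) = (1 - w * t * r) + (w * t) * r := by abel
    rw [h12]
    exact I.add_mem (hLI h10) (I.smul_mem (w * t) hrI)
  have hlL : jp (l + 1) (⊤ : Submodule R R) ≤ L := by
    intro r hr
    rw [hL]
    exact mul_mem_jp hr ε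
  have huni := uniserial_of_local hR hsf hLm hm hloc hlL
  -- the comparison map
  let K := jp (l + 1) (Submodule.span R {z s})
  let f : R →ₗ[R] (V s ⧸ K) := LinearMap.toSpanSingleton R _ (K.mkQ (z s))
  have hf : ∀ r : R, f r = K.mkQ (r • z s) := fun r => by
    change r • K.mkQ (z s) = _
    rw [← map_smul]
  have hLf : L ≤ LinearMap.ker f := by
    intro r hr
    rw [LinearMap.mem_ker, hf, Submodule.mkQ_apply, Submodule.Quotient.mk_eq_zero]
    exact hLz r hr
  let φ : (R ⧸ L) →ₗ[R] (V s ⧸ K) := L.liftQ f hLf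
  have hφ : ∀ r : R, φ (L.mkQ r) = K.mkQ (r • z s) := fun r => hf r
  have hspan0 : Submodule.span R {z s} ≠ ⊥ := by
    rw [Ne, Submodule.span_singleton_eq_bot]; exact hz0 s
  have hlt := jp_succ_lt (Submodule.fg_span_singleton (z s))
    (jp_ne_bot_of_socFree hR.ss (hV s).us (hV s).sf (Submodule.fg_span_singleton (z s)) hspan0 l)
  obtain ⟨y, hy, hy'⟩ := SetLike.exists_of_lt hlt
  obtain ⟨r1, hr1, hr1y⟩ := exists_of_mem_jp_span hy
  have hφi : Function.Injective φ := by
    apply injective_of_socle hR.ss huni (L.mkQ r1)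
    · intro j hj
      rw [← map_smul, Submodule.mkQ_apply, Submodule.Quotient.mk_eq_zero]
      apply hlL
      rw [jp_succ]
      exact Submodule.smul_mem_smul hj hr1
    · rw [hφ, hr1y, Submodule.mkQ_apply, Ne, Submodule.Quotient.mk_eq_zero]
      exact hy'
  intro r hr
  rw [← hL]
  have h13 : φ (L.mkQ r) = 0 := by
    rw [hφ, Submodule.mkQ_apply, Submodule.Quotient.mk_eq_zero]; exact hr
  have h14 : L.mkQ r = 0 := by
    apply hφi; rw [h13, map_zero]
  rwa [Submodule.mkQ_apply, Submodule.Quotient.mk_eq_zero] at h14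

/-- A ring without left socle whose uniform modules are uniserial: idempotents. -/
theorem exists_idem (hR : Good R) (hsf : SocFree R R) :
    ∃ (n : ℕ) (V : Fin n → Type u) (_ : ∀ i, AddCommGroup (V i)) (_ : ∀ i, Module R (V i))
      (z : ∀ i, V i) (e : Fin n → R), (∀ i, SFI R (V i)) ∧ (∀ i, z i ≠ 0) ∧
      (∀ i j, e i • z j = if j = i then z j else 0) ∧
      (∀ x : R, (∀ j, x • z j = 0) → x = 0) := by
  classical
  obtain ⟨n, V, iV, mV, z, hV, hz0, hJ, hc⟩ := exists_coords hR hsf
  choose e he using fun i => exists_exact V z hc i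
  refine ⟨n, V, iV, mV, z, e, hV, hz0, he, ?_⟩
  intro x hx
  apply iInf_jp_ring hR hsf
  intro l
  apply jp_anti (Nat.le_succ l)
  choose ε hε hε' using fun s => exists_local_lift hR hsf V z hV hz0 s (he s) l
  let u := ∑ s, ε s
  have hu : ∀ j, u • z j - z j ∈ jp (l + 1) (Submodule.span R {z j}) := by
    intro j
    have h1 : u • z j - z j = ∑ s, (ε s • z j - (if j = s then z j else 0)) := by
      rw [Finset.sum_sub_distrib, ← Finset.sum_smul]
      simp [u]
    rw [h1]
    exact Submodule.sum_mem _ (fun s _ => hε s j)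
  have huJ : 1 - u ∈ Ring.jacobson R := by
    apply hJ
    intro i
    have h1 : (1 - u) • z i = -(u • z i - z i) := by rw [sub_smul, one_smul]; abel
    rw [h1]
    have h2 : jp (l + 1) (Submodule.span R {z i}) ≤
        Ring.jacobson R • Submodule.span R {z i} := by
      rw [← jp_one]; exact jp_anti (by omega) _
    exact Submodule.neg_mem _ (h2 (hu i))
  obtain ⟨u', hu'⟩ := exists_left_inv huJ
  let w := x * u'
  have hxw : x = ∑ s, w * ε s := by
    rw [← Finset.mul_sum]
    change x = x * u' * u
    rw [mul_assoc, hu', mul_one]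
  have hw : ∀ j, w • z j ∈ jp (l + 1) (Submodule.span R {z j}) := by
    intro j
    have h1 : w • z j = x • z j - w • (u • z j - z j) := by
      rw [smul_sub, ← mul_smul w u]
      have : w * u = x := by
        change x * u' * u = x
        rw [mul_assoc, hu', mul_one]
      rw [this]; abel
    rw [h1, hx j, zero_sub]
    exact Submodule.neg_mem _ (Submodule.smul_mem _ w (hu j))
  rw [hxw]
  exact Submodule.sum_mem _ (fun s _ => hε' s w (hw s))

end Exact

end Pool.Agent.Uni
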