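import Pool.Agent.Uni.Nec8

/-!
A ring without left socle all of whose uniform left modules are uniserial is serial.
-/

namespace Pool.Agent.Uni

universe u v w

open Submodule

section Serial

variable {R : Type u} [Ring R]

/-- Orthogonal idempotents with sum one and uniserial left ideals give a left serial ring. -/
theorem isLeftSerialRing_of_idem {n : ℕ} (e : Fin n → R)
    (horth : ∀ i j, e i * e j = if i = j then e i else 0) (hsum : ∑ i, e i = 1)
    (huni : ∀ i, IsUniserial R (Submodule.span R {e i})) : IsLeftSerialRing R := by
  classical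
  refine ⟨n, fun i => Submodule.span R {e i}, ?_, huni⟩
  apply DirectSum.isInternal_submodule_of_iSupIndep_of_iSup_eq_top
  · rw [iSupIndep_def]
    intro i
    rw [disjoint_iff, eq_bot_iff]
    rintro x ⟨hx1, hx2⟩
    obtain ⟨r, rfl⟩ := Submodule.mem_span_singleton.1 hx1
    have h1 : (⨆ j, ⨆ (_ : j ≠ i), Submodule.span R {e j}) ≤
        LinearMap.ker (LinearMap.toSpanSingleton R R (e i)) := by
      apply iSup_le
      intro j
      apply iSup_le
      intro hj
      rw [Submodule.span_singleton_le_iff_mem, LinearMap.mem_ker]
      change e j • e i = 0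
      rw [smul_eq_mul, horth, if_neg hj]
    have h2 := h1 hx2
    rw [LinearMap.mem_ker] at h2
    change (r • e i) • e i = 0 at h2
    rw [smul_assoc, smul_eq_mul (e i), horth, if_pos rfl] at h2
    rw [h2]; exact zero_mem _
  · rw [eq_top_iff]
    intro x _
    have h1 : x = ∑ i, x • e i := by
      rw [← Finset.smul_sum, hsum]; simp
    rw [h1]
    apply Submodule.sum_mem
    intro i _
    have h2 : Submodule.span R {e i} ≤ ⨆ i, Submodule.span R {e i} :=
      le_iSup (fun i => Submodule.span R {e i}) i
    exact h2 (Submodule.smul_mem _ x (Submodule.mem_span_singleton_self _))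

theorem isSerialRing_of_socFree (hR : Good R) (hsf : SocFree R R) : IsSerialRing R := by
  classical
  obtain ⟨n, V, iV, mV, z, e, hV, hz0, he, hx⟩ := exists_idem hR hsf
  have horth : ∀ i j, e i * e j = if i = j then e i else 0 := by
    intro i j
    rw [← sub_eq_zero]
    apply hx
    intro k
    rw [sub_smul, mul_smul, he j k]
    by_cases hij : i = j
    · subst hij
      rw [if_pos rfl, he i k]
      by_cases hk : k = i
      · subst hk; rw [if_pos rfl, he k k, if_pos rfl, sub_self]
      · rw [if_neg hk, smul_zero, sub_self]
    · rw [if_neg hij, zero_smul, sub_zero]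
      by_cases hk : k = j
      · subst hk; rw [if_pos rfl, he i k, if_neg (Ne.symm hij)]
      · rw [if_neg hk, smul_zero]
  have hsum : ∑ i, e i = 1 := by
    rw [← sub_eq_zero]
    apply hx
    intro k
    rw [sub_smul, one_smul, Finset.sum_smul]
    have : ∀ i, e i • z k = if k = i then z k else 0 := fun i => he i k
    simp [this]
  have hann : ∀ (i) (r : R), r • z i = 0 → r * e i = 0 := by
    intro i r hr
    apply hx
    intro k
    rw [mul_smul, he i k]
    by_cases hk : k = i
    · subst hk; rw [if_pos rfl, hr]
    · rw [if_neg hk, smul_zero]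
  constructor
  · apply isLeftSerialRing_of_idem e horth hsum
    intro i
    let f : Submodule.span R {e i} →ₗ[R] V i :=
      (LinearMap.toSpanSingleton R (V i) (z i)) ∘ₗ (Submodule.span R {e i}).subtype
    apply IsUniserial.of_injective f _ (hV i).us
    rw [← LinearMap.ker_eq_bot, eq_bot_iff]
    rintro ⟨x, hxm⟩ hk
    obtain ⟨r, rfl⟩ := Submodule.mem_span_singleton.1 hxm
    have h1 : (r • e i) • z i = 0 := hk
    rw [smul_assoc, he i i, if_pos rfl] at h1
    have h2 := hann i r h1
    rw [Submodule.mem_bot]
    apply Subtype.ext
    exact h2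
  · let e' : Fin n → Rᵐᵒᵖ := fun i => MulOpposite.op (e i)
    apply isLeftSerialRing_of_idem e'
    · intro i j
      change MulOpposite.op (e i) * MulOpposite.op (e j) = _
      rw [← MulOpposite.op_mul, horth]
      by_cases hij : i = j
      · subst hij; rw [if_pos rfl, if_pos rfl]
      · rw [if_neg (Ne.symm hij), if_neg hij, MulOpposite.op_zero]
    · change ∑ i, MulOpposite.op (e i) = 1
      rw [← Finset.op_sum, hsum, MulOpposite.op_one]
    · intro i
      -- comparison of homogeneous elements
      have key : ∀ (j k) (a b : R), e i * a = a → a * e j = a → e i * b = b → b * e k = b →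
          a ≠ 0 → b ≠ 0 → (∃ r, a = b * r) ∨ (∃ r, b = a * r) := by
        have hmapex : ∀ (j) (a : R), e i * a = a → a * e j = a → a ≠ 0 →
            ∃ f : V i →ₗ[R] V j, f (z i) = a • z j ∧ Function.Bijective f := by
          intro j a ha1 ha2 ha0
          obtain ⟨f, hf⟩ := exists_map_of_baer (hV j).baer (z i) (a • z j) (by
            intro r hr
            have h1 := hann i r hr
            rw [← ha1, ← mul_smul, ← mul_assoc, h1, zero_mul, zero_smul])
          refine ⟨f, hf, (hV i).bijective_of_ne_zero hR (hV j) f ?_⟩
          intro h0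
          apply ha0
          rw [h0] at hf
          have h1 : a • z j = 0 := hf.symm
          have h2 := hann j a h1
          rw [ha2] at h2
          exact h2
        have half : ∀ (j k) (a b : R) (f : V i →ₗ[R] V j) (g : V i →ₗ[R] V k),
            f (z i) = a • z j → g (z i) = b • z k → Function.Bijective f →
            Function.Bijective g → a * e j = a →
            (Submodule.span R {z k}).comap g ≤ (Submodule.span R {z j}).comap f →
            ∃ r, a = b * r := by
          intro j k a b f g hf hg hfb hgb ha hle
          obtain ⟨v, hv⟩ := hgb.2 (z k)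
          have h1 : v ∈ (Submodule.span R {z k}).comap g := by
            rw [Submodule.mem_comap, hv]; exact Submodule.mem_span_singleton_self _
          have h2 := hle h1
          rw [Submodule.mem_comap] at h2
          obtain ⟨r, hr⟩ := Submodule.mem_span_singleton.1 h2
          have h3 : b • v = z i := by
            apply hgb.1
            rw [map_smul, hv, hg]
          have h4 : (b * r) • z j = a • z j := by
            rw [mul_smul, hr, ← map_smul, h3, hf]
          refine ⟨r * e j, ?_⟩
          have h5 : (b * r - a) • z j = 0 := by rw [sub_smul, h4, sub_self]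
          have h6 := hann j _ h5
          rw [sub_mul, ha, sub_eq_zero] at h6
          rw [← mul_assoc, h6]
        intro j k a b ha1 ha2 hb1 hb2 ha0 hb0
        obtain ⟨f, hf, hfb⟩ := hmapex j a ha1 ha2 ha0
        obtain ⟨g, hg, hgb⟩ := hmapex k b hb1 hb2 hb0
        rcases (hV i).us ((Submodule.span R {z k}).comap g) ((Submodule.span R {z j}).comap f)
          with h | h
        · left; exact half j k a b f g hf hg hfb hgb ha2 h
        · right; exact half k j b a g f hg hf hgb hfb hb2 h
      intro A B
      by_contra hcon
      push Not at hcon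
      obtain ⟨hAB, hBA⟩ := hcon
      have hcomp : ∀ C D : Submodule Rᵐᵒᵖ (Submodule.span Rᵐᵒᵖ {e' i}), ¬ C ≤ D →
          ∃ (j : Fin n) (a : R) (ha : MulOpposite.op a ∈ Submodule.span Rᵐᵒᵖ {e' i}),
            e i * a = a ∧ a * e j = a ∧ a ≠ 0 ∧
            (⟨MulOpposite.op a, ha⟩ : Submodule.span Rᵐᵒᵖ {e' i}) ∈ C ∧
            (⟨MulOpposite.op a, ha⟩ : Submodule.span Rᵐᵒᵖ {e' i}) ∉ D := by
        intro C D hCD
        obtain ⟨⟨x, hxm⟩, hxC, hxD⟩ := SetLike.not_le_iff_exists.1 hCD
        have hx1 : e i * x.unop = x.unop := by
          obtain ⟨r, rfl⟩ := Submodule.mem_span_singleton.1 hxm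
          change e i * (r * MulOpposite.op (e i)).unop = (r * MulOpposite.op (e i)).unop
          rw [MulOpposite.unop_mul, MulOpposite.unop_op, ← mul_assoc, horth, if_pos rfl]
        have hmem : ∀ j, MulOpposite.op (x.unop * e j) ∈ Submodule.span Rᵐᵒᵖ {e' i} := by
          intro j
          have : MulOpposite.op (x.unop * e j) = MulOpposite.op (e j) • x := by
            rw [smul_eq_mul, MulOpposite.op_mul, MulOpposite.op_unop]
          rw [this]
          exact Submodule.smul_mem _ _ hxm
        have hex : ∃ j, (⟨_, hmem j⟩ : Submodule.span Rᵐᵒᵖ {e' i}) ∉ D := by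
          by_contra hall
          push Not at hall
          apply hxD
          have h1 : (⟨x, hxm⟩ : Submodule.span Rᵐᵒᵖ {e' i}) = ∑ j, ⟨_, hmem j⟩ := by
            apply Subtype.ext
            rw [AddSubmonoidClass.coe_finsetSum]
            change x = ∑ j, MulOpposite.op (x.unop * e j)
            rw [← Finset.op_sum, ← Finset.mul_sum, hsum, mul_one, MulOpposite.op_unop]
          rw [h1]
          exact Submodule.sum_mem _ (fun j _ => hall j)
        obtain ⟨j, hj⟩ := hex
        refine ⟨j, x.unop * e j, hmem j, ?_, ?_, ?_, ?_, hj⟩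
        · rw [← mul_assoc, hx1]
        · rw [mul_assoc, horth, if_pos rfl]
        · intro h0
          apply hj
          have h2 : (⟨MulOpposite.op (x.unop * e j), hmem j⟩ : Submodule.span Rᵐᵒᵖ {e' i}) = 0 := by
            apply Subtype.ext
            change MulOpposite.op (x.unop * e j) = 0
            rw [h0, MulOpposite.op_zero]
          rw [h2]; exact zero_mem _
        · have h3 : (⟨MulOpposite.op (x.unop * e j), hmem j⟩ : Submodule.span Rᵐᵒᵖ {e' i}) =
              MulOpposite.op (e j) • ⟨x, hxm⟩ := by
            apply Subtype.ext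
            change MulOpposite.op (x.unop * e j) = MulOpposite.op (e j) • x
            rw [smul_eq_mul, MulOpposite.op_mul, MulOpposite.op_unop]
          rw [h3]
          exact C.smul_mem _ hxC
      obtain ⟨j, a, ham, ha1, ha2, ha0, haA, haB⟩ := hcomp A B hAB
      obtain ⟨k, b, hbm, hb1, hb2, hb0, hbB, hbA⟩ := hcomp B A hBA
      rcases key j k a b ha1 ha2 hb1 hb2 ha0 hb0 with ⟨r, hr⟩ | ⟨r, hr⟩
      · apply haB
        have : (⟨MulOpposite.op a, ham⟩ : Submodule.span Rᵐᵒᵖ {e' i}) =
            MulOpposite.op r • ⟨MulOpposite.op b, hbm⟩ := by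
          apply Subtype.ext
          change MulOpposite.op a = MulOpposite.op r • MulOpposite.op b
          rw [smul_eq_mul, ← MulOpposite.op_mul, ← hr]
        rw [this]; exact B.smul_mem _ hbB
      · apply hbA
        have : (⟨MulOpposite.op b, hbm⟩ : Submodule.span Rᵐᵒᵖ {e' i}) =
            MulOpposite.op r • ⟨MulOpposite.op a, ham⟩ := by
          apply Subtype.ext
          change MulOpposite.op b = MulOpposite.op r • MulOpposite.op a
          rw [smul_eq_mul, ← MulOpposite.op_mul, ← hr]
        rw [this]; exact A.smul_mem _ haA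

end Serial

end Pool.Agent.Uni
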