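import Pool.Agent.Uni.Defs

/-!
Part one of the structure theorem (MP_2df038_al): injective hulls of uniform modules, the
equivalence of property (E) with `R` left noetherian and every uniform module uniserial, and
semilocality.
-/

namespace Pool.Agent.Uni

open Submodule

universe u v w

section basics

variable {R : Type u} [Ring R]

theorem IsUniserial.of_injective {M : Type v} {N : Type w} [AddCommGroup M] [Module R M]
    [AddCommGroup N] [Module R N] (f : M →ₗ[R] N) (hf : Function.Injective f)
    (h : IsUniserial R N) : IsUniserial R M := by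
  intro A B
  rcases h (A.map f) (B.map f) with h1 | h1
  · left
    intro x hx
    obtain ⟨y, hy, hxy⟩ := h1 (Submodule.mem_map_of_mem hx)
    rwa [hf hxy] at hy
  · right
    intro x hx
    obtain ⟨y, hy, hxy⟩ := h1 (Submodule.mem_map_of_mem hx)
    rwa [hf hxy] at hy

theorem IsUniserial.of_surjective {M : Type v} {N : Type w} [AddCommGroup M] [Module R M]
    [AddCommGroup N] [Module R N] (f : M →ₗ[R] N) (hf : Function.Surjective f)
    (h : IsUniserial R M) : IsUniserial R N := by
  intro A B
  rcases h (A.comap f) (B.comap f) with h1 | h1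
  · left
    intro x hx
    obtain ⟨y, rfl⟩ := hf x
    exact h1 hx
  · right
    intro x hx
    obtain ⟨y, rfl⟩ := hf x
    exact h1 hx

/-- A submodule `V` of `M` that is uniform, phrased inside `M`. -/
theorem isUniform_iff_sub {M : Type v} [AddCommGroup M] [Module R M] (V : Submodule R M) :
    IsUniform R V ↔ V ≠ ⊥ ∧ ∀ A B : Submodule R M, A ≤ V → B ≤ V → A ⊓ B = ⊥ → A = ⊥ ∨ B = ⊥ := by
  constructor
  · rintro ⟨h1, h2⟩
    refine ⟨(Submodule.nontrivial_iff_ne_bot).1 h1, fun A B hA hB hAB => ?_⟩
    have h3 : A.comap V.subtype ⊓ B.comap V.subtype = ⊥ := by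
      rw [← Submodule.comap_inf, hAB]
      exact (Submodule.ker_subtype V)
    rcases h2 _ _ h3 with h4 | h4
    · left
      have : A = (A.comap V.subtype).map V.subtype := by
        rw [Submodule.map_comap_subtype, inf_eq_right.2 hA]
      rw [this, h4, Submodule.map_bot]
    · right
      have : B = (B.comap V.subtype).map V.subtype := by
        rw [Submodule.map_comap_subtype, inf_eq_right.2 hB]
      rw [this, h4, Submodule.map_bot]
  · rintro ⟨h1, h2⟩
    refine ⟨(Submodule.nontrivial_iff_ne_bot).2 h1, fun A B hAB => ?_⟩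
    have h3 : A.map V.subtype ⊓ B.map V.subtype = ⊥ := by
      rw [← Submodule.map_inf _ V.injective_subtype, hAB, Submodule.map_bot]
    rcases h2 _ _ (Submodule.map_subtype_le _ _) (Submodule.map_subtype_le _ _) h3 with h4 | h4
    · left
      exact Submodule.map_injective_of_injective V.injective_subtype (by rw [h4, Submodule.map_bot])
    · right
      exact Submodule.map_injective_of_injective V.injective_subtype (by rw [h4, Submodule.map_bot])

theorem IsUniform.of_linearEquiv {M : Type v} {N : Type w} [AddCommGroup M] [Module R M]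
    [AddCommGroup N] [Module R N] (e : M ≃ₗ[R] N) (h : IsUniform R M) : IsUniform R N := by
  obtain ⟨h1, h2⟩ := h
  refine ⟨e.injective.nontrivial, fun A B hAB => ?_⟩
  have h3 : A.comap e.toLinearMap ⊓ B.comap e.toLinearMap = ⊥ := by
    rw [← Submodule.comap_inf, hAB]
    exact LinearMap.ker_eq_bot.2 e.injective
  have key : ∀ C : Submodule R N, C.comap e.toLinearMap = ⊥ → C = ⊥ := by
    intro C hC
    have := Submodule.map_comap_eq_of_surjective (f := e.toLinearMap) e.surjective C
    rw [← this, hC, Submodule.map_bot]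
  rcases h2 _ _ h3 with h4 | h4
  · exact Or.inl (key _ h4)
  · exact Or.inr (key _ h4)

theorem IsUniform.range {M : Type v} {N : Type w} [AddCommGroup M] [Module R M]
    [AddCommGroup N] [Module R N] (f : M →ₗ[R] N) (hf : Function.Injective f)
    (h : IsUniform R M) : IsUniform R (LinearMap.range f) :=
  h.of_linearEquiv (LinearEquiv.ofInjective f hf)

/-- Enough injectives, in unbundled form. -/
theorem exists_baer (R : Type u) [Ring R] (M : Type u) [AddCommGroup M] [Module R M] :
    ∃ (I : Type u) (_ : AddCommGroup I) (_ : Module R I) (f : M →ₗ[R] I),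
      Module.Baer R I ∧ Function.Injective f := by
  obtain ⟨⟨J, hJ, f, hf⟩⟩ := CategoryTheory.EnoughInjectives.presentation (ModuleCat.of R M)
  have h1 : Module.Injective R J := by
    have : CategoryTheory.Injective (ModuleCat.of R J) := hJ
    exact Module.injective_module_of_injective_object R J
  exact ⟨J, inferInstance, inferInstance, f.hom, Module.Baer.of_injective h1,
    (ModuleCat.mono_iff_injective f).1 hf⟩

/-- The injective hull lemma: inside an injective module `I`, every submodule `V` has an essential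
extension `E` which is a retract of `I`. -/
theorem hull_aux {I : Type v} [AddCommGroup I] [Module R I] (hI : Module.Baer R I)
    (V : Submodule R I) :
    ∃ E : Submodule R I, V ≤ E ∧ (∀ A ≤ E, A ⊓ V = ⊥ → A = ⊥) ∧
      ∃ p : I →ₗ[R] E, ∀ x : E, p x = x := by
  -- maximal essential extension
  obtain ⟨E, hVE, hE⟩ := zorn_le_nonempty₀
    {E : Submodule R I | V ≤ E ∧ ∀ A ≤ E, A ⊓ V = ⊥ → A = ⊥} (by
      intro c hc hchain y hy
      refine ⟨sSup c, ⟨(hc hy).1.trans (le_sSup hy), fun A hA hAV => ?_⟩, fun z hz => le_sSup hz⟩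
      rw [eq_bot_iff]
      intro x hx
      have hx' := hA hx
      rw [Submodule.mem_sSup_of_directed ⟨y, hy⟩ hchain.directedOn] at hx'
      obtain ⟨E, hE, hxE⟩ := hx'
      have h1 : R ∙ x ≤ E := by rwa [Submodule.span_singleton_le_iff_mem]
      have h2 : (R ∙ x) ⊓ V = ⊥ := by
        rw [eq_bot_iff, ← hAV]
        exact inf_le_inf_right _ (by rwa [Submodule.span_singleton_le_iff_mem])
      have h3 := (hc hE).2 _ h1 h2
      rwa [Submodule.span_singleton_eq_bot] at h3) V ⟨le_rfl, fun A hA hAV => by
        rwa [inf_eq_left.2 hA] at hAV⟩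
  obtain ⟨⟨-, hEess⟩, hEmax⟩ := hE
  -- a maximal complement
  obtain ⟨K, -, hK⟩ := zorn_le_nonempty₀ {K : Submodule R I | K ⊓ E = ⊥} (by
      intro c hc hchain y hy
      refine ⟨sSup c, ?_, fun z hz => le_sSup hz⟩
      show sSup c ⊓ E = ⊥
      rw [eq_bot_iff]
      rintro x ⟨hx1, hx2⟩
      rw [SetLike.mem_coe, Submodule.mem_sSup_of_directed ⟨y, hy⟩ hchain.directedOn] at hx1
      obtain ⟨K, hK, hxK⟩ := hx1
      have : K ⊓ E = ⊥ := hc hK
      rw [← this]
      exact ⟨hxK, hx2⟩) ⊥ (bot_inf_eq _)
  obtain ⟨hKE, hKmax⟩ := hK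
  have hKE : K ⊓ E = ⊥ := hKE
  -- the map E → I / K is injective
  have hinj : Function.Injective (K.mkQ ∘ₗ E.subtype) := by
    rw [← LinearMap.ker_eq_bot, LinearMap.ker_comp, Submodule.ker_mkQ, eq_bot_iff]
    intro x hx
    have : (x : I) ∈ K ⊓ E := ⟨hx, x.2⟩
    rw [hKE] at this
    simpa using this
  obtain ⟨g, hg⟩ := hI.extension_property (K.mkQ ∘ₗ E.subtype) hinj E.subtype
  have hg' : ∀ x : E, g (K.mkQ x) = x := fun x => DFunLike.congr_fun hg x
  -- essentiality of E in I / K
  have hess : ∀ B : Submodule R I, K ≤ B → B ⊓ E = ⊥ → B = K := fun B hKB hB =>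
    le_antisymm (hKmax hB hKB) hKB
  have hgker : LinearMap.ker (g ∘ₗ K.mkQ) = K := by
    apply hess
    · intro x hx
      rw [LinearMap.mem_ker, LinearMap.comp_apply]
      have : K.mkQ x = 0 := by simpa using hx
      rw [this, map_zero]
    · rw [eq_bot_iff]
      rintro x ⟨hx1, hx2⟩
      have h1 : g (K.mkQ x) = 0 := hx1
      have h2 := hg' ⟨x, hx2⟩
      simp only at h2
      rw [h1] at h2
      simpa using h2.symm
  have hrange : LinearMap.range (g ∘ₗ K.mkQ) = E := by
    have hEle : E ≤ LinearMap.range (g ∘ₗ K.mkQ) := fun x hx => ⟨x, hg' ⟨x, hx⟩⟩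
    refine le_antisymm (hEmax ⟨hVE.trans hEle, fun A hA hAV => ?_⟩ hEle) hEle
    -- A ≤ range, A ⊓ V = ⊥
    have hAE : A ⊓ E = ⊥ := hEess _ inf_le_right (by
      rw [eq_bot_iff, ← hAV]
      exact inf_le_inf_right _ inf_le_left)
    have h1 : A.comap (g ∘ₗ K.mkQ) = K := by
      apply hess
      · intro x hx
        rw [Submodule.mem_comap]
        have : (g ∘ₗ K.mkQ) x = 0 := by
          rw [← LinearMap.mem_ker, hgker]; exact hx
        rw [this]
        exact zero_mem _
      · rw [eq_bot_iff]
        rintro x ⟨hx1, hx2⟩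
        have h1 : g (K.mkQ x) ∈ A := hx1
        rw [hg' ⟨x, hx2⟩] at h1
        rw [← hAE]
        exact ⟨h1, hx2⟩
    rw [eq_bot_iff]
    intro x hx
    obtain ⟨y, rfl⟩ := hA hx
    have h2 : y ∈ A.comap (g ∘ₗ K.mkQ) := hx
    rw [h1, ← hgker] at h2
    exact h2
  refine ⟨E, hVE, hEess, LinearMap.codRestrict E (g ∘ₗ K.mkQ) (fun x => ?_), fun x => ?_⟩
  · rw [← hrange]
    exact LinearMap.mem_range_self _ _
  · apply Subtype.ext
    exact hg' x

theorem Baer.of_retract {I : Type v} {E : Type w} [AddCommGroup I] [Module R I] [AddCommGroup E]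
    [Module R E] (hI : Module.Baer R I) (i : E →ₗ[R] I) (p : I →ₗ[R] E)
    (hp : ∀ x, p (i x) = x) : Module.Baer R E := by
  intro L f
  obtain ⟨g, hg⟩ := hI L (i ∘ₗ f)
  exact ⟨p ∘ₗ g, fun x hx => by rw [LinearMap.comp_apply, hg x hx, LinearMap.comp_apply, hp]⟩

/-- Inside an injective module, every uniform submodule lies in a uniform injective one. -/
theorem exists_hull_sub {I : Type v} [AddCommGroup I] [Module R I] (hI : Module.Baer R I)
    (V : Submodule R I) (hV : IsUniform R V) :
    ∃ E : Submodule R I, V ≤ E ∧ IsUniform R E ∧ Module.Baer R E := by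
  obtain ⟨E, hVE, hess, p, hp⟩ := hull_aux hI V
  refine ⟨E, hVE, ?_, Baer.of_retract hI E.subtype p hp⟩
  rw [isUniform_iff_sub] at hV ⊢
  obtain ⟨h1, h2⟩ := hV
  refine ⟨fun h => h1 (by rwa [h, le_bot_iff] at hVE), fun A B hA hB hAB => ?_⟩
  have h3 : (A ⊓ V) ⊓ (B ⊓ V) = ⊥ := by
    rw [eq_bot_iff, ← hAB]
    exact inf_le_inf inf_le_left inf_le_left
  rcases h2 _ _ inf_le_right inf_le_right h3 with h4 | h4
  · exact Or.inl (hess A hA h4)
  · exact Or.inr (hess B hB h4)

/-- Injective hulls of uniform modules exist and are uniform. -/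
theorem exists_hull (R : Type u) [Ring R] (M : Type u) [AddCommGroup M] [Module R M]
    (hM : IsUniform R M) :
    ∃ (E : Type u) (_ : AddCommGroup E) (_ : Module R E) (f : M →ₗ[R] E),
      IsUniform R E ∧ Module.Baer R E ∧ Function.Injective f := by
  obtain ⟨I, _, _, f, hI, hf⟩ := exists_baer R M
  obtain ⟨E, hVE, hE, hB⟩ := exists_hull_sub hI (LinearMap.range f) (hM.range f hf)
  refine ⟨E, inferInstance, inferInstance,
    LinearMap.codRestrict E f (fun x => hVE ⟨x, rfl⟩), hE, hB, ?_⟩
  intro x y hxy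
  exact hf (congrArg Subtype.val hxy)

end basics

section noeth

variable {R : Type u} [Ring R]

/-- A nonzero submodule of a noetherian module contains a uniform submodule. -/
theorem exists_uniform_le_aux {M : Type v} [AddCommGroup M] [Module R M] [IsNoetherian R M]
    (N : Submodule R M) (hN : N ≠ ⊥) : ∃ U ≤ N, IsUniform R U := by
  obtain ⟨A, ⟨B, hBN, hB, hAB⟩, hmax⟩ := set_has_maximal_iff_noetherian.2
    (inferInstance : IsNoetherian R M)
    {A : Submodule R M | ∃ B ≤ N, B ≠ ⊥ ∧ Disjoint A B}
    ⟨⊥, N, le_rfl, hN, disjoint_bot_left⟩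
  refine ⟨B, hBN, (isUniform_iff_sub B).2 ⟨hB, fun C D hC hD hCD => ?_⟩⟩
  by_contra hcon
  push Not at hcon
  obtain ⟨hC0, hD0⟩ := hcon
  have h1 : Disjoint (A ⊔ C) D := by
    apply Disjoint.disjoint_sup_left_of_disjoint_sup_right (disjoint_iff.2 hCD)
    exact hAB.mono_right (sup_le hC hD)
  apply hmax (A ⊔ C) ⟨D, hD.trans hBN, hD0, h1⟩
  refine lt_of_le_of_ne le_sup_left (fun h => hC0 ?_)
  have h2 : C ≤ A := by rw [h]; exact le_sup_right
  exact le_bot_iff.1 ((le_inf h2 hC).trans (disjoint_iff.1 hAB).le)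

/-- Over a left noetherian ring, every nonzero submodule contains a uniform submodule. -/
theorem exists_uniform_le (hR : IsNoetherianRing R) {M : Type v} [AddCommGroup M] [Module R M]
    (N : Submodule R M) (hN : N ≠ ⊥) : ∃ U ≤ N, IsUniform R U := by
  obtain ⟨x, hx, hx0⟩ := Submodule.exists_mem_ne_zero_of_ne_bot hN
  have hle : R ∙ x ≤ N := by rwa [Submodule.span_singleton_le_iff_mem]
  have : IsNoetherian R (R ∙ x) := isNoetherian_span_of_finite R (Set.finite_singleton x)
  have hnt : (⊤ : Submodule R (R ∙ x)) ≠ ⊥ := by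
    intro h
    have h1 : (⟨x, Submodule.mem_span_singleton_self x⟩ : R ∙ x) ∈ (⊥ : Submodule R (R ∙ x)) := by
      rw [← h]; exact Submodule.mem_top
    rw [Submodule.mem_bot] at h1
    exact hx0 (congrArg Subtype.val h1)
  obtain ⟨U, -, hU⟩ := exists_uniform_le_aux ⊤ hnt
  refine ⟨U.map (R ∙ x).subtype, (Submodule.map_subtype_le _ _).trans hle, ?_⟩
  exact hU.of_linearEquiv
    (Submodule.equivMapOfInjective (R ∙ x).subtype (R ∙ x).injective_subtype U)

/-- A uniserial noetherian submodule of a module with zero radical is an atom or zero. -/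
theorem isAtom_of_uniserial {M : Type v} [AddCommGroup M] [Module R M]
    (hJ : Module.jacobson R M = ⊥) (U : Submodule R M) (hU0 : U ≠ ⊥)
    (hU : ∀ A B : Submodule R M, A ≤ U → B ≤ U → A ≤ B ∨ B ≤ A) : IsAtom U := by
  refine ⟨hU0, fun A hA => ?_⟩
  rw [eq_bot_iff, ← hJ, Module.jacobson]
  apply le_sInf
  intro m hm
  by_contra hAm
  have h1 : U ⊓ m ≤ A := by
    rcases hU A (U ⊓ m) hA.le inf_le_left with h | h
    · exact absurd (h.trans inf_le_right) hAm
    · exact h
  have h2 : m ⊔ A = ⊤ := hm.2 _ (lt_of_le_of_ne le_sup_left (fun h => hAm (by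
    rw [h]; exact le_sup_right)))
  have h3 : U = A := by
    calc U = (A ⊔ m) ⊓ U := by rw [sup_comm, h2, top_inf_eq]
      _ = A ⊔ m ⊓ U := sup_inf_assoc_of_le _ hA.le
      _ = A := by rw [inf_comm m U]; exact sup_eq_left.2 h1
  exact hA.ne h3.symm

theorem uniserial_sub_of {M : Type v} [AddCommGroup M] [Module R M] (U : Submodule R M)
    (h : IsUniserial R U) : ∀ A B : Submodule R M, A ≤ U → B ≤ U → A ≤ B ∨ B ≤ A := by
  intro A B hA hB
  have key : ∀ C D : Submodule R M, C ≤ U → C.comap U.subtype ≤ D.comap U.subtype → C ≤ D := by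
    intro C D hC hCD x hx
    exact hCD (show (⟨x, hC hx⟩ : U) ∈ C.comap U.subtype from hx)
  rcases h (A.comap U.subtype) (B.comap U.subtype) with h1 | h1
  · exact Or.inl (key _ _ hA h1)
  · exact Or.inr (key _ _ hB h1)

theorem isSemisimpleModule_of_subsingleton (M : Type v) [AddCommGroup M] [Module R M]
    [Subsingleton M] : IsSemisimpleModule R M := by
  rw [isSemisimpleModule_iff]
  exact ⟨fun a => ⟨a, by
    have : Subsingleton (Submodule R M) := inferInstance
    have h1 : a = ⊥ := Subsingleton.elim _ _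
    have h2 : a = ⊤ := Subsingleton.elim _ _
    constructor
    · rw [disjoint_iff, h1, inf_idem]
    · rw [codisjoint_iff, h2, sup_idem]⟩⟩

/-- Over a left noetherian ring all of whose uniform modules are uniserial, a noetherian module
with zero radical is semisimple. -/
theorem isSemisimpleModule_of_jacobson_eq_bot (hU : PropU R) (M : Type u)
    [AddCommGroup M] [Module R M] [IsNoetherian R M] (hJ : Module.jacobson R M = ⊥) :
    IsSemisimpleModule R M := by
  obtain ⟨N, ⟨hNs, C, hNC⟩, hmax⟩ := set_has_maximal_iff_noetherian.2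
    (inferInstance : IsNoetherian R M)
    {N : Submodule R M | IsSemisimpleModule R N ∧ ∃ C, IsCompl N C}
    ⟨⊥, isSemisimpleModule_of_subsingleton _, ⊤, isCompl_bot_top⟩
  by_cases hC : C = ⊥
  · have : N = ⊤ := by
      rw [hC] at hNC
      exact eq_top_of_isCompl_bot hNC
    rw [this] at hNs
    exact (Submodule.topEquiv (R := R) (M := M)).isSemisimpleModule_iff.1 hNs
  · exfalso
    obtain ⟨U, hUC, hUu⟩ := exists_uniform_le_aux C hC
    have hU0 : U ≠ ⊥ := ((isUniform_iff_sub U).1 hUu).1
    have hUa : IsAtom U := isAtom_of_uniserial hJ U hU0 (uniserial_sub_of U (hU U hUu))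
    obtain ⟨m, hm, hUm⟩ : ∃ m : Submodule R M, IsCoatom m ∧ ¬ U ≤ m := by
      by_contra hcon
      push Not at hcon
      apply hU0
      rw [eq_bot_iff, ← hJ, Module.jacobson]
      exact le_sInf hcon
    have h1 : U ⊔ m = ⊤ := hm.2 _ (lt_of_le_of_ne le_sup_right (fun h => hUm (by
      rw [h]; exact le_sup_left)))
    have h2 : U ⊓ m = ⊥ := hUa.2 _ (lt_of_le_of_ne inf_le_left (fun h => hUm (by
      rw [← h]; exact inf_le_right)))
    have h3 : C = U ⊔ m ⊓ C := by
      rw [← sup_inf_assoc_of_le _ hUC, h1, top_inf_eq]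
    have h4 : Disjoint (N ⊔ U) (m ⊓ C) := by
      apply Disjoint.disjoint_sup_left_of_disjoint_sup_right
      · rw [disjoint_iff, ← inf_assoc, h2, bot_inf_eq]
      · rw [← h3]; exact hNC.disjoint
    have h5 : Codisjoint (N ⊔ U) (m ⊓ C) := by
      rw [codisjoint_iff, sup_assoc, ← h3]
      exact hNC.sup_eq_top
    have hUs : IsSemisimpleModule R U := by
      have : IsSimpleModule R U := isSimpleModule_iff_isAtom.2 hUa
      infer_instance
    apply hmax (N ⊔ U) ⟨IsSemisimpleModule.sup hNs hUs, _, ⟨h4, h5⟩⟩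
    refine lt_of_le_of_ne le_sup_left (fun h => hU0 ?_)
    have h6 : U ≤ N := by rw [h]; exact le_sup_right
    exact le_bot_iff.1 ((le_inf h6 hUC).trans (disjoint_iff.1 hNC.disjoint).le)

/-- A left noetherian ring all of whose uniform left modules are uniserial is semilocal. -/
theorem isSemisimpleRing_quot_jacobson (hR : IsNoetherianRing R) (hU : PropU R) :
    IsSemisimpleRing (R ⧸ Ring.jacobson R) := by
  have h1 : IsSemisimpleModule R (R ⧸ Ring.jacobson R) :=
    isSemisimpleModule_of_jacobson_eq_bot hU (R ⧸ Ring.jacobson R)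
      (Module.jacobson_quotient_jacobson R R)
  let f : R ⧸ Ring.jacobson R →ₛₗ[Ideal.Quotient.mk (Ring.jacobson R)] R ⧸ Ring.jacobson R :=
    ⟨AddHom.id _, fun _ _ ↦ rfl⟩
  exact (LinearMap.isSemisimpleModule_iff_of_bijective f Function.bijective_id).1 h1

end noeth

section embed

variable {R : Type u} [Ring R]

/-- Over a left noetherian ring direct sums of injectives are injective. -/
theorem baer_directSum (hR : IsNoetherianRing R) {ι : Type w} (E : ι → Type v)
    [∀ i, AddCommGroup (E i)] [∀ i, Module R (E i)] (hE : ∀ i, Module.Baer R (E i)) :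
    Module.Baer R (DirectSum ι E) := by
  classical
  intro L f
  obtain ⟨S, hS⟩ : ∃ S : Finset ι, ∀ x : L, ∀ i ∉ S, f x i = 0 := by
    have hfg : (⊤ : Submodule R L).FG := Module.Finite.fg_top
    obtain ⟨t, ht⟩ := hfg
    refine ⟨t.biUnion (fun x => DFinsupp.support (f x)), fun x i hi => ?_⟩
    have hx : x ∈ Submodule.span R (t : Set L) := by rw [ht]; exact Submodule.mem_top
    induction hx using Submodule.span_induction with
    | mem x hx =>
      by_contra h
      exact hi (Finset.mem_biUnion.2 ⟨x, hx, DFinsupp.mem_support_iff.2 h⟩)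
    | zero => simp
    | add x y _ _ hx hy =>
      rw [map_add, DirectSum.add_apply, hx, hy, add_zero]
    | smul a x _ hx =>
      rw [map_smul, DirectSum.smul_apply, hx, smul_zero]
  choose g hg using fun i => hE i L ((DirectSum.component R ι E i) ∘ₗ f)
  refine ⟨∑ i ∈ S, (DirectSum.lof R ι E i) ∘ₗ g i, fun x hx => ?_⟩
  refine DFinsupp.ext fun j => ?_
  rw [LinearMap.sum_apply]
  have h1 : ∀ i, (DirectSum.lof R ι E i ∘ₗ g i) x = DirectSum.lof R ι E i (f ⟨x, hx⟩ i) := by
    intro i
    rw [LinearMap.comp_apply, hg i x hx]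
    rfl
  simp only [h1]
  rw [DFinsupp.finsetSum_apply]
  by_cases hj : j ∈ S
  · rw [Finset.sum_eq_single j]
    · exact DirectSum.lof_apply R j _
    · intro b _ hb
      exact DFinsupp.single_eq_of_ne (Ne.symm hb)
    · intro h; exact absurd hj h
  · rw [hS _ j hj]
    apply Finset.sum_eq_zero
    intro b hb
    exact DFinsupp.single_eq_of_ne (fun h => hj (by rw [h]; exact hb))

/-- If `R` is left noetherian and uniform left modules are uniserial, then every left module
embeds in a direct sum of uniserial modules. -/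
theorem propE_of (hR : IsNoetherianRing R) (hU : PropU R) : PropE R := by
  classical
  intro M _ _
  obtain ⟨s, hs⟩ := zorn_subset {s : Set (Submodule R M) | sSupIndep s ∧ ∀ a ∈ s, IsUniform R a}
    (fun c hc1 hc2 => ⟨⋃₀ c,
        ⟨iSupIndep_sUnion_of_directed hc2.directedOn fun s hs => (hc1 hs).1,
          fun a ⟨s, sc, as⟩ => (hc1 sc).2 a as⟩,
        fun _ => Set.subset_sUnion_of_mem⟩)
  obtain ⟨⟨hind, hunif⟩, hmax⟩ := hs
  have hess : ∀ A : Submodule R M, A ⊓ sSup s = ⊥ → A = ⊥ := by
    intro A hA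
    by_contra hA0
    obtain ⟨U, hUA, hUu⟩ := exists_uniform_le hR A hA0
    have hUs : Disjoint U (sSup s) := by
      rw [disjoint_iff, eq_bot_iff, ← hA]
      exact inf_le_inf_right _ hUA
    have hU0 : U ≠ ⊥ := ((isUniform_iff_sub U).1 hUu).1
    have hUn : U ∉ s := fun h => hU0 (by
      have := hUs.mono_right (le_sSup h)
      rwa [disjoint_self] at this)
    have h1 : sSupIndep (insert U s) := by
      intro x hx
      rcases Set.mem_insert_iff.1 hx with rfl | hx
      · refine hUs.mono_right (sSup_le_sSup ?_)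
        intro y hy
        exact (Set.mem_insert_iff.1 hy.1).resolve_left hy.2
      · have hxU : x ≠ U := fun h => hUn (by rw [← h]; exact hx)
        have h2 : insert U s \ {x} = insert U (s \ {x}) := by
          rw [Set.insert_sdiff_of_notMem]
          simpa using fun h => hxU h.symm
        rw [h2, sSup_insert, sup_comm]
        apply (hind hx).disjoint_sup_right_of_disjoint_sup_left
        refine (hUs.mono_right (sup_le (le_sSup hx) (sSup_le_sSup Set.sdiff_subset))).symm
    have h3 := hmax (y := insert U s) ⟨h1, fun a ha => by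
      rcases Set.mem_insert_iff.1 ha with rfl | ha
      · exact hUu
      · exact hunif a ha⟩ (Set.subset_insert _ _)
    exact hUn (h3 (Set.mem_insert _ _))
  choose E instE modE f hEU hEB hf using fun j : s => exists_hull R j.1 (hunif j.1 j.2)
  have hind' : iSupIndep (fun j : s => (j : Submodule R M)) := (sSupIndep_iff s).1 hind
  let i : DirectSum s (fun j => (j : Submodule R M)) →ₗ[R] M :=
    DirectSum.coeLinearMap (fun j : s => (j : Submodule R M))
  have hi : Function.Injective i := hind'.dfinsupp_lsum_injective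
  obtain ⟨h, hh⟩ := (baer_directSum hR E hEB).extension_property i hi
    (DirectSum.lmap (fun j => f j))
  refine ⟨s, E, instE, modE, fun j => hU _ (hEU j), h, ?_⟩
  rw [← LinearMap.ker_eq_bot]
  apply hess
  have hrange : LinearMap.range i = sSup s := by
    rw [DirectSum.range_coeLinearMap, sSup_eq_iSup']
  rw [eq_bot_iff]
  rintro x ⟨hx1, hx2⟩
  rw [SetLike.mem_coe, ← hrange] at hx2
  obtain ⟨y, rfl⟩ := hx2
  have h1 : h (i y) = 0 := hx1
  have h2 : h (i y) = DirectSum.lmap (fun j => f j) y := DFunLike.congr_fun hh y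
  rw [h1] at h2
  have h3 : y = 0 := by
    apply (DirectSum.lmap_injective (f := fun j => f j)).2 hf
    rw [← h2, map_zero]
  rw [h3, map_zero]
  exact zero_mem _

/-- Uniserial modules have bounded cardinality. -/
theorem uniserial_bound (R : Type u) [Ring R] : ∃ T : Type u, Nonempty T ∧
    ∀ (U : Type u) [AddCommGroup U] [Module R U], IsUniserial R U →
      ∃ f : U → T, Function.Injective f := by
  choose I instI modI g hI hg using fun L : Submodule R R => exists_baer R (R ⧸ L)
  refine ⟨Σ L : Submodule R R, I L, ⟨⟨⊤, 0⟩⟩, fun U _ _ hU => ?_⟩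
  rcases subsingleton_or_nontrivial U with hs | hn
  · exact ⟨fun _ => ⟨⊤, 0⟩, fun x y _ => Subsingleton.elim _ _⟩
  · obtain ⟨u, hu⟩ := exists_ne (0 : U)
    let t := LinearMap.toSpanSingleton R U u
    let L := LinearMap.ker t
    let j : (R ⧸ L) →ₗ[R] U := L.liftQ t le_rfl
    have hj : Function.Injective j := by
      rw [← LinearMap.ker_eq_bot]
      exact Submodule.ker_liftQ_eq_bot _ _ _ le_rfl
    obtain ⟨h, hh⟩ := (hI L).extension_property j hj (g L)
    refine ⟨fun x => ⟨L, h x⟩, fun x y hxy => ?_⟩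
    have hxy' : h x = h y := eq_of_heq (Sigma.mk.inj_iff.1 hxy).2
    have hker : LinearMap.ker h = ⊥ := by
      have h1 : LinearMap.ker h ⊓ LinearMap.range j = ⊥ := by
        rw [eq_bot_iff]
        rintro x ⟨hx1, y, rfl⟩
        have h2 : h (j y) = g L y := DFunLike.congr_fun hh y
        have h3 : h (j y) = 0 := hx1
        rw [h3] at h2
        have h4 : y = 0 := hg L (by rw [← h2, map_zero])
        rw [h4, map_zero]
        exact zero_mem _
      rcases hU (LinearMap.ker h) (LinearMap.range j) with h2 | h2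
      · rwa [inf_eq_left.2 h2] at h1
      · exfalso
        rw [inf_eq_right.2 h2] at h1
        have h3 : u ∈ LinearMap.range j := ⟨Submodule.Quotient.mk 1, by simp [j, t]⟩
        rw [h1, Submodule.mem_bot] at h3
        exact hu h3
    exact LinearMap.ker_eq_bot.1 hker hxy'

/-- Property (E) forces the ring to be left noetherian. -/
theorem noetherian_of_propE (h : PropE R) : IsNoetherianRing R := by
  classical
  obtain ⟨T, hT, hbound⟩ := uniserial_bound R
  rw [isNoetherianRing_iff, ← monotone_stabilizes_iff_noetherian]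
  intro I
  suffices ∃ m, ∀ n, I n ≤ I m by
    obtain ⟨m, hm⟩ := this
    exact ⟨m, fun n hn => le_antisymm (I.monotone hn) (hm n)⟩
  obtain ⟨ι, U, _, _, hU, φ, hφ⟩ := h (∀ n : ℕ, Set (List T) → R ⧸ I n)
  choose b hb using fun i => hbound (U i) (hU i)
  let e : ℕ → Set (List T) → (∀ n : ℕ, Set (List T) → R ⧸ I n) :=
    fun n x => Pi.single n (Pi.single x (Submodule.Quotient.mk 1))
  have step : ∀ (n : ℕ) (F : Finset ι), ∃ p : Set (List T) × Set (List T),
      p.1 ≠ p.2 ∧ ∀ i ∈ F, φ (e n p.1 - e n p.2) i = 0 := by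
    intro n F
    by_contra hcon
    push Not at hcon
    apply Function.cantor_injective
      (fun x : Set (List T) => F.toList.map (fun i => b i (φ (e n x) i)))
    intro x y hxy
    by_contra hne
    obtain ⟨i, hi, hi0⟩ := hcon (x, y) hne
    apply hi0
    have h1 := (List.map_inj_left.1 hxy) i (Finset.mem_toList.2 hi)
    have h2 := hb i h1
    rw [map_sub, DirectSum.sub_apply, h2, sub_self]
  choose c hc1 hc2 using step
  let A : ℕ → Finset ι := fun n =>
    Nat.rec ∅ (fun n F => F ∪ DFinsupp.support (φ (e n (c n F).1 - e n (c n F).2))) n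
  let ε : ℕ → (∀ n : ℕ, Set (List T) → R ⧸ I n) := fun n => e n (c n (A n)).1 - e n (c n (A n)).2
  have hAsucc : ∀ n, A (n + 1) = A n ∪ DFinsupp.support (φ (ε n)) := fun n => rfl
  have hAmono : Monotone A := monotone_nat_of_le_succ (fun n => by
    rw [hAsucc]; exact Finset.subset_union_left)
  have hsupp : ∀ m n, m < n → ∀ i, φ (ε m) i ≠ 0 → φ (ε n) i = 0 := by
    intro m n hmn i hi
    apply hc2 n (A n) i
    apply hAmono (Nat.succ_le_of_lt hmn)
    rw [Nat.succ_eq_add_one, hAsucc]
    exact Finset.mem_union_right _ (DFinsupp.mem_support_iff.2 hi)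
  have hsupp' : ∀ m n, m ≠ n → ∀ i, φ (ε m) i ≠ 0 → φ (ε n) i = 0 := by
    intro m n hmn i hi
    rcases lt_or_gt_of_ne hmn with h1 | h1
    · exact hsupp m n h1 i hi
    · by_contra h2
      exact hi (hsupp n m h1 i h2)
  -- the diagonal element
  let p : ∀ n : ℕ, Set (List T) → R ⧸ I n := fun n => ε n n
  obtain ⟨m, hm⟩ : ∃ m, ∀ i, φ (ε m) i ≠ 0 → φ p i = 0 := by
    by_contra hcon
    push Not at hcon
    choose k hk1 hk2 using hcon
    have : Set.Finite (Set.range k) :=
      (DFinsupp.support (φ p)).finite_toSet.subset (by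
        rintro _ ⟨m, rfl⟩
        exact DFinsupp.mem_support_iff.2 (hk2 m))
    have hinj : Function.Injective k := by
      intro m n hmn
      by_contra hne
      exact hk1 n (by rw [← hmn]; exact hsupp' m n hne (k m) (hk1 m))
    exact Set.infinite_range_of_injective hinj this
  refine ⟨m, fun N a ha => ?_⟩
  by_cases hNm : N ≤ m
  · exact I.monotone hNm ha
  push Not at hNm
  -- `a • p` is a finite sum
  have hεcoord : ∀ n k, k ≠ n → ε n k = 0 := by
    intro n k hk
    simp only [ε, e]
    rw [Pi.sub_apply, Pi.single_eq_of_ne hk, Pi.single_eq_of_ne hk, sub_self]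
  have hap : a • p = ∑ n ∈ Finset.range N, a • ε n := by
    funext k
    rw [Finset.sum_apply]
    by_cases hk : k ∈ Finset.range N
    · rw [Finset.sum_eq_single k]
      · rfl
      · intro n _ hn
        rw [Pi.smul_apply, hεcoord n k hn.symm, smul_zero]
      · intro h; exact absurd hk h
    · rw [Finset.sum_eq_zero]
      · have hk' : N ≤ k := by simpa using hk
        have hak : a ∈ I k := I.monotone hk' ha
        funext x
        rw [Pi.smul_apply, Pi.smul_apply]
        simp only [p, ε, e]
        rw [Pi.sub_apply, Pi.single_eq_same, Pi.single_eq_same, Pi.sub_apply, smul_sub]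
        have h1 : ∀ y : Set (List T), a • (Pi.single y (Submodule.Quotient.mk 1) :
            Set (List T) → R ⧸ I k) x = 0 := by
          intro y
          by_cases hxy : x = y
          · rw [hxy, Pi.single_eq_same, ← Submodule.Quotient.mk_smul, smul_eq_mul, mul_one]
            exact (Submodule.Quotient.mk_eq_zero _).2 hak
          · rw [Pi.single_eq_of_ne hxy, smul_zero]
        rw [h1, h1, sub_zero]
        rfl
      · intro n hn
        have : k ≠ n := fun h => hk (by rw [h]; exact hn)
        rw [Pi.smul_apply, hεcoord n k this, smul_zero]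
  have hzero : a • ε m = 0 := by
    apply hφ
    rw [map_zero]
    refine DFinsupp.ext fun i => ?_
    by_cases hi : φ (ε m) i = 0
    · rw [map_smul, DirectSum.smul_apply, hi, smul_zero]
      rfl
    · have h1 : φ (a • p) i = 0 := by
        rw [map_smul, DirectSum.smul_apply, hm i hi, smul_zero]
      rw [hap, map_sum, DFinsupp.finsetSum_apply,
        Finset.sum_eq_single_of_mem m (Finset.mem_range.2 hNm)] at h1
      · exact h1
      · intro n _ hn
        rw [map_smul, DirectSum.smul_apply, hsupp' m n (Ne.symm hn) i hi, smul_zero]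
  have h1 := congrFun (congrFun hzero m) (c m (A m)).1
  simp only [ε, e] at h1
  rw [Pi.smul_apply, Pi.smul_apply, Pi.sub_apply, Pi.single_eq_same, Pi.single_eq_same,
    Pi.sub_apply, Pi.single_eq_same, Pi.single_eq_of_ne (hc1 m (A m)), sub_zero,
    ← Submodule.Quotient.mk_smul, smul_eq_mul, mul_one] at h1
  exact (Submodule.Quotient.mk_eq_zero _).1 h1

/-- Property (E) forces uniform modules to be uniserial. -/
theorem propU_of_propE (h : PropE R) : PropU R := by
  classical
  intro M _ _ hM
  obtain ⟨ι, U, _, _, hU, φ, hφ⟩ := h M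
  obtain ⟨hnt, hun⟩ := hM
  obtain ⟨x, hx⟩ := exists_ne (0 : M)
  have hfin : ∀ F : Finset ι, (∀ i ∈ F, LinearMap.ker ((DirectSum.component R ι U i) ∘ₗ φ) ≠ ⊥) →
      (F.inf (fun i => LinearMap.ker ((DirectSum.component R ι U i) ∘ₗ φ))) ⊓ (R ∙ x) ≠ ⊥ := by
    intro F
    induction F using Finset.induction_on with
    | empty =>
      intro _
      rw [Finset.inf_empty, top_inf_eq, Ne, Submodule.span_singleton_eq_bot]
      exact hx
    | insert a s ha ih =>
      intro hF
      rw [Finset.inf_insert, inf_assoc]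
      intro hcon
      rcases hun _ _ hcon with h1 | h1
      · exact hF a (Finset.mem_insert_self _ _) h1
      · exact ih (fun i hi => hF i (Finset.mem_insert_of_mem hi)) h1
  obtain ⟨i, hi⟩ : ∃ i, LinearMap.ker ((DirectSum.component R ι U i) ∘ₗ φ) = ⊥ := by
    by_contra hcon
    push Not at hcon
    apply hfin (DFinsupp.support (φ x)) (fun i _ => hcon i)
    rw [eq_bot_iff]
    rintro y ⟨hy1, hy2⟩
    obtain ⟨r, rfl⟩ := Submodule.mem_span_singleton.1 hy2
    rw [Submodule.mem_bot]
    apply hφ
    rw [map_zero]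
    refine DFinsupp.ext fun i => ?_
    by_cases hi : φ x i = 0
    · rw [map_smul, DirectSum.smul_apply, hi, smul_zero]
      rfl
    · have h1 := (Finset.inf_le (f := fun i => LinearMap.ker ((DirectSum.component R ι U i) ∘ₗ φ))
        (DFinsupp.mem_support_iff.2 hi)) hy1
      exact h1
  exact IsUniserial.of_injective _ (LinearMap.ker_eq_bot.1 hi) (hU i)

/-- Property (E) holds iff the ring is left noetherian and all uniform left modules are
uniserial. -/
theorem propE_iff : PropE R ↔ IsNoetherianRing R ∧ PropU R :=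
  ⟨fun h => ⟨noetherian_of_propE h, propU_of_propE h⟩, fun h => propE_of h.1 h.2⟩

end embed

end Pool.Agent.Uni
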